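import Pool.Graph.R_seed8.R895.Gen

/-! Hermitian forms over the Eisenstein integers in two variables. -/

set_option autoImplicit false

namespace Pool.Agent.H899.MK

open Matrix
open Pool.Agent.R895

theorem pd_one {n : ℕ} : Pd (1 : Matrix (Fin n) (Fin n) ℂ) := by
  refine ⟨isHermitian_one, fun v hv => ?_⟩
  rw [q_one]
  obtain ⟨i, hi⟩ : ∃ i, v i ≠ 0 := by
    by_contra hcon
    push Not at hcon
    exact hv (funext hcon)
  exact Finset.sum_pos' (fun i _ => Complex.normSq_nonneg _)
    ⟨i, Finset.mem_univ _, Complex.normSq_pos.2 hi⟩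

theorem trans_isGL {n : ℕ} {i j : Fin n} (hij : i ≠ j) {c : ℂ} (hc : IsEis c) :
    IsGL (transvection i j c) := by
  have hent : ∀ {c : ℂ}, IsEis c → ∀ a b, IsEis (transvection i j c a b) := by
    intro c hc a b
    unfold transvection
    rw [Matrix.add_apply]
    refine IsEis.add ?_ ?_
    · rw [one_apply]
      split_ifs
      · exact IsEis.one
      · exact IsEis.zero
    · rw [Matrix.single_apply]
      split_ifs
      · exact hc
      · exact IsEis.zero
  refine ⟨hent hc, transvection i j (-c), hent hc.neg, ?_, ?_⟩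
  · rw [transvection_mul_transvection_same _ _ hij, add_neg_cancel, transvection_zero]
  · rw [transvection_mul_transvection_same _ _ hij, neg_add_cancel, transvection_zero]

theorem trans_mulVec {n : ℕ} {i j : Fin n} (c : ℂ) (x : Fin n → ℂ) (k : Fin n) :
    (transvection i j c *ᵥ x) k = x k + if k = i then c * x j else 0 := by
  unfold transvection
  rw [add_mulVec, one_mulVec, Pi.add_apply]
  congr 1
  rw [mulVec, dotProduct]
  by_cases hk : k = i
  · rw [if_pos hk, Finset.sum_eq_single j]
    · rw [Matrix.single_apply, if_pos ⟨hk.symm, rfl⟩]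
    · intro b _ hb
      rw [Matrix.single_apply, if_neg (fun h => hb h.2.symm), zero_mul]
    · intro h; exact absurd (Finset.mem_univ _) h
  · rw [if_neg hk]
    refine Finset.sum_eq_zero fun b _ => ?_
    rw [Matrix.single_apply, if_neg (fun h => hk h.1.symm), zero_mul]

theorem swap_isGL {n : ℕ} (i j : Fin n) : IsGL (Matrix.swap ℂ i j) := by
  have h : ∀ a b, IsEis (Matrix.swap ℂ i j a b) := by
    intro a b
    unfold Matrix.swap Equiv.Perm.permMatrix
    rw [PEquiv.toMatrix_apply]
    split_ifs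
    · exact IsEis.one
    · exact IsEis.zero
  exact ⟨h, _, h, Matrix.swap_mul_self i j, Matrix.swap_mul_self i j⟩

/-- A lattice vector is a multiple of a member of a basis of the lattice. -/
theorem unimod {n : ℕ} {x : Fin (n + 1) → ℂ} (hx : IsLat x) (hx0 : x ≠ 0) :
    ∃ (g : Matrix (Fin (n + 1)) (Fin (n + 1)) ℂ) (c : ℂ), IsGL g ∧ IsEis c ∧ c ≠ 0 ∧
      x = c • (g *ᵥ Pi.single 0 1) := by
  classical
  obtain ⟨y, ⟨g, hg, rfl⟩, hmin⟩ := (pd_one (n := n + 1)).exists_min
    (A := {y | ∃ g, IsGL g ∧ y = g *ᵥ x}) (by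
      rintro _ ⟨g, hg, rfl⟩
      exact hg.mulVec hx) ⟨_, 1, IsGL.one, rfl⟩
  obtain ⟨y, hy⟩ : ∃ y, y = g *ᵥ x := ⟨_, rfl⟩
  rw [← hy] at hmin
  have hyL : IsLat y := by rw [hy]; exact hg.mulVec hx
  have hy0 : y ≠ 0 := by rw [hy]; exact hg.mulVec_ne hx0
  obtain ⟨i, hi, himin⟩ : ∃ i, y i ≠ 0 ∧ ∀ j, y j ≠ 0 →
      Complex.normSq (y i) ≤ Complex.normSq (y j) := by
    have hne : (Finset.univ.filter fun i => y i ≠ 0).Nonempty := by
      by_contra hcon
      rw [Finset.not_nonempty_iff_eq_empty, Finset.filter_eq_empty_iff] at hcon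
      apply hy0
      ext i
      have := hcon (Finset.mem_univ i)
      simpa using this
    obtain ⟨i, hi, hm⟩ := Finset.exists_min_image _ (fun i => Complex.normSq (y i)) hne
    exact ⟨i, (Finset.mem_filter.1 hi).2, fun j hj => hm j (Finset.mem_filter.2
      ⟨Finset.mem_univ _, hj⟩)⟩
  have hz : ∀ j, j ≠ i → y j = 0 := by
    intro j hji
    by_contra hj
    obtain ⟨e, he, hle⟩ := exists_near (y j / y i)
    have hlt : Complex.normSq (y j - e * y i) < Complex.normSq (y j) := by
      have h1 : y j - e * y i = (y j / y i - e) * y i := by field_simp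
      have h2 : 0 < Complex.normSq (y i) := Complex.normSq_pos.2 hi
      have h3 := himin j hj
      rw [h1, Complex.normSq_mul]
      nlinarith
    have h4 := hmin ((transvection j i (-e)) *ᵥ y) ⟨transvection j i (-e) * g,
      (trans_isGL hji he.neg).mul hg, by rw [← mulVec_mulVec, hy]⟩
    rw [q_one, q_one] at h4
    refine absurd h4 (not_le.2 ?_)
    refine Finset.sum_lt_sum (fun k _ => ?_) ⟨j, Finset.mem_univ _, ?_⟩
    · rw [trans_mulVec]
      by_cases hk : k = j
      · rw [if_pos hk, hk, neg_mul, ← sub_eq_add_neg]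
        exact hlt.le
      · rw [if_neg hk, add_zero]
    · rw [trans_mulVec, if_pos rfl, neg_mul, ← sub_eq_add_neg]
      exact hlt
  obtain ⟨g', h1, h2, h3⟩ := hg.inv
  have hg' : IsGL g' := ⟨h1, g, hg.ent, h3, h2⟩
  refine ⟨g' * Matrix.swap ℂ 0 i, y i, hg'.mul (swap_isGL 0 i), hyL i, hi, ?_⟩
  have h4 : y = y i • (Matrix.swap ℂ 0 i *ᵥ Pi.single 0 1) := by
    ext k
    rw [Pi.smul_apply, Matrix.swap_mulVec, Function.comp_apply, smul_eq_mul]
    by_cases hk : k = i
    · rw [hk, Equiv.swap_apply_right, Pi.single_eq_same, mul_one]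
    · rw [hz k hk, Pi.single_eq_of_ne, mul_zero]
      intro h5
      apply hk
      have := congrArg (Equiv.swap 0 i) h5
      rwa [Equiv.swap_apply_self, Equiv.swap_apply_left] at this
  rw [← mulVec_mulVec, ← mulVec_smul, ← h4, hy, mulVec_mulVec, h3, one_mulVec]

/-! ### Units -/

/-- The primitive sixth root of unity `1 + ω`. -/
noncomputable def ze : ℂ := 1 + om

theorem re_om : om.re = -1 / 2 := rfl

theorem im_om : om.im = √3 / 2 := rfl

theorem unit_ze : ze ^ 6 = 1 := by
  have h1 : om * om = -1 - om := om_sq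
  have h2 : ze ^ 2 = om := by unfold ze; linear_combination h1
  have h3 : om ^ 3 = 1 := om_cube
  calc ze ^ 6 = (ze ^ 2) ^ 3 := by ring
    _ = 1 := by rw [h2, h3]

theorem eis_ze : IsEis ze := IsEis.one.add IsEis.omega

/-- Every complex number lies in the sector between two neighbouring units. -/
theorem sector (h : ℂ) : ∃ (u : ℂ) (α β : ℝ), u ^ 6 = 1 ∧ 0 ≤ α ∧ 0 ≤ β ∧
    h = α * u + β * (ze * u) := by
  obtain ⟨x, y, rfl⟩ := exists_coord h
  have h1 : om * om = -1 - om := om_sq
  have h6 : om ^ 6 = 1 := by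
    calc om ^ 6 = (om ^ 3) ^ 2 := by ring
      _ = 1 := by rw [om_cube, one_pow]
  unfold ze
  rcases le_total 0 x with hx | hx
  · rcases le_total 0 y with hy | hy
    · rcases le_total x y with hxy | hxy
      · refine ⟨1 + om, x, y - x, unit_ze, hx, by linarith, ?_⟩
        push_cast
        linear_combination (-(y : ℂ) + x) * h1
      · refine ⟨1, x - y, y, by norm_num, by linarith, hy, ?_⟩
        push_cast
        ring
    · refine ⟨-om, -y, x, ?_, by linarith, hx, ?_⟩
      · rw [neg_pow, h6]; norm_num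
      · push_cast
        linear_combination (x : ℂ) * h1
  · rcases le_total 0 y with hy | hy
    · refine ⟨om, y, -x, h6, hy, by linarith, ?_⟩
      push_cast
      linear_combination (x : ℂ) * h1
    · rcases le_total x y with hxy | hxy
      · refine ⟨-1, y - x, -y, by norm_num, by linarith, by linarith, ?_⟩
        push_cast
        ring
      · refine ⟨-(1 + om), -x, x - y, ?_, by linarith, by linarith, ?_⟩
        · have := unit_ze
          unfold ze at this
          rw [neg_pow, this]; norm_num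
        · push_cast
          linear_combination ((x : ℂ) - y) * h1

/-- The nearest Eisenstein integer. -/
theorem near_hex (z : ℂ) : ∃ e, IsEis e ∧ Complex.normSq (z - e) ≤ 1 / 3 ∧
    ∀ u : ℂ, u ^ 6 = 1 → 2 * (u * (z - e)).re ≤ 1 := by
  classical
  obtain ⟨e0, he0, h0⟩ := exists_near z
  have hfin : {e : ℂ | IsEis e ∧ Complex.normSq (z - e) ≤ Complex.normSq (z - e0)}.Finite := by
    refine (finite_eis ((‖z‖ + 1) ^ 2)).subset ?_
    rintro e ⟨he, hle⟩
    refine ⟨he, ?_⟩
    have h1 : Complex.normSq (z - e) ≤ 1 := hle.trans (h0.trans (by norm_num))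
    rw [Complex.normSq_eq_norm_sq] at h1 ⊢
    have h2 : ‖z - e‖ ≤ 1 := by
      nlinarith [norm_nonneg (z - e)]
    have h3 : ‖e‖ ≤ ‖z‖ + 1 := by
      have h4 : e = z - (z - e) := by ring
      rw [h4]
      exact (norm_sub_le _ _).trans (by linarith)
    exact pow_le_pow_left₀ (norm_nonneg _) h3 2
  obtain ⟨e, ⟨he, hle⟩, hmin⟩ := Set.exists_min_image _ (fun e => Complex.normSq (z - e)) hfin
    ⟨e0, he0, le_rfl⟩
  have hmin' : ∀ e', IsEis e' → Complex.normSq (z - e) ≤ Complex.normSq (z - e') := by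
    intro e' he'
    rcases le_total (Complex.normSq (z - e')) (Complex.normSq (z - e0)) with h1 | h1
    · exact hmin e' ⟨he', h1⟩
    · exact hle.trans h1
  refine ⟨e, he, hle.trans h0, fun u hu => ?_⟩
  have hu0 : u ≠ 0 := by rintro rfl; norm_num at hu
  have hus : Complex.normSq u = 1 := by
    have h1 : Complex.normSq u ^ 6 = 1 := by rw [← map_pow, hu, Complex.normSq_one]
    have h2 := Complex.normSq_nonneg u
    exact (pow_eq_one_iff_of_nonneg h2 (by norm_num)).1 h1
  have hue : IsEis ((starRingEnd ℂ) u) := (IsEis.of_pow_six hu).conj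
  have h1 := hmin' (e + (starRingEnd ℂ) u) (he.add hue)
  have h2 : z - (e + (starRingEnd ℂ) u) = (z - e) - (starRingEnd ℂ) u := by ring
  rw [h2, Complex.normSq_sub (z - e), Complex.normSq_conj, hus, Complex.conj_conj,
    mul_comm (z - e) u] at h1
  linarith

end Pool.Agent.H899.MK
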