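import Pool.Agent.H899.MK.Ar1

/-! The inequality in two variables. -/

set_option autoImplicit false

namespace Pool.Agent.H899.MK

open Matrix
open Pool.Agent.R895

/-- Linear independence of two vectors. -/
def Ind {n : ℕ} (v w : Fin n → ℂ) : Prop := ∀ a c : ℂ, a • v + c • w = 0 → a = 0 ∧ c = 0

/-- The inequalities which define the movable cone. -/
def Mc {n : ℕ} (K : Matrix (Fin n) (Fin n) ℂ) (b : ℝ) : Prop :=
  ∀ v w : Fin n → ℂ, IsLat v → IsLat w → Ind v w →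
    3 * b ≤ q K v + q K w + q K (v + w) + q K (v - om • w)

theorem Mc.conj {n : ℕ} {K g : Matrix (Fin n) (Fin n) ℂ} {b : ℝ} (h : Mc K b) (hg : IsGL g) :
    Mc (g * K * gᴴ) b := by
  have hq : ∀ v, q (g * K * gᴴ) v = q K (gᴴ *ᵥ v) := by
    intro v
    rw [← q_conj, conjTranspose_conjTranspose]
  intro v w hv hw hvw
  rw [hq, hq, hq, hq, mulVec_add, mulVec_sub, mulVec_smul]
  refine h _ _ (hg.conjTranspose.mulVec hv) (hg.conjTranspose.mulVec hw) fun a c hac => ?_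
  apply hvw
  by_contra hne
  apply hg.conjTranspose.mulVec_ne hne
  rw [mulVec_add, mulVec_smul, mulVec_smul, hac]

theorem Mc.tl {n : ℕ} {K : Matrix (Fin (n + 1)) (Fin (n + 1)) ℂ} {b : ℝ} (h : Mc K b) :
    Mc (tl K) b := by
  intro v w hv hw hvw
  have hc : ∀ v : Fin n → ℂ, IsLat v → IsLat (Fin.cons 0 v : Fin (n + 1) → ℂ) := by
    intro v hv i
    refine Fin.cases ?_ (fun i => ?_) i
    · exact IsEis.zero
    · exact hv i
  have h1 := h (Fin.cons 0 v) (Fin.cons 0 w) (hc v hv) (hc w hw) (by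
    intro a c hac
    refine hvw a c ?_
    ext i
    have := congrFun hac i.succ
    simpa using this)
  have e1 : (Fin.cons 0 v + Fin.cons 0 w : Fin (n + 1) → ℂ) = Fin.cons 0 (v + w) := by
    ext i
    refine Fin.cases ?_ (fun i => ?_) i
    · simp
    · simp
  have e2 : (Fin.cons 0 v - om • Fin.cons 0 w : Fin (n + 1) → ℂ) = Fin.cons 0 (v - om • w) := by
    ext i
    refine Fin.cases ?_ (fun i => ?_) i
    · simp
    · simp
  rw [e1, e2] at h1
  rw [q_tl, q_tl, q_tl, q_tl]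
  exact h1

theorem herm_apply {n : ℕ} {K : Matrix (Fin n) (Fin n) ℂ} (hK : K.IsHermitian) (i j : Fin n) :
    K i j = (starRingEnd ℂ) (K j i) := by
  have := congrFun (congrFun hK.eq i) j
  rw [conjTranspose_apply] at this
  exact this.symm

theorem q_two {K : Matrix (Fin 2) (Fin 2) ℂ} (hK : K.IsHermitian) (x y : ℂ) :
    q K ![x, y] = Complex.normSq x * (K 0 0).re + Complex.normSq y * (K 1 1).re +
      2 * (x * (starRingEnd ℂ) y * K 1 0).re := by
  have h1 := herm_apply hK 0 1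
  have h2 := congrArg Complex.im (herm_apply hK 0 0)
  have h3 := congrArg Complex.im (herm_apply hK 1 1)
  rw [Complex.conj_im] at h2 h3
  unfold q
  simp only [dotProduct, mulVec, Fin.sum_univ_two, Pi.star_apply, Matrix.cons_val_zero,
    Matrix.cons_val_one]
  rw [h1]
  have hs : ∀ z : ℂ, star z = (starRingEnd ℂ) z := fun _ => rfl
  simp only [hs, Complex.add_re, Complex.mul_re, Complex.mul_im, Complex.conj_re, Complex.conj_im,
    Complex.add_im, Complex.normSq_apply]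
  ring

theorem trace_two {T K : Matrix (Fin 2) (Fin 2) ℂ} (hT : T.IsHermitian) (hK : K.IsHermitian) :
    (T * K).trace.re = (T 0 0).re * (K 0 0).re + (T 1 1).re * (K 1 1).re +
      2 * (T 0 1 * K 1 0).re := by
  have h1 := herm_apply hT 1 0
  have h2 := herm_apply hK 0 1
  have h3 := congrArg Complex.im (herm_apply hT 0 0)
  have h4 := congrArg Complex.im (herm_apply hT 1 1)
  have h5 := congrArg Complex.im (herm_apply hK 0 0)
  have h6 := congrArg Complex.im (herm_apply hK 1 1)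
  rw [Complex.conj_im] at h3 h4 h5 h6
  have e3 : (T 0 0).im = 0 := by linarith
  have e4 : (T 1 1).im = 0 := by linarith
  rw [trace_fin_two, mul_apply, mul_apply, Fin.sum_univ_two, Fin.sum_univ_two, h1, h2]
  simp only [Complex.add_re, Complex.mul_re, Complex.conj_re, Complex.conj_im, e3, e4]
  ring

/-- The four vectors of a vertex of the hexagon. -/
theorem sum_vertex {K : Matrix (Fin 2) (Fin 2) ℂ} (hK : K.IsHermitian) {u : ℂ}
    (hu : Complex.normSq u = 1) :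
    q K ![1, 0] + q K ![0, u] + q K (![1, 0] + ![0, u]) + q K (![1, 0] - om • ![0, u]) =
      3 * (K 0 0).re + 3 * (K 1 1).re + 2 * ((starRingEnd ℂ) u * K 1 0).re -
        2 * ((starRingEnd ℂ) om * ((starRingEnd ℂ) u * K 1 0)).re := by
  have e1 : (![1, 0] + ![0, u] : Fin 2 → ℂ) = ![1, u] := by
    ext i; fin_cases i <;> simp
  have e2 : (![1, 0] - om • ![0, u] : Fin 2 → ℂ) = ![1, -(om * u)] := by
    ext i; fin_cases i <;> simp
  have h1 : Complex.normSq om = 1 := by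
    have := normSq_ab 0 1
    simpa using this
  rw [e1, e2, q_two hK, q_two hK, q_two hK, q_two hK]
  simp only [Complex.normSq_neg, hu, h1, Complex.normSq_one, map_neg, map_mul, map_zero]
  have e3 : (1 * -((starRingEnd ℂ) om * (starRingEnd ℂ) u) * K 1 0).re =
      -((starRingEnd ℂ) om * ((starRingEnd ℂ) u * K 1 0)).re := by
    rw [← Complex.neg_re]
    congr 1
    ring
  rw [e3]
  simp
  ring

theorem unit_normSq {u : ℂ} (hu : u ^ 6 = 1) : Complex.normSq u = 1 := by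
  have h1 : Complex.normSq u ^ 6 = 1 := by rw [← map_pow, hu, Complex.normSq_one]
  exact (pow_eq_one_iff_of_nonneg (Complex.normSq_nonneg u) (by norm_num)).1 h1

theorem om_six : om ^ 6 = 1 := by
  calc om ^ 6 = (om ^ 3) ^ 2 := by ring
    _ = 1 := by rw [om_cube, one_pow]

/-- The unit opposite to a sector. -/
theorem vertex_unit {K : Matrix (Fin 2) (Fin 2) ℂ} (hK : K.IsHermitian) {u₁ : ℂ} {α β : ℝ}
    (hu₁ : u₁ ^ 6 = 1) (hs : -K 1 0 = α * u₁ + β * (ze * u₁)) :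
    ∃ u : ℂ, u ^ 6 = 1 ∧
      q K ![1, 0] + q K ![0, u] + q K (![1, 0] + ![0, u]) + q K (![1, 0] - om • ![0, u]) =
        3 * (K 0 0).re + 3 * (K 1 1).re - 3 * (α + β) := by
  have hn := unit_normSq hu₁
  have hcu : (starRingEnd ℂ) u₁ * u₁ = 1 := by
    rw [← Complex.normSq_eq_conj_mul_self, hn, Complex.ofReal_one]
  have hu6 : (-(starRingEnd ℂ) om * u₁) ^ 6 = 1 := by
    rw [mul_pow, hu₁, neg_pow, ← map_pow, om_six, map_one]
    norm_num
  refine ⟨-(starRingEnd ℂ) om * u₁, hu6, ?_⟩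
  rw [sum_vertex hK (unit_normSq hu6)]
  have e1 : (starRingEnd ℂ) (-(starRingEnd ℂ) om * u₁) * K 1 0 = om * (α + β * ze) := by
    have e2 : K 1 0 = -(α * u₁ + β * (ze * u₁)) := by rw [← hs, neg_neg]
    rw [map_mul, map_neg, Complex.conj_conj, e2]
    linear_combination (om * (α + β * ze)) * hcu
  rw [e1]
  have e3 : (starRingEnd ℂ) om * (om * (α + β * ze)) = α + β * ze := by
    have h1 : (starRingEnd ℂ) om * om = 1 := by
      rw [conj_om]
      linear_combination -om_sq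
    linear_combination (α + β * ze) * h1
  rw [e3]
  have h3 := sqrt3_sq
  have hz : ze = ⟨1 / 2, √3 / 2⟩ := by
    unfold ze om
    apply Complex.ext <;> simp
    norm_num
  have hz2 : om * ze = -1 := by
    unfold ze
    linear_combination om_sq
  have e4 : (om * (α + β * ze)).re = -α / 2 - β := by
    have : om * (α + β * ze) = α * om - β := by linear_combination β * hz2
    rw [this, Complex.sub_re, Complex.re_ofReal_mul, re_om, Complex.ofReal_re]
    ring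
  have e5 : ((α : ℂ) + β * ze).re = α + β / 2 := by
    rw [Complex.add_re, Complex.re_ofReal_mul, Complex.ofReal_re, hz]
    ring
  rw [e4, e5]
  ring

/-- The minimum over the hexagon is attained at a vertex. -/
theorem vertex {K : Matrix (Fin 2) (Fin 2) ℂ} (hK : K.IsHermitian) {y : ℂ}
    (hy : ∀ u : ℂ, u ^ 6 = 1 → 2 * (u * y).re ≤ 1) :
    ∃ u : ℂ, u ^ 6 = 1 ∧
      q K ![1, 0] + q K ![0, u] + q K (![1, 0] + ![0, u]) + q K (![1, 0] - om • ![0, u]) ≤
        3 * ((K 0 0).re + (K 1 1).re + 2 * (y * K 1 0).re) := by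
  obtain ⟨u₁, α, β, hu₁, hα, hβ, hs⟩ := sector (-K 1 0)
  obtain ⟨u, hu, h1⟩ := vertex_unit hK hu₁ hs
  refine ⟨u, hu, ?_⟩
  rw [h1]
  have h2 := hy u₁ hu₁
  have h3 := hy (ze * u₁) (by rw [mul_pow, hu₁, unit_ze, one_mul])
  have h4 : (y * K 1 0).re = -(α * (u₁ * y).re + β * (ze * u₁ * y).re) := by
    have e2 : K 1 0 = -(α * u₁ + β * (ze * u₁)) := by rw [← hs, neg_neg]
    have : y * K 1 0 = -(α * (u₁ * y) + β * (ze * u₁ * y)) := by rw [e2]; ring
    rw [this, Complex.neg_re, Complex.add_re, Complex.re_ofReal_mul, Complex.re_ofReal_mul]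
  rw [h4]
  have h5 := mul_le_mul_of_nonneg_left h2 hα
  have h6 := mul_le_mul_of_nonneg_left h3 hβ
  linarith

theorem ind_two {u : ℂ} (hu : u ≠ 0) : Ind (![1, 0] : Fin 2 → ℂ) ![0, u] := by
  intro a c h
  have h0 := congrFun h 0
  have h1 := congrFun h 1
  simp at h0 h1
  exact ⟨h0, h1.resolve_right hu⟩

theorem lat_one : IsLat (![1, 0] : Fin 2 → ℂ) := by
  intro i
  fin_cases i
  · exact IsEis.one
  · exact IsEis.zero

theorem lat_unit {u : ℂ} (hu : IsEis u) : IsLat (![0, u] : Fin 2 → ℂ) := by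
  intro i
  fin_cases i
  · exact IsEis.zero
  · exact hu

theorem unit_ne {u : ℂ} (hu : u ^ 6 = 1) : u ≠ 0 := by
  rintro rfl
  norm_num at hu

/-- Reduction of a form in two variables. -/
theorem red_two {T : Matrix (Fin 2) (Fin 2) ℂ} (hT : Pd T) :
    ∃ (g : Matrix (Fin 2) (Fin 2) ℂ) (a c : ℝ) (y : ℂ), IsGL g ∧ 0 < a ∧ a ≤ c ∧
      gᴴ * T * g = !![(a : ℂ), y; (starRingEnd ℂ) y, (c : ℂ)] ∧
      (∀ v, IsLat v → v ≠ 0 → a ≤ q T v) ∧ Complex.normSq y ≤ a ^ 2 / 3 ∧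
      ∀ u : ℂ, u ^ 6 = 1 → 2 * (u * y).re ≤ a := by
  classical
  obtain ⟨x, ⟨hxL, hx0⟩, hmin⟩ := hT.exists_min (A := {v | IsLat v ∧ v ≠ 0}) (fun v hv => hv.1)
    ⟨_, isLat_single 0, single_ne 0⟩
  obtain ⟨g₁, c₁, hg₁, hc₁, hc0, hx⟩ := unimod hxL hx0
  have hmin' : ∀ v, IsLat v → v ≠ 0 → q T (g₁ *ᵥ Pi.single 0 1) ≤ q T v := by
    intro v hv hv0
    have h1 := hmin v ⟨hv, hv0⟩
    rw [hx, q_smul_vec] at h1
    have h2 := hc₁.one_le_normSq hc0
    have h3 := (hT.psd).2 (g₁ *ᵥ Pi.single 0 1)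
    nlinarith
  obtain ⟨T₁, hT₁⟩ : ∃ T₁, T₁ = g₁ᴴ * T * g₁ := ⟨_, rfl⟩
  have hT₁p : Pd T₁ := by rw [hT₁]; exact hT.conj hg₁
  obtain ⟨a, ha⟩ : ∃ a : ℝ, a = q T (g₁ *ᵥ Pi.single 0 1) := ⟨_, rfl⟩
  have ha0 : 0 < a := by rw [ha]; exact hT.2 _ (hg₁.mulVec_ne (single_ne 0))
  have hT00 : T₁ 0 0 = a := by
    have h1 : a = (T₁ 0 0).re := by
      rw [ha, ← q_conj, ← hT₁]
      unfold q
      simp [dotProduct, mulVec, Fin.sum_univ_two]
    have h2 := congrArg Complex.im (herm_apply hT₁p.1 0 0)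
    rw [Complex.conj_im] at h2
    apply Complex.ext
    · rw [← h1, Complex.ofReal_re]
    · rw [Complex.ofReal_im]; linarith
  have hac : (a : ℂ) ≠ 0 := by exact_mod_cast ha0.ne'
  obtain ⟨e, he, hn, hhex⟩ := near_hex (T₁ 0 1 / a)
  have h01 : (0 : Fin 2) ≠ 1 := by decide
  obtain ⟨g₂, hg₂d⟩ : ∃ g₂ : Matrix (Fin 2) (Fin 2) ℂ, g₂ = !![1, -e; 0, 1] := ⟨_, rfl⟩
  have hg₂ : IsGL g₂ := by
    have h1 : g₂ = transvection 0 1 (-e) := by
      rw [hg₂d]
      ext i j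
      unfold transvection
      fin_cases i <;> fin_cases j <;> simp
    rw [h1]
    exact trans_isGL h01 he.neg
  have hgg := hg₁.mul hg₂
  obtain ⟨T₂, hT₂⟩ : ∃ T₂, T₂ = (g₁ * g₂)ᴴ * T * (g₁ * g₂) := ⟨_, rfl⟩
  have hT₂p : Pd T₂ := by rw [hT₂]; exact hT.conj hgg
  have hT₂₁ : T₂ = g₂ᴴ * T₁ * g₂ := by
    rw [hT₂, hT₁, conjTranspose_mul]
    simp only [Matrix.mul_assoc]
  have hs : ∀ z : ℂ, star z = (starRingEnd ℂ) z := fun _ => rfl
  have e00 : T₂ 0 0 = a := by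
    rw [hT₂₁, hg₂d, mul_apply, Fin.sum_univ_two, mul_apply, mul_apply, Fin.sum_univ_two,
      Fin.sum_univ_two]
    simp [hT00]
  have e01 : T₂ 0 1 = a * (T₁ 0 1 / a - e) := by
    rw [hT₂₁, hg₂d, mul_apply, Fin.sum_univ_two, mul_apply, mul_apply, Fin.sum_univ_two,
      Fin.sum_univ_two]
    simp [hT00]
    field_simp
    ring
  have h11 : (T₂ 1 1).re = q T ((g₁ * g₂) *ᵥ Pi.single 1 1) := by
    rw [← q_conj, ← hT₂]
    unfold q
    simp [dotProduct, mulVec, Fin.sum_univ_two]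
  have e11 : T₂ 1 1 = ((T₂ 1 1).re : ℂ) := by
    have h2 := congrArg Complex.im (herm_apply hT₂p.1 1 1)
    rw [Complex.conj_im] at h2
    apply Complex.ext
    · rw [Complex.ofReal_re]
    · rw [Complex.ofReal_im]; linarith
  refine ⟨g₁ * g₂, a, (T₂ 1 1).re, T₂ 0 1, hgg, ha0, ?_, ?_, fun v hv hv0 => ?_, ?_, ?_⟩
  · rw [h11, ha]
    exact hmin' _ (hgg.mulVec (isLat_single 1)) (hgg.mulVec_ne (single_ne 1))
  · rw [← hT₂]
    ext i j
    fin_cases i <;> fin_cases j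
    · exact e00
    · rfl
    · exact herm_apply hT₂p.1 1 0
    · exact e11
  · rw [ha]
    exact hmin' v hv hv0
  · rw [e01, Complex.normSq_mul, Complex.normSq_ofReal]
    nlinarith [mul_le_mul_of_nonneg_left hn (mul_pos ha0 ha0).le]
  · intro u hu
    have h1 := hhex u hu
    have h2 : (u * T₂ 0 1).re = a * (u * (T₁ 0 1 / a - e)).re := by
      rw [e01]
      have : u * (a * (T₁ 0 1 / a - e)) = a * (u * (T₁ 0 1 / a - e)) := by ring
      rw [this, Complex.re_ofReal_mul]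
    rw [h2]
    nlinarith

/-- The trace does not change. -/
theorem trace_conj {n : ℕ} {g g' : Matrix (Fin n) (Fin n) ℂ} (h2 : g * g' = 1)
    (T K : Matrix (Fin n) (Fin n) ℂ) :
    (T * K).trace = ((gᴴ * T * g) * (g' * K * g'ᴴ)).trace := by
  have h4 : g'ᴴ * gᴴ = 1 := by rw [← conjTranspose_mul, h2, conjTranspose_one]
  have h5 : gᴴ * T * g * (g' * K * g'ᴴ) = gᴴ * T * (g * g') * K * g'ᴴ := by
    simp only [Matrix.mul_assoc]
  rw [h5, h2, Matrix.mul_one, trace_mul_comm (gᴴ * T * K) g'ᴴ]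
  have h6 : g'ᴴ * (gᴴ * T * K) = (g'ᴴ * gᴴ) * (T * K) := by simp only [Matrix.mul_assoc]
  rw [h6, h4, Matrix.one_mul]

/-- **The inequality in two variables.** -/
theorem two_dim {T K : Matrix (Fin 2) (Fin 2) ℂ} (hT : Pd T) (hK : Psd K) {τ b : ℝ}
    (hτ : 0 ≤ τ) (hTm : ∀ v, IsLat v → v ≠ 0 → τ ≤ q T v) (hb : Mc K b) :
    τ * b ≤ (T * K).trace.re := by
  obtain ⟨g, a, c, y, hg, ha, hac, hgT, hmin, -, hhex⟩ := red_two hT
  obtain ⟨g', h1, h2, h3⟩ := hg.inv
  have hg' : IsGL g' := ⟨h1, g, hg.ent, h3, h2⟩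
  obtain ⟨K₁, hK₁⟩ : ∃ K₁, K₁ = g' * K * g'ᴴ := ⟨_, rfl⟩
  have hK₁p : Psd K₁ := by
    have hq : ∀ v, q (g' * K * g'ᴴ) v = q K (g'ᴴ *ᵥ v) := by
      intro v
      rw [← q_conj, conjTranspose_conjTranspose]
    refine ⟨?_, fun v => ?_⟩
    · rw [hK₁]
      have := herm_conj hK.1 g'ᴴ
      rwa [conjTranspose_conjTranspose] at this
    · rw [hK₁, hq]
      exact hK.2 _
  have hM : Mc K₁ b := by rw [hK₁]; exact hb.conj hg'
  have htr : (T * K).trace = ((gᴴ * T * g) * K₁).trace := by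
    rw [hK₁]
    exact trace_conj h2 T K
  have hTh : (gᴴ * T * g).IsHermitian := herm_conj hT.1 g
  rw [htr, trace_two hTh hK₁p.1, hgT]
  simp only [Matrix.of_apply, Matrix.cons_val', Matrix.cons_val_zero, Matrix.cons_val_one,
    Matrix.cons_val_fin_one, Complex.ofReal_re]
  have hac' : (a : ℂ) ≠ 0 := by exact_mod_cast ha.ne'
  obtain ⟨u, hu, h4⟩ := vertex hK₁p.1 (y := y / a) (by
    intro u hu
    have h5 := hhex u hu
    have h6 : (u * (y / a)).re = (u * y).re / a := by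
      have : u * (y / a) = ((1 / a : ℝ) : ℂ) * (u * y) := by push_cast; field_simp
      rw [this, Complex.re_ofReal_mul]
      ring
    rw [h6, mul_div_assoc', div_le_one ha]
    exact h5)
  have h5 := hM _ _ lat_one (lat_unit (IsEis.of_pow_six hu)) (ind_two (unit_ne hu))
  have h6 : (y / a * K₁ 1 0).re = (y * K₁ 1 0).re / a := by
    have : y / a * K₁ 1 0 = ((1 / a : ℝ) : ℂ) * (y * K₁ 1 0) := by push_cast; field_simp
    rw [this, Complex.re_ofReal_mul]
    ring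
  rw [h6] at h4
  have h7 : 0 ≤ q K₁ ![1, 0] + q K₁ ![0, u] + q K₁ (![1, 0] + ![0, u]) +
      q K₁ (![1, 0] - om • ![0, u]) := by
    have := hK₁p.2 ![1, 0]
    have := hK₁p.2 ![0, u]
    have := hK₁p.2 (![1, 0] + ![0, u])
    have := hK₁p.2 (![1, 0] - om • ![0, u])
    linarith
  have h8 : 0 ≤ (K₁ 1 1).re := by
    have := hK₁p.2 ![0, 1]
    rw [q_two hK₁p.1] at this
    simpa using this
  have h9 : τ ≤ a := by
    have h10 : a = q T (g *ᵥ ![1, 0]) := by
      rw [← q_conj, q_two hTh, hgT]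
      simp
    rw [h10]
    refine hTm _ (hg.mulVec lat_one) (hg.mulVec_ne fun h => ?_)
    have := congrFun h 0
    simp at this
  obtain ⟨S', hS⟩ : ∃ s, s = q K₁ ![1, 0] + q K₁ ![0, u] + q K₁ (![1, 0] + ![0, u]) +
      q K₁ (![1, 0] - om • ![0, u]) := ⟨_, rfl⟩
  rw [← hS] at h4 h5 h7
  have e1 : a * (K₁ 0 0).re + c * (K₁ 1 1).re + 2 * (y * K₁ 1 0).re =
      a * ((K₁ 0 0).re + (K₁ 1 1).re + 2 * ((y * K₁ 1 0).re / a)) + (c - a) * (K₁ 1 1).re := by
    field_simp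
    ring
  rw [e1]
  have e2 : a * (S' / 3) ≤ a * ((K₁ 0 0).re + (K₁ 1 1).re + 2 * ((y * K₁ 1 0).re / a)) :=
    mul_le_mul_of_nonneg_left (by linarith) ha.le
  have e3 : τ * (S' / 3) ≤ a * (S' / 3) := mul_le_mul_of_nonneg_right h9 (by linarith)
  have e4 : τ * b ≤ τ * (S' / 3) := mul_le_mul_of_nonneg_left (by linarith) hτ
  have e5 : 0 ≤ (c - a) * (K₁ 1 1).re := mul_nonneg (by linarith) h8
  linarith

end Pool.Agent.H899.MK
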