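import Pool.Agent.H899.MK.Ar2

/-! Minimisation of linear functionals over forms which are bounded below on the lattice. -/

set_option autoImplicit false

namespace Pool.Agent.H899.MK

open Matrix Filter Topology
open Pool.Agent.R895

variable {n : ℕ}

theorem dot_symm {M : Matrix (Fin n) (Fin n) ℂ} (hM : M.IsHermitian) (x y : Fin n → ℂ) :
    star x ⬝ᵥ (M *ᵥ y) = star (star y ⬝ᵥ (M *ᵥ x)) := by
  have h1 : star (star y ⬝ᵥ (M *ᵥ x)) = star (M *ᵥ x) ⬝ᵥ y := by
    rw [star_dotProduct, dotProduct_comm, star_star]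
  rw [h1, star_mulVec, hM.eq, dotProduct_mulVec]

theorem q_add_vec {M : Matrix (Fin n) (Fin n) ℂ} (hM : M.IsHermitian) (x y : Fin n → ℂ) :
    q M (x + y) = q M x + q M y + 2 * (star y ⬝ᵥ (M *ᵥ x)).re := by
  have h1 := congrArg Complex.re (dot_symm hM x y)
  have h2 : (star (star y ⬝ᵥ (M *ᵥ x))).re = (star y ⬝ᵥ (M *ᵥ x)).re := rfl
  rw [h2] at h1
  unfold q
  rw [mulVec_add, star_add, add_dotProduct, dotProduct_add, dotProduct_add, Complex.add_re,
    Complex.add_re, Complex.add_re, h1]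
  ring

/-- The radical of a positive semidefinite form. -/
theorem ker_of_zero {M : Matrix (Fin n) (Fin n) ℂ} (hM : Psd M) {x : Fin n → ℂ}
    (h : q M x = 0) : M *ᵥ x = 0 := by
  obtain ⟨z, hz⟩ : ∃ z, z = M *ᵥ x := ⟨_, rfl⟩
  rw [← hz]
  have h1 : ∀ t : ℝ, 0 < t → 2 * (star z ⬝ᵥ z).re ≤ t * q M z := by
    intro t ht
    have h2 := hM.2 (x + ((-t : ℝ) : ℂ) • z)
    rw [q_add_vec hM.1, h, q_smul_vec, Complex.normSq_ofReal, star_smul, smul_dotProduct, ← hz,
      smul_eq_mul] at h2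
    have h3 : (star (((-t : ℝ) : ℂ)) * (star z ⬝ᵥ z)).re = -t * (star z ⬝ᵥ z).re := by
      have : star (((-t : ℝ) : ℂ)) = ((-t : ℝ) : ℂ) := Complex.conj_ofReal _
      rw [this, Complex.re_ofReal_mul]
    rw [h3] at h2
    have h4 : t * (2 * (star z ⬝ᵥ z).re) ≤ t * (t * q M z) := by nlinarith
    exact le_of_mul_le_mul_left h4 ht
  have h2 : (star z ⬝ᵥ z).re ≤ 0 := by
    by_contra hcon
    push Not at hcon
    have h3 := h1 ((star z ⬝ᵥ z).re / (|q M z| + 1)) (by positivity)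
    have h4 : (star z ⬝ᵥ z).re / (|q M z| + 1) * q M z ≤ (star z ⬝ᵥ z).re := by
      rw [div_mul_eq_mul_div, div_le_iff₀ (by positivity)]
      have := le_abs_self (q M z)
      nlinarith
    linarith
  have h3 : (star z ⬝ᵥ z).re = ∑ i, Complex.normSq (z i) := by
    rw [dotProduct, Complex.re_sum]
    refine Finset.sum_congr rfl fun i _ => ?_
    rw [Pi.star_apply]
    have : star (z i) * z i = ((Complex.normSq (z i) : ℝ) : ℂ) :=
      Complex.normSq_eq_conj_mul_self.symm
    rw [this, Complex.ofReal_re]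
  rw [h3] at h2
  ext i
  have h4 := (Finset.sum_eq_zero_iff_of_nonneg fun i _ => Complex.normSq_nonneg (z i)).1
    (le_antisymm h2 (Finset.sum_nonneg fun i _ => Complex.normSq_nonneg _)) i (Finset.mem_univ i)
  exact Complex.normSq_eq_zero.1 h4

theorem pd_of_det {M : Matrix (Fin n) (Fin n) ℂ} (hM : Psd M) (h : M.det ≠ 0) : Pd M := by
  refine ⟨hM.1, fun x hx => lt_of_le_of_ne (hM.2 x) fun h0 => h ?_⟩
  exact exists_mulVec_eq_zero_iff.1 ⟨x, hx, ker_of_zero hM h0.symm⟩

/-- A positive semidefinite form which is bounded below on the lattice is positive definite. -/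
theorem pd_of_lat {M : Matrix (Fin n) (Fin n) ℂ} (hM : Psd M) {h : ℝ} (hh : 0 < h)
    (hmin : ∀ v, IsLat v → v ≠ 0 → h ≤ q M v) : Pd M := by
  obtain ⟨C, hC⟩ : ∃ C : ℝ, C = ∏ i : Fin n, ((2 / 3 : ℝ) ^ (i : ℕ) * h) := ⟨_, rfl⟩
  have hC0 : 0 < C := by rw [hC]; positivity
  have hbd : ∀ k : ℕ, C ≤ (M + ((1 / ((k : ℝ) + 1) : ℝ) : ℂ) • 1).det.re := by
    intro k
    obtain ⟨h1, h2⟩ := hM.add_one (ε := 1 / ((k : ℝ) + 1)) (by positivity)
    obtain ⟨d, hd, -, h3⟩ := h1.hermite hh (fun w hw hw0 => by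
      rw [h2]
      have h4 := hmin w hw hw0
      have h5 : 0 ≤ ∑ i, Complex.normSq (w i) :=
        Finset.sum_nonneg fun i _ => Complex.normSq_nonneg _
      have h6 : 0 ≤ 1 / ((k : ℝ) + 1) * ∑ i, Complex.normSq (w i) := by positivity
      linarith)
    rw [hd, Complex.ofReal_re, hC]
    exact h3
  have hcont : Continuous fun t : ℝ => (M + (t : ℂ) • (1 : Matrix (Fin n) (Fin n) ℂ)).det.re := by
    refine Complex.continuous_re.comp (Continuous.matrix_det ?_)
    exact continuous_const.add (Complex.continuous_ofReal.smul continuous_const)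
  have hlim : Tendsto (fun k : ℕ => (M + ((1 / ((k : ℝ) + 1) : ℝ) : ℂ) • 1).det.re) atTop
      (𝓝 M.det.re) := by
    have h1 := (hcont.tendsto 0).comp (tendsto_one_div_add_atTop_nhds_zero_nat (𝕜 := ℝ))
    simp only [Complex.ofReal_zero, zero_smul, add_zero] at h1
    exact h1
  have h1 : C ≤ M.det.re := ge_of_tendsto' hlim hbd
  refine pd_of_det hM fun h0 => ?_
  rw [h0, Complex.zero_re] at h1
  linarith

/-- The positive semidefinite forms which are bounded below by `β` on the lattice. -/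
def PP (β : (Fin n → ℂ) → ℝ) : Set (Matrix (Fin n) (Fin n) ℂ) :=
  {M | Psd M ∧ ∀ v, IsLat v → v ≠ 0 → β v ≤ q M v}

theorem abs_q_le (D : Matrix (Fin n) (Fin n) ℂ) (x : Fin n → ℂ) :
    |q D x| ≤ (∑ i, ∑ j, ‖D i j‖) * ‖x‖ ^ 2 := by
  unfold q
  refine (Complex.abs_re_le_norm _).trans ?_
  rw [dotProduct, Finset.sum_mul]
  refine (norm_sum_le _ _).trans (Finset.sum_le_sum fun i _ => ?_)
  rw [norm_mul, mulVec, dotProduct, Finset.sum_mul, Pi.star_apply, norm_star]
  have h1 : ‖∑ j, D i j * x j‖ ≤ ∑ j, ‖D i j‖ * ‖x‖ := by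
    refine (norm_sum_le _ _).trans (Finset.sum_le_sum fun j _ => ?_)
    rw [norm_mul]
    exact mul_le_mul_of_nonneg_left (norm_le_pi_norm x j) (norm_nonneg _)
  have h2 : ‖x i‖ * ‖∑ j, D i j * x j‖ ≤ ‖x‖ * ∑ j, ‖D i j‖ * ‖x‖ :=
    mul_le_mul (norm_le_pi_norm x i) h1 (norm_nonneg _) (norm_nonneg _)
  refine h2.trans (le_of_eq ?_)
  rw [Finset.mul_sum]
  exact Finset.sum_congr rfl fun j _ => by ring

/-- **The first order condition.** -/
theorem first_order {β : (Fin n → ℂ) → ℝ} {h : ℝ} (hh : 0 < h) (hβ0 : ∀ v, h ≤ β v)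
    (hβ1 : ∀ v, β v ≤ 1) {H M : Matrix (Fin n) (Fin n) ℂ} (hM : M ∈ PP β)
    (hmin : ∀ N ∈ PP β, (M * H).trace.re ≤ (N * H).trace.re) {D : Matrix (Fin n) (Fin n) ℂ}
    (hD : D.IsHermitian) (hact : ∀ v, IsLat v → v ≠ 0 → q M v = β v → 0 ≤ q D v) :
    0 ≤ (D * H).trace.re := by
  classical
  have hpd := pd_of_lat hM.1 hh fun v hv hv0 => (hβ0 v).trans (hM.2 v hv hv0)
  obtain ⟨c, hc, hlow⟩ := hpd.lower
  obtain ⟨C, hCdef⟩ : ∃ C : ℝ, C = (∑ i, ∑ j, ‖D i j‖) / c + 1 := ⟨_, rfl⟩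
  have hC0 : 0 < C := by
    rw [hCdef]
    have : 0 ≤ (∑ i, ∑ j, ‖D i j‖) / c :=
      div_nonneg (Finset.sum_nonneg fun i _ => Finset.sum_nonneg fun j _ => norm_nonneg _) hc.le
    linarith
  have hDC : ∀ x, -(C * q M x) ≤ q D x := by
    intro x
    have h1 := abs_q_le D x
    have h2 : (∑ i, ∑ j, ‖D i j‖) * ‖x‖ ^ 2 ≤ C * q M x := by
      have h3 : 0 ≤ ∑ i, ∑ j, ‖D i j‖ :=
        Finset.sum_nonneg fun i _ => Finset.sum_nonneg fun j _ => norm_nonneg _
      have h4 := mul_le_mul_of_nonneg_left (hlow x) (div_nonneg h3 hc.le)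
      have h5 : (∑ i, ∑ j, ‖D i j‖) / c * (c * ‖x‖ ^ 2) = (∑ i, ∑ j, ‖D i j‖) * ‖x‖ ^ 2 := by
        field_simp
      rw [h5] at h4
      rw [hCdef]
      have := hpd.psd.2 x
      linarith
    have h3 := neg_abs_le (q D x)
    linarith
  -- the finitely many relevant lattice vectors
  have hS : {v : Fin n → ℂ | IsLat v ∧ q M v ≤ 2}.Finite := by
    refine (finite_lat (2 / c)).subset ?_
    rintro x ⟨h1, h2⟩
    refine ⟨h1, ?_⟩
    rw [le_div_iff₀ hc, mul_comm]
    exact (hlow x).trans h2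
  obtain ⟨s, hs0, hs1, hs2⟩ : ∃ s : ℝ, 0 < s ∧ s * C ≤ 1 / 2 ∧ ∀ v, IsLat v → q M v ≤ 2 →
      β v < q M v → 2 * (s * C) ≤ q M v - β v := by
    obtain ⟨T, hT⟩ : ∃ T : Finset ℝ, T = insert (1 / 2) ((hS.toFinset.filter fun v =>
      β v < q M v).image fun v => (q M v - β v) / 2) := ⟨_, rfl⟩
    have hne : T.Nonempty := by rw [hT]; exact Finset.insert_nonempty _ _
    refine ⟨T.min' hne / C, ?_, ?_, fun v hv hv2 hvβ => ?_⟩
    · refine div_pos ?_ hC0
      have h1 := T.min'_mem hne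
      generalize T.min' hne = m at h1
      rw [hT, Finset.mem_insert, Finset.mem_image] at h1
      rcases h1 with h1 | ⟨v, hv, h1⟩
      · rw [h1]; norm_num
      · rw [← h1]
        have := (Finset.mem_filter.1 hv).2
        linarith
    · rw [div_mul_cancel₀ _ hC0.ne']
      exact T.min'_le _ (by rw [hT]; exact Finset.mem_insert_self _ _)
    · rw [div_mul_cancel₀ _ hC0.ne']
      have : T.min' hne ≤ (q M v - β v) / 2 := T.min'_le _ (by
        rw [hT]
        refine Finset.mem_insert_of_mem (Finset.mem_image.2 ⟨v, Finset.mem_filter.2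
          ⟨hS.mem_toFinset.2 ⟨hv, hv2⟩, hvβ⟩, rfl⟩))
      linarith
  have hq : ∀ x, q (M + (s : ℂ) • D) x = q M x + s * q D x := fun x => by rw [q_add, q_smul]
  have hlo : ∀ x, q M x - s * C * q M x ≤ q (M + (s : ℂ) • D) x := by
    intro x
    rw [hq]
    have := mul_le_mul_of_nonneg_left (hDC x) hs0.le
    linarith
  have hN : M + (s : ℂ) • D ∈ PP β := by
    refine ⟨⟨hM.1.1.add ?_, fun x => ?_⟩, fun v hv hv0 => ?_⟩
    · unfold IsHermitian
      rw [conjTranspose_smul, hD.eq]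
      congr 1
      exact Complex.conj_ofReal s
    · have h1 := hlo x
      have h2 := hM.1.2 x
      nlinarith
    · rcases le_or_gt (q M v) 2 with h1 | h1
      · have h2 := hM.2 v hv hv0
        rcases h2.eq_or_lt with h3 | h3
        · rw [hq]
          have := mul_nonneg hs0.le (hact v hv hv0 h3.symm)
          linarith
        · have h4 := hs2 v hv h1 h3
          have h5 := hlo v
          have h6 : s * C * q M v ≤ s * C * 2 :=
            mul_le_mul_of_nonneg_left h1 (mul_pos hs0 hC0).le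
          linarith
      · have h5 := hlo v
        have h6 := hβ1 v
        nlinarith
  have h1 := hmin _ hN
  rw [Matrix.add_mul, trace_add, Complex.add_re, Matrix.smul_mul, trace_smul, smul_eq_mul,
    Complex.re_ofReal_mul] at h1
  have h2 : 0 ≤ s * (D * H).trace.re := by linarith
  by_contra hcon
  push Not at hcon
  have := mul_neg_of_pos_of_neg hs0 hcon
  linarith

theorem entry_le {M : Matrix (Fin n) (Fin n) ℂ} (hM : Psd M) (i j : Fin n) :
    ‖M j i‖ ≤ ∑ k, (M k k).re := by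
  have hs : ∀ k : Fin n, q M (Pi.single k 1) = (M k k).re := by
    intro k
    unfold q
    rw [mulVec_single_one, Pi.star_single, star_one, single_one_dotProduct]
    rfl
  have hd : ∀ k, 0 ≤ (M k k).re := fun k => by rw [← hs]; exact hM.2 _
  have hle : ∀ k, (M k k).re ≤ ∑ k, (M k k).re := fun k =>
    Finset.single_le_sum (fun k _ => hd k) (Finset.mem_univ k)
  obtain ⟨u, hu1, hu2⟩ : ∃ u : ℂ, Complex.normSq u = 1 ∧ star u * M j i = -((‖M j i‖ : ℝ) : ℂ) := by
    by_cases h0 : M j i = 0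
    · exact ⟨1, by simp, by rw [h0]; simp⟩
    · have hn : ‖M j i‖ ≠ 0 := norm_ne_zero_iff.2 h0
      refine ⟨-(M j i / ‖M j i‖), ?_, ?_⟩
      · rw [Complex.normSq_neg, Complex.normSq_div, Complex.normSq_ofReal,
          Complex.normSq_eq_norm_sq]
        field_simp
      · have h1 : star (-(M j i / (‖M j i‖ : ℂ))) = -((starRingEnd ℂ) (M j i) / ‖M j i‖) := by
          change (starRingEnd ℂ) _ = _
          rw [map_neg, map_div₀, Complex.conj_ofReal]
        rw [h1]
        have h2 : (starRingEnd ℂ) (M j i) * M j i = ((‖M j i‖ ^ 2 : ℝ) : ℂ) := by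
          rw [← Complex.normSq_eq_conj_mul_self, Complex.normSq_eq_norm_sq]
        have h3 : ((‖M j i‖ : ℝ) : ℂ) ≠ 0 := by exact_mod_cast hn
        have h4 : -((starRingEnd ℂ) (M j i) / (‖M j i‖ : ℂ)) * M j i =
            -(((starRingEnd ℂ) (M j i) * M j i) / ‖M j i‖) := by ring
        rw [h4, h2]
        push_cast
        field_simp
  have h1 := hM.2 (Pi.single i 1 + u • Pi.single j 1)
  rw [q_add_vec hM.1, q_smul_vec, hs, hs, hu1, star_smul, smul_dotProduct, Pi.star_single,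
    star_one, single_one_dotProduct, mulVec_single_one, Matrix.col_apply, smul_eq_mul, hu2,
    Complex.neg_re, Complex.ofReal_re] at h1
  have := hle i
  have := hle j
  linarith

/-- The minimum is attained. -/
theorem exists_minimizer {β : (Fin n → ℂ) → ℝ} (hβ1 : ∀ v, β v ≤ 1)
    {H : Matrix (Fin n) (Fin n) ℂ} (hH : Pd H) :
    ∃ M ∈ PP β, ∀ N ∈ PP β, (M * H).trace.re ≤ (N * H).trace.re := by
  classical
  -- the trace bound
  obtain ⟨c, hc, hlow⟩ := hH.lower
  obtain ⟨c', hc', hpd⟩ : ∃ c' : ℝ, 0 < c' ∧ Pd (H - (c' : ℂ) • 1) := by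
    refine ⟨c / (n + 1), by positivity, ⟨?_, fun x hx => ?_⟩⟩
    · refine hH.1.sub ?_
      unfold IsHermitian
      rw [conjTranspose_smul, conjTranspose_one]
      congr 1
      exact Complex.conj_ofReal _
    · rw [q_sub_one]
      have h1 := hlow x
      have h2 : ∑ i, Complex.normSq (x i) ≤ n * ‖x‖ ^ 2 := by
        have h3 : ∀ i ∈ (Finset.univ : Finset (Fin n)), Complex.normSq (x i) ≤ ‖x‖ ^ 2 := by
          intro i _
          rw [Complex.normSq_eq_norm_sq]
          exact pow_le_pow_left₀ (norm_nonneg _) (norm_le_pi_norm x i) 2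
        refine (Finset.sum_le_sum h3).trans (le_of_eq ?_)
        rw [Finset.sum_const, Finset.card_univ, Fintype.card_fin, nsmul_eq_mul]
      have h3 : c / (n + 1) * ∑ i, Complex.normSq (x i) ≤ c / (n + 1) * (n * ‖x‖ ^ 2) :=
        mul_le_mul_of_nonneg_left h2 (by positivity)
      have h4 : c / ((n : ℝ) + 1) * (n * ‖x‖ ^ 2) < c * ‖x‖ ^ 2 := by
        have h5 : 0 < ‖x‖ := norm_pos_iff.2 hx
        have h6 : c / ((n : ℝ) + 1) * (n * ‖x‖ ^ 2) = c * ‖x‖ ^ 2 * (n / (n + 1)) := by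
          field_simp
        rw [h6]
        have h7 : (n : ℝ) / (n + 1) < 1 := by
          rw [div_lt_one (by positivity)]; linarith
        have h8 : 0 < c * ‖x‖ ^ 2 := by positivity
        nlinarith
      linarith
  have htr : ∀ M : Matrix (Fin n) (Fin n) ℂ, Psd M →
      c' * ∑ k, (M k k).re ≤ (M * H).trace.re := by
    intro M hM
    have h1 := trace_nonneg hM hpd
    rw [Matrix.mul_sub, trace_sub, Complex.sub_re, Matrix.mul_smul, Matrix.mul_one, trace_smul,
      smul_eq_mul, Complex.re_ofReal_mul] at h1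
    have h2 : M.trace.re = ∑ k, (M k k).re := by
      rw [Matrix.trace, Complex.re_sum]
      rfl
    rw [h2] at h1
    linarith
  have hf : Continuous fun M : Matrix (Fin n) (Fin n) ℂ => (M * H).trace.re :=
    Complex.continuous_re.comp ((continuous_id.matrix_mul continuous_const).matrix_trace)
  have hqc : ∀ x : Fin n → ℂ, Continuous fun M : Matrix (Fin n) (Fin n) ℂ => q M x := by
    intro x
    unfold q
    refine Complex.continuous_re.comp ?_
    exact Continuous.dotProduct continuous_const (continuous_id.matrix_mulVec continuous_const)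
  have hcl : IsClosed (PP β ∩ {M | (M * H).trace.re ≤ ((1 : Matrix (Fin n) (Fin n) ℂ) *
      H).trace.re}) := by
    refine IsClosed.inter ?_ (isClosed_le hf continuous_const)
    have h1 : PP β = {M | Mᴴ = M} ∩ (⋂ x, {M | 0 ≤ q M x}) ∩
        (⋂ v, ⋂ (_ : IsLat v), ⋂ (_ : v ≠ 0), {M | β v ≤ q M v}) := by
      ext M
      simp only [PP, Psd, IsHermitian, Set.mem_ofPred_eq, Set.mem_inter_iff, Set.mem_iInter]
    rw [h1]
    refine IsClosed.inter (IsClosed.inter (isClosed_eq continuous_id.matrix_conjTranspose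
      continuous_id) ?_) ?_
    · exact isClosed_iInter fun x => isClosed_le continuous_const (hqc x)
    · exact isClosed_iInter fun v => isClosed_iInter fun _ => isClosed_iInter fun _ =>
        isClosed_le continuous_const (hqc v)
  obtain ⟨B, hB⟩ : ∃ B : ℝ, B = ((1 : Matrix (Fin n) (Fin n) ℂ) * H).trace.re / c' := ⟨_, rfl⟩
  have hK : IsCompact (Set.pi Set.univ fun _ : Fin n => Set.pi Set.univ fun _ : Fin n =>
      Metric.closedBall (0 : ℂ) B) :=
    isCompact_univ_pi fun _ => isCompact_univ_pi fun _ => isCompact_closedBall _ _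
  have hsub : (PP β ∩ {M | (M * H).trace.re ≤ ((1 : Matrix (Fin n) (Fin n) ℂ) * H).trace.re}) ⊆
      (Set.pi Set.univ fun _ : Fin n => Set.pi Set.univ fun _ : Fin n =>
      Metric.closedBall (0 : ℂ) B) := by
    rintro M ⟨hM, hM2⟩ i _ j _
    rw [mem_closedBall_zero_iff]
    refine (entry_le hM.1 j i).trans ?_
    rw [hB, le_div_iff₀ hc', mul_comm]
    exact (htr M hM.1).trans hM2
  have hcomp := hK.of_isClosed_subset hcl hsub
  have h1mem : (1 : Matrix (Fin n) (Fin n) ℂ) ∈ PP β ∩ {M | (M * H).trace.re ≤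
      ((1 : Matrix (Fin n) (Fin n) ℂ) * H).trace.re} := by
    refine ⟨⟨pd_one.psd, fun v hv hv0 => (hβ1 v).trans ?_⟩, le_refl (α := ℝ) _⟩
    rw [q_one]
    obtain ⟨i, hi⟩ : ∃ i, v i ≠ 0 := by
      by_contra hcon
      push Not at hcon
      exact hv0 (funext hcon)
    exact ((hv i).one_le_normSq hi).trans (Finset.single_le_sum
      (f := fun i => Complex.normSq (v i)) (fun i _ => Complex.normSq_nonneg _)
      (Finset.mem_univ i))
  obtain ⟨M, ⟨hM, hM2⟩, hmin⟩ := hcomp.exists_isMinOn ⟨_, h1mem⟩ hf.continuousOn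
  refine ⟨M, hM, fun N hN => ?_⟩
  rcases le_total (N * H).trace.re ((1 : Matrix (Fin n) (Fin n) ℂ) * H).trace.re with h1 | h1
  · exact hmin ⟨hN, h1⟩
  · exact le_trans hM2 h1

end Pool.Agent.H899.MK
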