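import Pool.Agent.H899.MK.Ar3

/-! The lattice vectors of small length of a form in two variables. -/

set_option autoImplicit false

namespace Pool.Agent.H899.MK

open Matrix Filter Topology
open Pool.Agent.R895

/-- The Eisenstein integers of norm less than three. -/
theorem unit_cases {z : ℂ} (hz : IsEis z) (h0 : z ≠ 0) (h : Complex.normSq z < 9 / 4) :
    z = 1 ∨ z = -1 ∨ z = om ∨ z = -om ∨ z = ze ∨ z = -ze := by
  obtain ⟨a, b, rfl⟩ := hz
  have h1 := normSq_ab (a : ℝ) (b : ℝ)
  push_cast at h1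
  rw [h1] at h
  have ha : (a : ℝ) ^ 2 < 4 := by nlinarith [sq_nonneg ((a : ℝ) - 2 * b)]
  have hb : (b : ℝ) ^ 2 < 4 := by nlinarith [sq_nonneg (2 * (a : ℝ) - b)]
  have ha1 : a ^ 2 < 4 := by exact_mod_cast ha
  have hb1 : b ^ 2 < 4 := by exact_mod_cast hb
  have ha2 : a < 2 := by nlinarith
  have ha3 : -2 < a := by nlinarith
  have hb2 : b < 2 := by nlinarith
  have hb3 : -2 < b := by nlinarith
  unfold ze
  interval_cases a <;> interval_cases b
  · right; right; right; right; right; push_cast; ring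
  · right; left; push_cast; ring
  · exfalso; norm_num at h
  · right; right; right; left; push_cast; ring
  · exfalso; apply h0; push_cast; ring
  · right; right; left; push_cast; ring
  · exfalso; norm_num at h
  · left; push_cast; ring
  · right; right; right; right; left; push_cast; ring

theorem re_ze : ze.re = 1 / 2 := by
  unfold ze
  rw [Complex.add_re, Complex.one_re, re_om]
  norm_num

theorem im_ze : ze.im = √3 / 2 := by
  unfold ze
  rw [Complex.add_im, Complex.one_im, im_om]
  norm_num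

theorem normSq_ze : Complex.normSq ze = 1 := unit_normSq unit_ze

theorem normSq_om : Complex.normSq om = 1 := unit_normSq om_six

theorem vec_two (z : Fin 2 → ℂ) : z = ![z 0, z 1] := by
  ext i; fin_cases i <;> rfl

theorem q_fin_two {a c : ℝ} {y : ℂ} (z : Fin 2 → ℂ) :
    q !![(a : ℂ), y; (starRingEnd ℂ) y, (c : ℂ)] z = a * Complex.normSq (z 0) +
      c * Complex.normSq (z 1) + 2 * (y * ((starRingEnd ℂ) (z 0) * z 1)).re := by
  have hh : (!![(a : ℂ), y; (starRingEnd ℂ) y, (c : ℂ)]).IsHermitian := by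
    unfold IsHermitian
    ext i j
    have hs : ∀ z : ℂ, star z = (starRingEnd ℂ) z := fun _ => rfl
    fin_cases i <;> fin_cases j <;> simp [conjTranspose_apply]
  rw [vec_two z, q_two hh]
  simp only [Matrix.of_apply, Matrix.cons_val', Matrix.cons_val_zero, Matrix.cons_val_one,
    Matrix.cons_val_fin_one, Complex.ofReal_re]
  have h1 : (z 0 * (starRingEnd ℂ) (z 1) * (starRingEnd ℂ) y).re =
      (y * ((starRingEnd ℂ) (z 0) * z 1)).re := by
    rw [← Complex.conj_re (y * ((starRingEnd ℂ) (z 0) * z 1))]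
    congr 1
    rw [map_mul, map_mul, Complex.conj_conj]
    ring
  rw [h1]
  ring

/-- The sum of the squares of the four linear functions. -/
theorem sum_four {u : ℂ} (hu : Complex.normSq u = 1) (z : Fin 2 → ℂ) :
    Complex.normSq (star ![1, 0] ⬝ᵥ z) + Complex.normSq (star ![0, u] ⬝ᵥ z) +
      Complex.normSq (star (![1, 0] + ![0, u]) ⬝ᵥ z) +
      Complex.normSq (star (![1, 0] - om • ![0, u]) ⬝ᵥ z) =
    3 * Complex.normSq (z 0) + 3 * Complex.normSq (z 1) +
      2 * ((starRingEnd ℂ) u * ((starRingEnd ℂ) (z 0) * z 1) * (1 - (starRingEnd ℂ) om)).re := by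
  have e1 : (![1, 0] + ![0, u] : Fin 2 → ℂ) = ![1, u] := by
    ext i; fin_cases i <;> simp
  have e2 : (![1, 0] - om • ![0, u] : Fin 2 → ℂ) = ![1, -(om * u)] := by
    ext i; fin_cases i <;> simp
  have hs : ∀ z : ℂ, star z = (starRingEnd ℂ) z := fun _ => rfl
  rw [e1, e2]
  simp only [dotProduct, Fin.sum_univ_two, Pi.star_apply, Matrix.cons_val_zero,
    Matrix.cons_val_one, hs, map_one, map_zero, one_mul, zero_mul, add_zero, zero_add,
    Complex.normSq_mul, Complex.normSq_conj, hu]
  have h1 : ∀ x w : ℂ, Complex.normSq (x + w) = Complex.normSq x + Complex.normSq w +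
      2 * ((starRingEnd ℂ) x * w).re := by
    intro x w
    rw [Complex.normSq_add]
    congr 2
    rw [← Complex.conj_re, map_mul, Complex.conj_conj]
  rw [h1, h1]
  simp only [map_neg, map_mul, Complex.normSq_mul, Complex.normSq_neg, Complex.normSq_conj, hu,
    normSq_om]
  have e3 : ((starRingEnd ℂ) (z 0) * ((starRingEnd ℂ) u * z 1)).re -
      ((starRingEnd ℂ) (z 0) * ((starRingEnd ℂ) om * (starRingEnd ℂ) u * z 1)).re =
      ((starRingEnd ℂ) u * ((starRingEnd ℂ) (z 0) * z 1) * (1 - (starRingEnd ℂ) om)).re := by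
    rw [← Complex.sub_re]
    congr 1
    ring
  have e4 : ((starRingEnd ℂ) (z 0) * (-((starRingEnd ℂ) om * (starRingEnd ℂ) u) * z 1)).re =
      -((starRingEnd ℂ) (z 0) * ((starRingEnd ℂ) om * (starRingEnd ℂ) u * z 1)).re := by
    rw [← Complex.neg_re]
    congr 1
    ring
  rw [e4, ← e3]
  ring

/-- The vectors of length at most one, if the minimum is greater than `2 / 3`. -/
theorem four_red {a c : ℝ} {y : ℂ} (ha : 2 / 3 < a) (hac : a ≤ c)
    (hy : Complex.normSq y ≤ a ^ 2 / 3) (hhex : ∀ u : ℂ, u ^ 6 = 1 → 2 * (u * y).re ≤ a) :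
    ∃ u : ℂ, u ^ 6 = 1 ∧ ∀ z : Fin 2 → ℂ, IsLat z → z ≠ 0 →
      q !![(a : ℂ), y; (starRingEnd ℂ) y, (c : ℂ)] z ≤ 1 →
      Complex.normSq (star ![1, 0] ⬝ᵥ z) + Complex.normSq (star ![0, u] ⬝ᵥ z) +
      Complex.normSq (star (![1, 0] + ![0, u]) ⬝ᵥ z) +
      Complex.normSq (star (![1, 0] - om • ![0, u]) ⬝ᵥ z) ≤ 3 := by
  obtain ⟨u₁, α, β, hu₁, hα, hβ, hs⟩ := sector (-(starRingEnd ℂ) y)
  have hn := unit_normSq hu₁
  have hcu : (starRingEnd ℂ) u₁ * u₁ = 1 := by
    rw [← Complex.normSq_eq_conj_mul_self, hn, Complex.ofReal_one]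
  have hyu : y * u₁ = -(α + β * (starRingEnd ℂ) ze) := by
    have h1 : y = -(α * (starRingEnd ℂ) u₁ + β * ((starRingEnd ℂ) ze * (starRingEnd ℂ) u₁)) := by
      have h2 := congrArg (starRingEnd ℂ) hs
      rw [map_neg, Complex.conj_conj, map_add, map_mul, map_mul, map_mul, Complex.conj_ofReal,
        Complex.conj_ofReal] at h2
      rw [← h2, neg_neg]
    rw [h1]
    linear_combination -(α + β * (starRingEnd ℂ) ze) * hcu
  have h3 := sqrt3_sq
  have hx1 : 2 * α + β ≤ a := by
    have h1 := hhex (-u₁) (by rw [neg_pow, hu₁]; norm_num)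
    have h2 : -u₁ * y = α + β * (starRingEnd ℂ) ze := by linear_combination -hyu
    rw [h2, Complex.add_re, Complex.re_ofReal_mul, Complex.ofReal_re, Complex.conj_re, re_ze] at h1
    linarith
  have hx2 : α + 2 * β ≤ a := by
    have h1 := hhex (-(ze * u₁)) (by rw [neg_pow, mul_pow, hu₁, unit_ze]; norm_num)
    have hzz : (starRingEnd ℂ) ze * ze = 1 := by
      rw [← Complex.normSq_eq_conj_mul_self, normSq_ze, Complex.ofReal_one]
    have h2 : -(ze * u₁) * y = α * ze + β := by
      linear_combination -ze * hyu + β * hzz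
    rw [h2, Complex.add_re, Complex.re_ofReal_mul, Complex.ofReal_re, re_ze] at h1
    linarith
  have ha0 : 0 < a := by linarith
  have hc0 : 0 < c := by linarith
  have hu6 : ((starRingEnd ℂ) om * u₁) ^ 6 = 1 := by
    rw [mul_pow, hu₁, ← map_pow, om_six, map_one, one_mul]
  refine ⟨(starRingEnd ℂ) om * u₁, hu6, fun z hz hz0 hq => ?_⟩
  rw [sum_four (unit_normSq hu6)]
  rw [q_fin_two] at hq
  -- the bounds for the coordinates
  have hN1 : 2 / 3 * a * Complex.normSq (z 1) ≤ 1 := by
    have h1 := Complex.normSq_nonneg (a * z 0 + y * z 1)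
    rw [Complex.normSq_add, Complex.normSq_mul, Complex.normSq_mul, Complex.normSq_ofReal] at h1
    have h2 : ((a : ℂ) * z 0 * (starRingEnd ℂ) (y * z 1)).re =
        a * (y * ((starRingEnd ℂ) (z 0) * z 1)).re := by
      rw [mul_assoc, Complex.re_ofReal_mul]
      congr 1
      rw [← Complex.conj_re, map_mul, Complex.conj_conj]
      congr 1
      ring
    rw [h2] at h1
    have h4 := Complex.normSq_nonneg (z 1)
    have h5 : Complex.normSq y * Complex.normSq (z 1) ≤ a ^ 2 / 3 * Complex.normSq (z 1) :=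
      mul_le_mul_of_nonneg_right hy h4
    have h6 : a * a * Complex.normSq (z 1) ≤ a * c * Complex.normSq (z 1) :=
      mul_le_mul_of_nonneg_right (mul_le_mul_of_nonneg_left hac ha0.le) h4
    have h7 : a * (2 / 3 * a * Complex.normSq (z 1)) ≤ a * 1 := by nlinarith
    exact le_of_mul_le_mul_left h7 ha0
  have hN0 : 2 / 3 * a * Complex.normSq (z 0) ≤ 1 := by
    have h1 := Complex.normSq_nonneg (c * z 1 + (starRingEnd ℂ) y * z 0)
    rw [Complex.normSq_add, Complex.normSq_mul, Complex.normSq_mul, Complex.normSq_ofReal,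
      Complex.normSq_conj] at h1
    have h2 : ((c : ℂ) * z 1 * (starRingEnd ℂ) ((starRingEnd ℂ) y * z 0)).re =
        c * (y * ((starRingEnd ℂ) (z 0) * z 1)).re := by
      rw [mul_assoc, Complex.re_ofReal_mul, map_mul, Complex.conj_conj]
      congr 2
      ring
    rw [h2] at h1
    have h4 := Complex.normSq_nonneg (z 0)
    have h5 : Complex.normSq y * Complex.normSq (z 0) ≤ a ^ 2 / 3 * Complex.normSq (z 0) :=
      mul_le_mul_of_nonneg_right hy h4
    have h6 : a ^ 2 * Complex.normSq (z 0) ≤ a * c * Complex.normSq (z 0) := by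
      have : a ^ 2 ≤ a * c := by nlinarith
      exact mul_le_mul_of_nonneg_right this h4
    have h7 : c * (2 / 3 * a * Complex.normSq (z 0)) ≤ c * 1 := by nlinarith
    exact le_of_mul_le_mul_left h7 hc0
  have hlt : ∀ N : ℝ, 0 ≤ N → 2 / 3 * a * N ≤ 1 → N < 9 / 4 := by
    intro N hN0 hN
    rcases hN0.eq_or_lt with h | h
    · rw [← h]; norm_num
    · have : 2 / 3 * (2 / 3) * N < 2 / 3 * a * N := by
        have := mul_lt_mul_of_pos_right ha h
        linarith
      linarith
  have hone : ∀ w : ℂ, IsEis w → w ≠ 0 → 2 / 3 * a * Complex.normSq w ≤ 1 →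
      Complex.normSq w = 1 := by
    intro w hw hw0 hN
    rcases unit_cases hw hw0 (hlt _ (Complex.normSq_nonneg w) hN) with h | h | h | h | h | h <;>
      rw [h]
    · exact Complex.normSq_one
    · rw [Complex.normSq_neg, Complex.normSq_one]
    · exact normSq_om
    · rw [Complex.normSq_neg, normSq_om]
    · exact normSq_ze
    · rw [Complex.normSq_neg, normSq_ze]
  by_cases h0 : z 0 = 0
  · have h1 : z 1 ≠ 0 := by
      intro h1
      apply hz0
      rw [vec_two z, h0, h1]
      ext i; fin_cases i <;> rfl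
    rw [h0, hone _ (hz 1) h1 hN1]
    simp
  · by_cases h1 : z 1 = 0
    · rw [h1, hone _ (hz 0) h0 hN0]
      simp
    · have e0 := hone _ (hz 0) h0 hN0
      have e1 := hone _ (hz 1) h1 hN1
      rw [e0, e1] at hq ⊢
      obtain ⟨r, hr⟩ : ∃ r, r = (starRingEnd ℂ) (z 0) * z 1 * (starRingEnd ℂ) u₁ := ⟨_, rfl⟩
      have hre : IsEis r := by
        rw [hr]
        exact ((hz 0).conj.mul (hz 1)).mul (IsEis.of_pow_six hu₁).conj
      have hrn : Complex.normSq r = 1 := by
        rw [hr, Complex.normSq_mul, Complex.normSq_mul, Complex.normSq_conj, Complex.normSq_conj,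
          e0, e1, hn]
        norm_num
      have hzr : (starRingEnd ℂ) (z 0) * z 1 = r * u₁ := by
        rw [hr]
        linear_combination -((starRingEnd ℂ) (z 0) * z 1) * hcu
      have hr0 : r ≠ 0 := by
        intro h
        rw [h] at hrn
        simp at hrn
      rw [hzr] at hq ⊢
      have hq2 : y * (r * u₁) = -(r * (α + β * (starRingEnd ℂ) ze)) := by
        linear_combination r * hyu
      rw [hq2] at hq
      have hg : (starRingEnd ℂ) ((starRingEnd ℂ) om * u₁) * (r * u₁) * (1 - (starRingEnd ℂ) om) =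
          r * (om - 1) := by
        have h5 : (starRingEnd ℂ) om * om = 1 := by
          rw [conj_om]
          linear_combination -om_sq
        rw [map_mul, Complex.conj_conj]
        linear_combination (om * r * (1 - (starRingEnd ℂ) om)) * hcu - r * h5
      rw [hg]
      have hzo : ze * om = -1 := by
        unfold ze
        linear_combination om_sq
      have hcz : (starRingEnd ℂ) ze = -om := by
        unfold ze
        rw [map_add, map_one, conj_om]
        ring
      have hoo : om * om = -1 - om := om_sq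
      rw [hcz] at hq
      rcases unit_cases hre hr0 (by rw [hrn]; norm_num) with h | h | h | h | h | h
      · rw [h, one_mul, Complex.sub_re, re_om, Complex.one_re]
        norm_num
      · exfalso
        rw [h] at hq
        have : -(-1 * ((α : ℂ) + β * -om)) = α - β * om := by ring
        rw [this, Complex.sub_re, Complex.re_ofReal_mul, Complex.ofReal_re, re_om] at hq
        linarith
      · exfalso
        rw [h] at hq
        have : -(om * ((α : ℂ) + β * -om)) = -α * om - β * (1 + om) := by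
          linear_combination (β : ℂ) * hoo
        have h6 : (-(α : ℂ) * om - β * (1 + om)).re = (α - β) / 2 := by
          have : (-(α : ℂ) * om - β * (1 + om)) = ((-α : ℝ) : ℂ) * om - (β : ℂ) * (1 + om) := by
            push_cast; ring
          rw [this, Complex.sub_re, Complex.re_ofReal_mul, Complex.re_ofReal_mul, Complex.add_re,
            Complex.one_re, re_om]
          ring
        rw [this, h6] at hq
        linarith
      · exfalso
        rw [h] at hq
        have : -(-om * ((α : ℂ) + β * -om)) = α * om + β * (1 + om) := by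
          linear_combination -(β : ℂ) * hoo
        have h6 : ((α : ℂ) * om + β * (1 + om)).re = (β - α) / 2 := by
          rw [Complex.add_re, Complex.re_ofReal_mul, Complex.re_ofReal_mul, Complex.add_re,
            Complex.one_re, re_om]
          ring
        rw [this, h6] at hq
        linarith
      · rw [h]
        have : ze * (om - 1) = -1 - ze := by linear_combination hzo
        rw [this, Complex.sub_re, Complex.neg_re, Complex.one_re, re_ze]
        norm_num
      · exfalso
        rw [h] at hq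
        have : -(-ze * ((α : ℂ) + β * -om)) = α * ze + β := by
          linear_combination -(β : ℂ) * hzo
        rw [this, Complex.add_re, Complex.re_ofReal_mul, Complex.ofReal_re, re_ze] at hq
        linarith

/-- The same for forms which are not reduced. -/
theorem four_vec {T : Matrix (Fin 2) (Fin 2) ℂ} (hT : Pd T)
    (hmin : ∀ v, IsLat v → v ≠ 0 → 2 / 3 < q T v) :
    ∃ y₁ y₂ : Fin 2 → ℂ, IsLat y₁ ∧ IsLat y₂ ∧ Ind y₁ y₂ ∧
      ∀ w, IsLat w → w ≠ 0 → q T w ≤ 1 →
        Complex.normSq (star y₁ ⬝ᵥ w) + Complex.normSq (star y₂ ⬝ᵥ w) +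
        Complex.normSq (star (y₁ + y₂) ⬝ᵥ w) + Complex.normSq (star (y₁ - om • y₂) ⬝ᵥ w) ≤ 3 := by
  obtain ⟨g, a, c, y, hg, ha, hac, hgT, -, hy, hhex⟩ := red_two hT
  obtain ⟨g', h1, h2, h3⟩ := hg.inv
  have hg' : IsGL g' := ⟨h1, g, hg.ent, h3, h2⟩
  have h9 : 2 / 3 < a := by
    have h10 : a = q T (g *ᵥ ![1, 0]) := by
      rw [← q_conj, hgT, q_fin_two]
      simp
    rw [h10]
    refine hmin _ (hg.mulVec lat_one) (hg.mulVec_ne fun h => ?_)
    have := congrFun h 0
    simp at this
  obtain ⟨u, hu, h4⟩ := four_red h9 hac hy hhex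
  have hsd : ∀ v w : Fin 2 → ℂ, star (g'ᴴ *ᵥ v) ⬝ᵥ w = star v ⬝ᵥ (g' *ᵥ w) := by
    intro v w
    rw [star_mulVec, conjTranspose_conjTranspose, dotProduct_mulVec]
  refine ⟨g'ᴴ *ᵥ ![1, 0], g'ᴴ *ᵥ ![0, u], hg'.conjTranspose.mulVec lat_one,
    hg'.conjTranspose.mulVec (lat_unit (IsEis.of_pow_six hu)), fun a c hac => ?_,
    fun w hw hw0 hqw => ?_⟩
  · apply ind_two (unit_ne hu)
    by_contra hne
    apply hg'.conjTranspose.mulVec_ne hne
    rw [mulVec_add, mulVec_smul, mulVec_smul, hac]
  · have h5 := h4 (g' *ᵥ w) (hg'.mulVec hw) (hg'.mulVec_ne hw0) (by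
      rw [← hgT, q_conj, mulVec_mulVec, h2, one_mulVec]
      exact hqw)
    rw [← mulVec_smul, ← mulVec_add, ← mulVec_sub, hsd, hsd, hsd, hsd]
    exact h5

end Pool.Agent.H899.MK
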