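import Pool.Agent.H899.MK.Ar4

/-! The inequality in three variables. -/

set_option autoImplicit false

namespace Pool.Agent.H899.MK

open Matrix Filter Topology
open Pool.Agent.R895

theorem exists_sqrt {n : ℕ} {M : Matrix (Fin n) (Fin n) ℂ} (hM : Pd M) :
    ∃ B : Matrix (Fin n) (Fin n) ℂ, M = Bᴴ * B := by
  obtain ⟨g, x, m, hg, hm, -, -, -, -, hdec⟩ := exists_red n M hM
  obtain ⟨g', -, h2, h3⟩ := hg.inv
  obtain ⟨C, hC⟩ : ∃ C : Matrix (Fin n) (Fin n) ℂ, C = fun i j => (√(m i) : ℂ) * star (x i j) :=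
    ⟨_, rfl⟩
  have h4 : Cᴴ * C = gᴴ * M * g := by
    rw [hdec]
    ext a b
    rw [mul_apply, Matrix.sum_apply]
    refine Finset.sum_congr rfl fun i _ => ?_
    rw [conjTranspose_apply, Matrix.smul_apply, vecMulVec_apply, Pi.star_apply, smul_eq_mul]
    simp only [hC]
    rw [star_mul', star_star]
    have h5 : star (√(m i) : ℂ) = (√(m i) : ℂ) := Complex.conj_ofReal _
    have h6 : (√(m i) : ℂ) * (√(m i) : ℂ) = (m i : ℂ) := by
      rw [← Complex.ofReal_mul, Real.mul_self_sqrt (hm i).le]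
    rw [h5]
    linear_combination (x i a * star (x i b)) * h6
  refine ⟨C * g', ?_⟩
  have h5 : g'ᴴ * gᴴ = 1 := by rw [← conjTranspose_mul, h2, conjTranspose_one]
  calc M = (g'ᴴ * gᴴ) * M * (g * g') := by rw [h2, h5, Matrix.one_mul, Matrix.mul_one]
    _ = g'ᴴ * (gᴴ * M * g) * g' := by simp only [Matrix.mul_assoc]
    _ = _ := by rw [← h4, conjTranspose_mul]; simp only [Matrix.mul_assoc]

theorem trace_sq_ge {A : Matrix (Fin 3) (Fin 3) ℂ} (hA : A.IsHermitian) :
    A.trace.re ^ 2 / 3 ≤ (A * A).trace.re := by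
  have h1 : (A * A).trace.re = ∑ i, ∑ j, Complex.normSq (A i j) := by
    rw [Matrix.trace, Complex.re_sum]
    refine Finset.sum_congr rfl fun i _ => ?_
    rw [diag_apply, mul_apply, Complex.re_sum]
    refine Finset.sum_congr rfl fun j _ => ?_
    rw [herm_apply hA j i, Complex.mul_conj, Complex.ofReal_re]
  have h2 : ∀ i, (A i i).re ^ 2 ≤ ∑ j, Complex.normSq (A i j) := by
    intro i
    refine le_trans ?_ (Finset.single_le_sum (f := fun j => Complex.normSq (A i j))
      (fun j _ => Complex.normSq_nonneg _) (Finset.mem_univ i))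
    rw [Complex.normSq_apply]
    nlinarith [sq_nonneg (A i i).im]
  have h3 : ∑ i, (A i i).re ^ 2 ≤ (A * A).trace.re := by
    rw [h1]
    exact Finset.sum_le_sum fun i _ => h2 i
  have h4 : A.trace.re = (A 0 0).re + (A 1 1).re + (A 2 2).re := by
    rw [Matrix.trace, Complex.re_sum, Fin.sum_univ_three]
    rfl
  rw [Fin.sum_univ_three] at h3
  rw [h4]
  nlinarith [sq_nonneg ((A 0 0).re - (A 1 1).re), sq_nonneg ((A 0 0).re - (A 2 2).re),
    sq_nonneg ((A 1 1).re - (A 2 2).re)]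

theorem trace_low {n : ℕ} (N : Matrix (Fin n) (Fin n) ℂ) (K : Matrix (Fin (n + 1)) (Fin (n + 1)) ℂ) :
    (low N * K).trace = (N * tl K).trace := by
  rw [Matrix.trace, Matrix.trace, Fin.sum_univ_succ]
  have h1 : (low N * K).diag 0 = 0 := by
    rw [diag_apply, mul_apply]
    exact Finset.sum_eq_zero fun j _ => by rw [low_zj, zero_mul]
  rw [h1, zero_add]
  refine Finset.sum_congr rfl fun i _ => ?_
  rw [diag_apply, diag_apply, mul_apply, mul_apply, Fin.sum_univ_succ, low_sz, zero_mul, zero_add]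
  rfl

theorem cons_eta {n : ℕ} (v : Fin (n + 1) → ℂ) : v = Fin.cons (v 0) (fun i => v i.succ) := by
  ext i
  refine Fin.cases ?_ (fun i => ?_) i <;> rfl

theorem cons_lat {n : ℕ} {a : ℂ} {w : Fin n → ℂ} (ha : IsEis a) (hw : IsLat w) :
    IsLat (Fin.cons a w : Fin (n + 1) → ℂ) := by
  intro i
  refine Fin.cases ?_ (fun i => ?_) i
  · exact ha
  · exact hw i

/-- The form `M'` is at least `1 - a / 3` on the lattice. -/
theorem schur_min {n : ℕ} {M : Matrix (Fin (n + 1)) (Fin (n + 1)) ℂ} {a : ℝ}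
    {x : Fin (n + 1) → ℂ} {T : Matrix (Fin n) (Fin n) ℂ} (ha : 0 ≤ a) (hx : x 0 = 1)
    (hM : M = (a : ℂ) • vecMulVec x (star x) + low T)
    (hone : ∀ v : Fin (n + 1) → ℂ, IsLat v → (∃ i : Fin n, v i.succ ≠ 0) → 1 ≤ q M v)
    {w : Fin n → ℂ} (hw : IsLat w) (hw0 : w ≠ 0) : 1 - a / 3 ≤ q T w := by
  obtain ⟨e, he, hle⟩ := exists_near (∑ j, star (x j.succ) * w j)
  have h1 := hone (Fin.cons (-e) w) (cons_lat he.neg hw) (by
    by_contra hcon
    push Not at hcon
    exact hw0 (funext hcon))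
  rw [hM, q_add, q_smul, q_vec, q_low] at h1
  have h2 : star x ⬝ᵥ (Fin.cons (-e) w : Fin (n + 1) → ℂ) =
      (∑ j, star (x j.succ) * w j) - e := by
    simp only [dotProduct, Fin.sum_univ_succ, Pi.star_apply, Fin.cons_zero, Fin.cons_succ, hx,
      star_one, one_mul]
    ring
  rw [h2] at h1
  have := mul_le_mul_of_nonneg_left hle ha
  linarith

theorem q_schur_le {n : ℕ} {M : Matrix (Fin (n + 1)) (Fin (n + 1)) ℂ} {a : ℝ}
    {x : Fin (n + 1) → ℂ} {T : Matrix (Fin n) (Fin n) ℂ} (ha : 0 ≤ a)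
    (hM : M = (a : ℂ) • vecMulVec x (star x) + low T) (v : Fin (n + 1) → ℂ) :
    q T (fun i => v i.succ) ≤ q M v := by
  have h1 : q (low T) v = q T (fun i => v i.succ) := by
    conv_lhs => rw [cons_eta v]
    rw [q_low]
  rw [hM, q_add, q_smul, q_vec, h1]
  have := mul_nonneg ha (Complex.normSq_nonneg (star x ⬝ᵥ v))
  linarith

theorem psd_tl {n : ℕ} {H : Matrix (Fin (n + 1)) (Fin (n + 1)) ℂ} (hH : Psd H) : Psd (tl H) :=
  ⟨hH.1.submatrix _, fun v => by rw [q_tl]; exact hH.2 _⟩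

/-- The minimum is attained where the form is bounded below by `1`. -/
theorem caseA {β : (Fin 3 → ℂ) → ℝ} {h : ℝ} (hh : 0 < h) (hβ0 : ∀ v, h ≤ β v)
    (hβ1 : ∀ v, β v ≤ 1) {H M : Matrix (Fin 3) (Fin 3) ℂ} (hH : Pd H) (hM : M ∈ PP β)
    (hmin : ∀ N ∈ PP β, (M * H).trace.re ≤ (N * H).trace.re)
    (hone : ∀ v, IsLat v → v ≠ 0 → 1 ≤ q M v) {b : ℝ} (hb : Mc H b) :
    b ≤ (M * H).trace.re := by
  classical
  obtain ⟨μ, hμ⟩ : ∃ μ, μ = (M * H).trace.re := ⟨_, rfl⟩
  have hpd := pd_of_lat hM.1 hh fun v hv hv0 => (hβ0 v).trans (hM.2 v hv hv0)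
  have hμ0 : 0 < μ := by
    obtain ⟨k, hk, hpd', -⟩ := hH.shrink (δ := 1 / 2) (by norm_num) (by norm_num)
    have h1 := trace_nonneg hM.1 hpd'
    rw [Matrix.mul_sub, trace_sub, Complex.sub_re, Matrix.mul_smul, Matrix.mul_one, trace_smul,
      smul_eq_mul, Complex.re_ofReal_mul, ← hμ] at h1
    have h2 : M.trace.re = ∑ k, q M (Pi.single k 1) := by
      rw [Matrix.trace, Complex.re_sum]
      refine Finset.sum_congr rfl fun k _ => ?_
      unfold q
      rw [mulVec_single_one, Pi.star_single, star_one, single_one_dotProduct]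
      rfl
    have h3 : 0 < M.trace.re := by
      rw [h2]
      exact Finset.sum_pos (fun k _ => hpd.2 _ (single_ne k)) ⟨0, Finset.mem_univ _⟩
    have h4 : (0 : ℝ) < 1 / k := by
      have : (0 : ℝ) < k := by exact_mod_cast hk
      positivity
    have := mul_pos h4 h3
    linarith
  -- the second moment
  have hsq : μ ^ 2 / 3 ≤ (M * H * M * H).trace.re := by
    obtain ⟨B, hB⟩ := exists_sqrt hpd
    have h1 : (B * H * Bᴴ).IsHermitian := by
      have := herm_conj hH.1 Bᴴ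
      rwa [conjTranspose_conjTranspose] at this
    have h2 := trace_sq_ge h1
    have h3 : (B * H * Bᴴ).trace = (M * H).trace := by
      rw [trace_mul_comm, hB, ← Matrix.mul_assoc]
    have h4 : (B * H * Bᴴ * (B * H * Bᴴ)).trace = (M * H * M * H).trace := by
      have : B * H * Bᴴ * (B * H * Bᴴ) = (B * H * Bᴴ * B * H) * Bᴴ := by
        simp only [Matrix.mul_assoc]
      rw [this, trace_mul_comm, hB]
      simp only [Matrix.mul_assoc]
    rw [h3, h4, ← hμ] at h2
    exact h2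
  -- a vector of length one at which the second form is large
  obtain ⟨v, hv, hv0, hv1, hF⟩ : ∃ v, IsLat v ∧ v ≠ 0 ∧ q M v = 1 ∧ μ / 3 ≤ q (M * H * M) v := by
    by_contra hcon
    push Not at hcon
    obtain ⟨c, hc, hlow⟩ := hpd.lower
    have hS : {v : Fin 3 → ℂ | IsLat v ∧ q M v ≤ 1}.Finite := by
      refine (finite_lat (1 / c)).subset ?_
      rintro x ⟨h1, h2⟩
      refine ⟨h1, ?_⟩
      rw [le_div_iff₀ hc, mul_comm]
      exact (hlow x).trans h2
    obtain ⟨κ, hκ, hκ2⟩ : ∃ κ : ℝ, κ < μ / 3 ∧ ∀ v, IsLat v → v ≠ 0 → q M v = 1 →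
        q (M * H * M) v ≤ κ := by
      obtain ⟨T, hT⟩ : ∃ T : Finset ℝ, T = insert 0 ((hS.toFinset.filter fun v =>
        v ≠ 0 ∧ q M v = 1).image fun v => q (M * H * M) v) := ⟨_, rfl⟩
      have hne : T.Nonempty := by rw [hT]; exact Finset.insert_nonempty _ _
      refine ⟨T.max' hne, ?_, fun v hv hv0 hv1 => T.le_max' _ ?_⟩
      · have h1 := T.max'_mem hne
        generalize T.max' hne = m at h1
        rw [hT, Finset.mem_insert, Finset.mem_image] at h1
        rcases h1 with h1 | ⟨v, hv, h1⟩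
        · rw [h1]; positivity
        · rw [← h1]
          rw [Finset.mem_filter, Set.Finite.mem_toFinset] at hv
          exact hcon v hv.1.1 hv.2.1 hv.2.2
      · rw [hT]
        refine Finset.mem_insert_of_mem (Finset.mem_image.2 ⟨v, Finset.mem_filter.2
          ⟨hS.mem_toFinset.2 ⟨hv, hv1.le⟩, hv0, hv1⟩, rfl⟩)
    have hMHM : (M * H * M).IsHermitian := by
      have := herm_conj hH.1 M
      rwa [hM.1.1.eq] at this
    have h1 := first_order hh hβ0 hβ1 hM hmin (D := (κ : ℂ) • M - M * H * M) (by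
      refine IsHermitian.sub ?_ hMHM
      unfold IsHermitian
      rw [conjTranspose_smul, hM.1.1.eq]
      congr 1
      exact Complex.conj_ofReal _) (by
        intro v hv hv0 hact
        have h2 : q M v = 1 := le_antisymm (hact ▸ hβ1 v) (hone v hv hv0)
        have h3 := hκ2 v hv hv0 h2
        have h4 : (κ : ℂ) • M - M * H * M = (κ : ℂ) • M + ((-1 : ℝ) : ℂ) • (M * H * M) := by
          rw [sub_eq_add_neg]
          push_cast
          rw [neg_one_smul]
        rw [h4, q_add, q_smul, q_smul, h2]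
        linarith)
    rw [Matrix.sub_mul, trace_sub, Complex.sub_re, Matrix.smul_mul, trace_smul, smul_eq_mul,
      Complex.re_ofReal_mul, ← hμ] at h1
    nlinarith
  -- change of basis
  obtain ⟨g, c, hg, hc, hc0, hvg⟩ := unimod hv hv0
  obtain ⟨g', h1, h2, h3⟩ := hg.inv
  have hg' : IsGL g' := ⟨h1, g, hg.ent, h3, h2⟩
  have he0 := hone _ (hg.mulVec (isLat_single 0)) (hg.mulVec_ne (single_ne 0))
  rw [hvg, q_smul_vec] at hv1 hF
  have hcn := hc.one_le_normSq hc0
  have hcn1 : Complex.normSq c = 1 := by nlinarith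
  rw [hcn1, one_mul] at hv1 hF
  obtain ⟨M₁, hM₁⟩ : ∃ M₁, M₁ = gᴴ * M * g := ⟨_, rfl⟩
  obtain ⟨H₁, hH₁⟩ : ∃ H₁, H₁ = g' * H * g'ᴴ := ⟨_, rfl⟩
  have hM₁p : Pd M₁ := by rw [hM₁]; exact hpd.conj hg
  have hH₁p : Pd H₁ := by
    have := hH.conj hg'.conjTranspose
    rwa [conjTranspose_conjTranspose, ← hH₁] at this
  have hb₁ : Mc H₁ b := by rw [hH₁]; exact hb.conj hg'
  have htr : (M * H).trace = (M₁ * H₁).trace := by
    rw [hM₁, hH₁]
    exact trace_conj h2 M H
  have hMHM : M₁ * H₁ * M₁ = gᴴ * (M * H * M) * g := by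
    have h5 : g'ᴴ * gᴴ = 1 := by rw [← conjTranspose_mul, h2, conjTranspose_one]
    rw [hM₁, hH₁]
    calc gᴴ * M * g * (g' * H * g'ᴴ) * (gᴴ * M * g) =
        gᴴ * M * (g * g') * H * (g'ᴴ * gᴴ) * M * g := by simp only [Matrix.mul_assoc]
      _ = _ := by rw [h2, h5, Matrix.mul_one, Matrix.mul_one]; simp only [Matrix.mul_assoc]
  rw [← q_conj, ← hMHM] at hF
  rw [← q_conj, ← hM₁] at hv1
  obtain ⟨a, x, T, ha, hx, haq, hT, hdec⟩ := hM₁p.schur
  have ha1 : a = 1 := by rw [haq, hv1]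
  have hx1 : M₁ *ᵥ Pi.single 0 1 = x := by
    rw [hdec, ha1, Complex.ofReal_one, one_smul, mulVec_single_one]
    ext i
    rw [col_apply, Matrix.add_apply, low_iz, add_zero, vecMulVec_apply, Pi.star_apply, hx,
      star_one, mul_one]
  have hF1 : q (M₁ * H₁ * M₁) (Pi.single 0 1) = q H₁ x := by
    have := q_conj H₁ M₁ (Pi.single 0 1)
    rw [hM₁p.1.eq, hx1] at this
    exact this
  rw [hF1] at hF
  have htr2 : (M * H).trace.re = q H₁ x + (T * tl H₁).trace.re := by
    rw [htr, hdec, ha1, Complex.ofReal_one, one_smul, Matrix.add_mul, trace_add, trace_vec,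
      trace_low, Complex.add_re]
    rfl
  have hTm : ∀ w, IsLat w → w ≠ 0 → 2 / 3 ≤ q T w := by
    intro w hw hw0
    have h5 := schur_min ha.le hx hdec (fun v hv hvi => by
      rw [hM₁, q_conj]
      refine hone _ (hg.mulVec hv) (hg.mulVec_ne fun h0 => ?_)
      obtain ⟨i, hi⟩ := hvi
      exact hi (congrFun h0 _)) hw hw0
    rw [ha1] at h5
    linarith
  have h6 := two_dim hT (psd_tl hH₁p.psd) (by norm_num : (0 : ℝ) ≤ 2 / 3) hTm hb₁.tl
  rw [← hμ] at htr2 ⊢
  linarith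

/-- The minimum is attained where the form is smaller than `1` at `e_0`. -/
theorem caseB {β : (Fin 3 → ℂ) → ℝ} {h : ℝ} (hh : 0 < h) (hβ0 : ∀ v, h ≤ β v)
    (hβ1 : ∀ v, β v ≤ 1) (hβ : ∀ v : Fin 3 → ℂ, (∃ i : Fin 2, v i.succ ≠ 0) → β v = 1)
    {H M : Matrix (Fin 3) (Fin 3) ℂ} (hM : M ∈ PP β)
    (hmin : ∀ N ∈ PP β, (M * H).trace.re ≤ (N * H).trace.re)
    (hlt : q M (Pi.single 0 1) < 1) {b : ℝ} (hb : Mc H b) : b ≤ (M * H).trace.re := by
  have hpd := pd_of_lat hM.1 hh fun v hv hv0 => (hβ0 v).trans (hM.2 v hv hv0)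
  obtain ⟨a, x, T, ha, hx, haq, hT, hdec⟩ := hpd.schur
  have ha1 : a < 1 := by rw [haq]; exact hlt
  have hone : ∀ v : Fin 3 → ℂ, IsLat v → (∃ i : Fin 2, v i.succ ≠ 0) → 1 ≤ q M v := by
    intro v hv hvi
    rw [← hβ v hvi]
    refine hM.2 v hv fun h0 => ?_
    obtain ⟨i, hi⟩ := hvi
    exact hi (congrFun h0 _)
  obtain ⟨y₁, y₂, hy₁, hy₂, hind, hy⟩ := four_vec hT fun w hw hw0 => by
    have := schur_min ha.le hx hdec hone hw hw0
    linarith
  obtain ⟨P, hP⟩ : ∃ P : (Fin 2 → ℂ) → Matrix (Fin 2) (Fin 2) ℂ, P = fun y =>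
    vecMulVec y (star y) := ⟨_, rfl⟩
  obtain ⟨S, hS⟩ : ∃ S : Matrix (Fin 2) (Fin 2) ℂ, S = P y₁ + P y₂ + P (y₁ + y₂) +
    P (y₁ - om • y₂) := ⟨_, rfl⟩
  have hSq : ∀ w, q S w = Complex.normSq (star y₁ ⬝ᵥ w) + Complex.normSq (star y₂ ⬝ᵥ w) +
      Complex.normSq (star (y₁ + y₂) ⬝ᵥ w) + Complex.normSq (star (y₁ - om • y₂) ⬝ᵥ w) := by
    intro w
    simp only [hS, hP, q_add, q_vec]
  have hSh : S.IsHermitian := by
    rw [hS, hP]
    exact (((sq_isHermitian _).add (sq_isHermitian _)).add (sq_isHermitian _)).add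
      (sq_isHermitian _)
  have hlowh : (low S).IsHermitian := by
    unfold IsHermitian
    ext i j
    rw [conjTranspose_apply]
    refine Fin.cases ?_ (fun i => ?_) i <;> refine Fin.cases ?_ (fun j => ?_) j
    · simp
    · simp
    · simp
    · rw [low_ss, low_ss]
      have := congrFun (congrFun hSh.eq i) j
      rwa [conjTranspose_apply] at this
  have h3 : M - ((1 / 3 : ℝ) : ℂ) • low S = M + ((-(1 / 3) : ℝ) : ℂ) • low S := by
    rw [sub_eq_add_neg, ← neg_smul]
    push_cast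
    rfl
  have h1 := first_order hh hβ0 hβ1 hM hmin (D := M - ((1 / 3 : ℝ) : ℂ) • low S) (by
    refine hM.1.1.sub ?_
    unfold IsHermitian
    rw [conjTranspose_smul, hlowh.eq]
    congr 1
    exact Complex.conj_ofReal _) (by
      intro v hv hv0 hact
      have h2 : q (low S) v = q S (fun i => v i.succ) := by
        conv_lhs => rw [cons_eta v]
        rw [q_low]
      rw [h3, q_add, q_smul, h2, hSq]
      by_cases hvi : ∃ i : Fin 2, v i.succ ≠ 0
      · have h4 : q M v = 1 := by rw [hact, hβ v hvi]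
        have h5 := q_schur_le ha.le hdec v
        have h6 := hy (fun i => v i.succ) (fun i => hv _) (fun h0 => by
          obtain ⟨i, hi⟩ := hvi
          exact hi (congrFun h0 i)) (h5.trans h4.le)
        linarith
      · push Not at hvi
        have h4 : (fun i : Fin 2 => v i.succ) = 0 := funext hvi
        rw [h4]
        simp only [dotProduct_zero, map_zero]
        have := hM.1.2 v
        linarith)
  have h4 := hb.tl y₁ y₂ hy₁ hy₂ hind
  have h5 : (low S * H).trace.re = q (tl H) y₁ + q (tl H) y₂ + q (tl H) (y₁ + y₂) +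
      q (tl H) (y₁ - om • y₂) := by
    rw [trace_low, hS, hP]
    simp only [Matrix.add_mul, trace_add, trace_vec, Complex.add_re]
    rfl
  rw [Matrix.sub_mul, trace_sub, Complex.sub_re, Matrix.smul_mul, trace_smul, smul_eq_mul,
    Complex.re_ofReal_mul, h5] at h1
  linarith

/-- The inequality for the subspace spanned by `e_0`. -/
theorem three_zero {M H : Matrix (Fin 3) (Fin 3) ℂ} (hM : Psd M) (hH : Pd H) {b : ℝ}
    (hb : Mc H b)
    (hM1 : ∀ v : Fin 3 → ℂ, IsLat v → (∃ i : Fin 2, v i.succ ≠ 0) → 1 ≤ q M v) :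
    b ≤ (M * H).trace.re := by
  classical
  have key : ∀ ε : ℝ, 0 < ε → ε ≤ 1 → b ≤ ((M + (ε : ℂ) • 1) * H).trace.re := by
    intro ε hε hε1
    obtain ⟨β, hβd⟩ : ∃ β : (Fin 3 → ℂ) → ℝ, β = fun v =>
      if ∃ i : Fin 2, v i.succ ≠ 0 then 1 else ε := ⟨_, rfl⟩
    have hβ0 : ∀ v, ε ≤ β v := by
      intro v
      simp only [hβd]
      split_ifs
      · exact hε1
      · exact le_rfl
    have hβ1 : ∀ v, β v ≤ 1 := by
      intro v
      simp only [hβd]
      split_ifs
      · exact le_rfl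
      · exact hε1
    have hβ : ∀ v : Fin 3 → ℂ, (∃ i : Fin 2, v i.succ ≠ 0) → β v = 1 := by
      intro v hv
      simp only [hβd, if_pos hv]
    have hN : M + (ε : ℂ) • 1 ∈ PP β := by
      obtain ⟨h1, h2⟩ := hM.add_one hε
      refine ⟨h1.psd, fun v hv hv0 => ?_⟩
      rw [h2]
      have h3 : 0 ≤ ∑ i, Complex.normSq (v i) :=
        Finset.sum_nonneg fun i _ => Complex.normSq_nonneg _
      by_cases hvi : ∃ i : Fin 2, v i.succ ≠ 0
      · rw [hβ v hvi]
        have := hM1 v hv hvi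
        have := mul_nonneg hε.le h3
        linarith
      · simp only [hβd, if_neg hvi]
        push Not at hvi
        have hv0' : v 0 ≠ 0 := by
          intro h0
          apply hv0
          ext i
          refine Fin.cases ?_ (fun i => ?_) i
          · exact h0
          · exact hvi i
        have h4 : 1 ≤ ∑ i, Complex.normSq (v i) :=
          ((hv 0).one_le_normSq hv0').trans (Finset.single_le_sum
            (f := fun i => Complex.normSq (v i)) (fun i _ => Complex.normSq_nonneg _)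
            (Finset.mem_univ 0))
        have := hM.2 v
        nlinarith
    obtain ⟨M₀, hM₀, hmin⟩ := exists_minimizer hβ1 hH
    refine le_trans ?_ (hmin _ hN)
    rcases le_or_gt 1 (q M₀ (Pi.single 0 1)) with h1 | h1
    · refine caseA hε hβ0 hβ1 hH hM₀ hmin (fun v hv hv0 => ?_) hb
      by_cases hvi : ∃ i : Fin 2, v i.succ ≠ 0
      · rw [← hβ v hvi]
        exact hM₀.2 v hv hv0
      · push Not at hvi
        have hve : v = v 0 • (Pi.single 0 1 : Fin 3 → ℂ) := by
          ext i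
          refine Fin.cases ?_ (fun i => ?_) i
          · simp
          · rw [hvi i]
            simp
        have hv0' : v 0 ≠ 0 := by
          intro h0
          apply hv0
          rw [hve, h0, zero_smul]
        rw [hve, q_smul_vec]
        have h2 := (hv 0).one_le_normSq hv0'
        nlinarith
    · exact caseB hε hβ0 hβ1 hβ hM₀ hmin h1 hb
  refine trace_lim fun ε hε => ?_
  rcases le_total ε 1 with h1 | h1
  · exact key ε hε h1
  · refine (key 1 one_pos le_rfl).trans ?_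
    have h2 : (M + (ε : ℂ) • (1 : Matrix (Fin 3) (Fin 3) ℂ)) =
        (M + ((1 : ℝ) : ℂ) • 1) + ((ε - 1 : ℝ) : ℂ) • 1 := by
      rw [add_assoc, ← add_smul]
      congr 2
      push_cast
      ring
    rw [h2, Matrix.add_mul (M + ((1 : ℝ) : ℂ) • 1), trace_add, Complex.add_re, Matrix.smul_mul,
      trace_smul, smul_eq_mul, Complex.re_ofReal_mul]
    have h3 := trace_nonneg (pd_one (n := 3)).psd hH
    have := mul_nonneg (sub_nonneg.2 h1) h3
    linarith

/-- **The inequality in three variables.** -/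
theorem three_dim {M H : Matrix (Fin 3) (Fin 3) ℂ} (hM : Psd M) (hH : Pd H) {b : ℝ}
    (hb : Mc H b) {l : Fin 3 → ℂ} (hl : IsLat l) (hl0 : l ≠ 0)
    (hM1 : ∀ v : Fin 3 → ℂ, IsLat v → (∀ c : ℂ, v ≠ c • l) → 1 ≤ q M v) :
    b ≤ (M * H).trace.re := by
  obtain ⟨g, c, hg, hc, hc0, hlg⟩ := unimod hl hl0
  obtain ⟨g', h1, h2, h3⟩ := hg.inv
  have hg' : IsGL g' := ⟨h1, g, hg.ent, h3, h2⟩
  rw [trace_conj h2 M H]
  have hH₁ : Pd (g' * H * g'ᴴ) := by
    have := hH.conj hg'.conjTranspose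
    rwa [conjTranspose_conjTranspose] at this
  refine three_zero ⟨herm_conj hM.1 g, fun v => ?_⟩ hH₁ (hb.conj hg') fun v hv hvi => ?_
  · rw [q_conj]
    exact hM.2 _
  · rw [q_conj]
    refine hM1 _ (hg.mulVec hv) fun d hd => ?_
    obtain ⟨i, hi⟩ := hvi
    apply hi
    have h4 : v = (d * c) • (Pi.single 0 1 : Fin 3 → ℂ) := by
      have := congrArg (fun w => g' *ᵥ w) hd
      simp only [hlg, mulVec_mulVec, mulVec_smul, h3, one_mulVec, smul_smul] at this
      exact this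
    rw [h4]
    simp

end Pool.Agent.H899.MK
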