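import Pool.Graph.R_pool_sql_team_seeded_47a924f7.T6.H34.EK.Defs

/-!
# The movable cone

`Γ` is a group of affine transformations of the complex vector space `V`, and `X` is the quotient by
`Γ` of the blow-up `Ṽ` of `V` along the orbit `Γ 0`, as in `Pool.Agent.T6.H34.EK.Defs`. We define
movable line bundles on `X`, the movable cone and the cone `Mov^e(X)`.
-/

set_option autoImplicit false

namespace Pool.Agent.H899.MK

open Filter Topology
open Pool.Agent.R895 (BlBundle)
open Pool.Agent.T6.H34.EK
open Pool.Agent.Y167 (AffGrp cone)
open Pool.Agent.Y167.CC (LinGrp Preserves IsFundDomain)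

variable {V : Type*} [NormedAddCommGroup V] [NormedSpace ℂ V] {Γ : AffGrp V}

/-- `L` is movable: the base locus of `L` in `X` has codimension at least two. The first condition says
that it does not contain the exceptional divisor, that is, some section does not vanish at some point
of `ℙ(V)`. The second condition says that it contains no other prime divisor: for every entire function
`t` which has a zero some section of `L` does not vanish identically on the zero set of `t`. (The
preimage in `V` of a prime divisor of `X` other than the exceptional divisor is the zero set of an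
entire function.) -/
structure IsMovable (L : BlBundle Γ) : Prop where
  exc : ∃ s, L.IsSection s ∧ ∃ u, u ≠ 0 ∧ L.NonvanishingAt s u
  out : ∀ t : V → ℂ, Differentiable ℂ t → (∃ v, t v = 0) →
    ∃ s, L.IsSection s ∧ ∃ v, t v = 0 ∧ s v ≠ 0

/-- The classes of movable line bundles. -/
def movable (Γ : AffGrp V) : Set (NS Γ) :=
  {x | ∃ L : QBundle Γ, IsCls L (form x, coef x) ∧ IsMovable L.toBlBundle}

/-- The movable cone: the closure of the convex cone spanned by the classes of movable line
bundles. -/
def movCone (Γ : AffGrp V) : Set (NS Γ) := closure (span (movable Γ))

/-- The cone `Mov^e(X)` of the effective classes in the movable cone. -/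
def movEff (Γ : AffGrp V) : Set (NS Γ) := movCone Γ ∩ effCone Γ

/-- The subgroup `L` of `N^1(X)` is commensurable with the group spanned by the integral classes: a
multiple of every element of `L` is in this group, and a multiple of every integral class is in `L`,
with the same factor `k ≥ 1`. If `X` is projective with quotient singularities, the group of the
classes of Weil divisors has this property. -/
def IsComm (Γ : AffGrp V) (L : AddSubgroup (NS Γ)) : Prop :=
  ∃ k : ℕ, 1 ≤ k ∧ (∀ x ∈ L, (k : ℝ) • x ∈ AddSubgroup.closure (integral Γ)) ∧
    ∀ x ∈ integral Γ, (k : ℝ) • x ∈ L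

/-- `𝒢` is a group of linear automorphisms of `N^1(X)` which preserves a group of classes `L` which is
commensurable with the group spanned by the integral classes, which preserves the cone `Mov^e(X)`, and
which contains the pullbacks `f^*` by all automorphisms of `X` which are induced by linear
automorphisms `f` of `V`. The image of the group `PsAut(X)` of the birational automorphisms which are
isomorphisms in codimension one has these properties, where `L` is the group of the classes of Weil
divisors. -/
structure IsPsAutGroup (𝒢 : LinGrp (NS Γ)) : Prop where
  int : ∃ L : AddSubgroup (NS Γ), IsComm Γ L ∧ ∀ g ∈ 𝒢, ∀ x ∈ L, g x ∈ L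
  mov_eff : Preserves 𝒢 (movEff Γ)
  lin : ∀ (f : V ≃ₗ[ℂ] V) (g : NS Γ ≃ₗ[ℝ] NS Γ),
    Pool.Agent.R895.Normalizes Γ f → IsPullback f g → g ∈ 𝒢

/-- There is a finite set `S` of integral classes such that the cone `Π` spanned by `S` consists of
effective classes in the movable cone and is a fundamental domain for the action of `𝒢` on the cone
`Mov^e(X)`. -/
def HasMovDomain (𝒢 : LinGrp (NS Γ)) : Prop :=
  ∃ S : Finset (NS Γ), ↑S ⊆ integral Γ ∧ cone S ⊆ movEff Γ ∧
    IsFundDomain 𝒢 (movEff Γ) (cone S)

end Pool.Agent.H899.MK
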