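import Pool.Agent.H899.MK.Dc
import Pool.Agent.H899.MK.Defs

/-! The cone given by the inequalities for the movable classes, and the data for the fundamental
domain. -/

set_option autoImplicit false
set_option maxHeartbeats 400000

namespace Pool.Agent.H899.MK

open Filter Topology
open Pool.Agent.W594.SYZ2 (IsHermitian)
open Pool.Agent.W594.SYZ2.TQ (h_add_right h_smul_right h_zero_left h_zero_right)
open Pool.Agent.R895 (Lat IsEis std frm kap Nf Dat cs_of_psd h_quad om om_sq conj_om lat_single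
  N1 kum frm_add frm_smul frm_sub frm_zero frm_herm xi mx)
open Pool.Agent.T6.H34.EK
open Pool.Agent.Y167 (AffGrp cone CData)

section S4

variable {n : ℕ} {h : (Fin n → ℂ) → (Fin n → ℂ) → ℂ}

theorem S4_mono {h' : (Fin n → ℂ) → (Fin n → ℂ) → ℂ} (hh : ∀ v, (h v v).re ≤ (h' v v).re)
    (v w : Fin n → ℂ) : S4 h v w ≤ S4 h' v w := by
  unfold S4
  have := hh v
  have := hh w
  have := hh (v + w)
  have := hh (v - om • w)
  linarith

theorem ind_ne {v w : Fin n → ℂ} (h : Ind v w) (a b : ℂ) (hab : a ≠ 0 ∨ b ≠ 0) :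
    a • v + b • w ≠ 0 := by
  intro h0
  obtain ⟨h1, h2⟩ := h a b h0
  rcases hab with h3 | h3
  · exact h3 h1
  · exact h3 h2

theorem lat_om {w : Fin n → ℂ} (hw : Lat w) : Lat (om • w) := fun i => IsEis.omega.mul (hw i)

theorem ind_vecs {v w : Fin n → ℂ} (hv : Lat v) (hw : Lat w) (h : Ind v w) :
    (Lat v ∧ v ≠ 0) ∧ (Lat w ∧ w ≠ 0) ∧ (Lat (v + w) ∧ v + w ≠ 0) ∧
      (Lat (v - om • w) ∧ v - om • w ≠ 0) := by
  refine ⟨⟨hv, fun h0 => ?_⟩, ⟨hw, fun h0 => ?_⟩, ⟨fun i => (hv i).add (hw i), fun h0 => ?_⟩,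
    ⟨fun i => (hv i).sub (lat_om hw i), fun h0 => ?_⟩⟩
  · have := (h 1 0 (by rw [h0]; simp)).1
    exact one_ne_zero this
  · have := (h 0 1 (by rw [h0]; simp)).2
    exact one_ne_zero this
  · have := (h 1 1 (by rw [one_smul, one_smul]; exact h0)).1
    exact one_ne_zero this
  · have := (h 1 (-om) (by rw [one_smul, neg_smul, ← sub_eq_add_neg]; exact h0)).1
    exact one_ne_zero this

/-- Four lattice vectors. -/
theorem S4_ge (c : ℝ) (hc : ∀ v, Lat v → v ≠ 0 → c ≤ (h v v).re)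
    {v w : Fin n → ℂ} (hv : Lat v) (hw : Lat w) (hi : Ind v w) : 4 * c ≤ S4 h v w := by
  obtain ⟨h1, h2, h3, h4⟩ := ind_vecs hv hw hi
  unfold S4
  have := hc _ h1.1 h1.2
  have := hc _ h2.1 h2.2
  have := hc _ h3.1 h3.2
  have := hc _ h4.1 h4.2
  linarith

theorem quad_add_le (hh : IsHermitian h) (hp : ∀ v, 0 ≤ (h v v).re) (v w : Fin n → ℂ) :
    (h (v + w) (v + w)).re ≤ 2 * ((h v v).re + (h w w).re) := by
  have h1 := h_quad hh v w 1
  have h2 := h_quad hh v w (-1)
  have h3 := hp (v + (-1 : ℂ) • w)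
  rw [one_smul, one_mul, Complex.normSq_one] at h1
  have e1 : (-1 * h w v).re = -(h w v).re := by rw [neg_one_mul, Complex.neg_re]
  rw [e1, Complex.normSq_neg, Complex.normSq_one] at h2
  linarith

theorem quad_om (hh : IsHermitian h) (w : Fin n → ℂ) : h (om • w) (om • w) = h w w := by
  rw [hh.smul_left, h_smul_right hh, ← mul_assoc]
  have : om * (starRingEnd ℂ) om = 1 := by
    rw [conj_om]
    have : om * om = -1 - om := om_sq
    linear_combination -this
  rw [this, one_mul]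

theorem quad_neg (hh : IsHermitian h) (w : Fin n → ℂ) : h (-w) (-w) = h w w := by
  have : -w = (-1 : ℂ) • w := by rw [neg_one_smul]
  rw [this, hh.smul_left, h_smul_right hh]
  simp

theorem S4_le (hh : IsHermitian h) (hp : ∀ v, 0 ≤ (h v v).re) (v w : Fin n → ℂ) :
    S4 h v w ≤ 5 * ((h v v).re + (h w w).re) := by
  unfold S4
  have h1 := quad_add_le hh hp v w
  have h2 := quad_add_le hh hp v (-(om • w))
  rw [← sub_eq_add_neg, quad_neg hh, quad_om hh] at h2
  linarith

end S4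

variable {n : ℕ} {G : Subgroup ((Fin n → ℂ) ≃ₗ[ℂ] (Fin n → ℂ))} {hG : PresLat G}

/-- The functional given by two lattice vectors. -/
noncomputable def psi (hG : PresLat G) (p : (Fin n → ℂ) × (Fin n → ℂ)) : NS (grp G hG) →ₗ[ℝ] ℝ where
  toFun x := S4 (frm (up x)) p.1 p.2 - 3 * coef x
  map_add' x y := by
    unfold S4
    rw [up_add, frm_add, frm_add, frm_add, frm_add, Complex.add_re, Complex.add_re, Complex.add_re,
      Complex.add_re, coef_add]
    ring
  map_smul' t x := by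
    unfold S4
    rw [up_smul, frm_smul, frm_smul, frm_smul, frm_smul, Complex.re_ofReal_mul,
      Complex.re_ofReal_mul, Complex.re_ofReal_mul, Complex.re_ofReal_mul, coef_smul,
      RingHom.id_apply, smul_eq_mul]
    ring

theorem psi_apply (v w : Fin n → ℂ) (x : NS (grp G hG)) :
    psi hG (v, w) x = S4 (frm (up x)) v w - 3 * coef x := rfl

/-- The cone which will turn out to be the movable cone. -/
def MfQ (hG : PresLat G) : Set (NS (grp G hG)) :=
  {x | (∀ v, 0 ≤ (frm (up x) v v).re) ∧ 0 ≤ coef x ∧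
    ∀ v w : Fin n → ℂ, Lat v → Lat w → Ind v w → 3 * coef x ≤ S4 (frm (up x)) v w}

theorem mem_MfQ {x : NS (grp G hG)} (h1 : ∀ v, 0 ≤ (frm (up x) v v).re) (h2 : 0 ≤ coef x)
    (h3 : ∀ v w : Fin n → ℂ, Lat v → Lat w → Ind v w → 0 ≤ psi hG (v, w) x) : x ∈ MfQ hG :=
  ⟨h1, h2, fun v w hv hw hvw => by
    have := h3 v w hv hw hvw
    rw [psi_apply] at this
    linarith⟩

theorem psi_nonneg {x : NS (grp G hG)} (hx : x ∈ MfQ hG) {v w : Fin n → ℂ} (hv : Lat v)
    (hw : Lat w) (hvw : Ind v w) : 0 ≤ psi hG (v, w) x := by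
  have := hx.2.2 v w hv hw hvw
  rw [psi_apply]
  linarith

theorem MfQ_add {x y : NS (grp G hG)} (hx : x ∈ MfQ hG) (hy : y ∈ MfQ hG) : x + y ∈ MfQ hG := by
  refine mem_MfQ (fun v => ?_) ?_ fun v w hv hw hvw => ?_
  · rw [up_add, frm_add, Complex.add_re]
    exact add_nonneg (hx.1 v) (hy.1 v)
  · rw [coef_add]
    exact add_nonneg hx.2.1 hy.2.1
  · rw [map_add]
    exact add_nonneg (psi_nonneg hx hv hw hvw) (psi_nonneg hy hv hw hvw)

theorem MfQ_smul {t : ℝ} (ht : 0 ≤ t) {x : NS (grp G hG)} (hx : x ∈ MfQ hG) :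
    t • x ∈ MfQ hG := by
  refine mem_MfQ (fun v => ?_) ?_ fun v w hv hw hvw => ?_
  · rw [up_smul, frm_smul, Complex.re_ofReal_mul]
    exact mul_nonneg ht (hx.1 v)
  · rw [coef_smul]
    exact mul_nonneg ht hx.2.1
  · rw [map_smul, smul_eq_mul]
    exact mul_nonneg ht (psi_nonneg hx hv hw hvw)

theorem MfQ_zero : (0 : NS (grp G hG)) ∈ MfQ hG := by
  refine mem_MfQ (fun v => ?_) ?_ fun v w hv hw hvw => ?_
  · rw [up_zero, frm_zero, Complex.zero_re]
  · rw [coef_zero]
  · rw [map_zero]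

theorem NfQ_le {x : NS (grp G hG)} (hx : x ∈ NfQ hG) : x ∈ MfQ hG := by
  obtain ⟨h1, h2, h3⟩ := hx
  refine ⟨h1, h2, fun v w hv hw hvw => ?_⟩
  have := S4_ge _ h3 hv hw hvw
  rw [coef_up] at this h2
  linarith

theorem continuous_qf (v : Fin n → ℂ) : Continuous fun x : NS (grp G hG) => (frm (up x) v v).re :=
  (Pool.Agent.R895.continuous_frm (m := 1) (j := LinearMap.id) v).comp continuous_up

theorem continuous_cf : Continuous fun x : NS (grp G hG) => coef x :=
  continuous_snd.comp continuous_subtype_val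

theorem isClosed_MfQ : IsClosed (MfQ hG) := by
  have h1 : MfQ hG = (⋂ v, {x : NS (grp G hG) | 0 ≤ (frm (up x) v v).re}) ∩ ({x | 0 ≤ coef x} ∩
      ⋂ p : {p : (Fin n → ℂ) × (Fin n → ℂ) // Lat p.1 ∧ Lat p.2 ∧ Ind p.1 p.2},
        {x | 3 * coef x ≤ S4 (frm (up x)) p.1.1 p.1.2}) := by
    ext x
    simp only [MfQ, Set.mem_inter_iff, Set.mem_iInter, Set.mem_ofPred_eq, Subtype.forall, and_imp,
      Prod.forall]
  rw [h1]
  refine IsClosed.inter (isClosed_iInter fun v => ?_) (IsClosed.inter ?_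
    (isClosed_iInter fun p => ?_))
  · exact isClosed_le continuous_const (continuous_qf v)
  · exact isClosed_le continuous_const continuous_cf
  · refine isClosed_le (continuous_cf.const_mul 3) ?_
    unfold S4
    exact (((continuous_qf _).add (continuous_qf _)).add (continuous_qf _)).add (continuous_qf _)

theorem cone_MfQ {S : Finset (NS (grp G hG))} (hS : ∀ a ∈ S, a ∈ MfQ hG) {x : NS (grp G hG)}
    (hx : x ∈ cone S) : x ∈ MfQ hG :=
  Pool.Agent.Y167.cone_ind (p := fun x => x ∈ MfQ hG) MfQ_zero (fun _ _ h1 h2 => MfQ_add h1 h2)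
    (fun _ _ ht h => MfQ_smul ht h) hS hx

theorem MfQ_of {g : NS (grp G hG) ≃ₗ[ℝ] NS (grp G hG)} {u : (Fin n → ℂ) ≃ₗ[ℂ] (Fin n → ℂ)}
    (hu : ∀ v, Lat v → Lat (u v)) (hp : IsPullback u g) {x : NS (grp G hG)} (hx : x ∈ MfQ hG) :
    g x ∈ MfQ hG := by
  have h3 : ∀ v w, frm (up (g x)) v w = frm (up x) (u v) (u w) := by
    intro v w
    unfold frm
    rw [form_up, form_up, hp.1]
  obtain ⟨k1, k2, k3⟩ := hx
  refine ⟨fun v => ?_, by rw [hp.2]; exact k2, fun v w hv hw hvw => ?_⟩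
  · rw [h3]
    exact k1 _
  · have h4 : S4 (frm (up (g x))) v w = S4 (frm (up x)) (u v) (u w) := by
      unfold S4
      rw [h3, h3, h3, h3, map_add, map_sub, map_smul]
    rw [h4, hp.2]
    refine k3 _ _ (hu v hv) (hu w hw) fun a c hac => hvw a c ?_
    apply u.injective
    rw [map_add, map_smul, map_smul, map_zero]
    exact hac

section three

variable {G : Subgroup ((Fin 3 → ℂ) ≃ₗ[ℂ] (Fin 3 → ℂ))} {hG : PresLat G}

theorem xiQ_apply (x : NS (grp G hG)) : xiQ hG x = ∑ i, (frm (up x) (Pi.single i 1)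
    (Pi.single i 1)).re := rfl

theorem ind_single : Ind (Pi.single 0 1 : Fin 3 → ℂ) (Pi.single 1 1) := by
  intro a c h
  have h0 := congrFun h 0
  have h1 := congrFun h 1
  simp at h0 h1
  exact ⟨h0, h1⟩

theorem coef_le {x : NS (grp G hG)} (hx : x ∈ MfQ hG) : coef x ≤ 2 * xiQ hG x := by
  have h1 := hx.2.2 _ _ (lat_single 0) (lat_single 1) ind_single
  have h2 := S4_le (frm_herm (up x)) hx.1 (Pi.single 0 1) (Pi.single 1 1)
  rw [xiQ_apply, Fin.sum_univ_three]
  have h3 := hx.1 (Pi.single 0 1)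
  have h4 := hx.1 (Pi.single 1 1)
  have h5 := hx.1 (Pi.single 2 1)
  linarith

variable [Fintype G]

/-- The data for the fundamental domain. -/
theorem exists_cdataM {y₀ : NS (grp G hG)} (hy0 : y₀ ∈ integral (grp G hG))
    (hy1 : ∀ u w, frm (up y₀) u w = c0 G * (((2 : ℕ) : ℂ) * avg G std u w))
    (hy2 : coef y₀ = c0 G) :
    ∃ Y : Finset (NS (grp G hG)), CData (LQ hG) (MfQ hG) (xiQ hG) y₀ Y := by
  classical
  obtain ⟨Y, D⟩ := exists_cdata (by norm_num) hy0 hy1 hy2
  have hcc := c0_real (G := G)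
  have hzero : Dat fun _ _ : Fin 3 → ℂ => (0 : ℂ) :=
    ⟨⟨fun _ _ _ => by simp, fun _ _ _ => by simp, fun _ _ => by simp⟩, fun _ _ _ _ => IsEis.zero⟩
  obtain ⟨e, he1, he2', he3'⟩ := exists_cls hG hzero (fun _ _ _ _ => rfl) 1
  have he2 : ∀ v w, frm (up e) v w = 0 := fun v w => by rw [he2', mul_zero]
  have he3 : coef e = c0 G := by rw [he3']; norm_num
  have heL : e ∈ LQ hG := AddSubgroup.subset_closure he1
  have hxe : xiQ hG e = 0 := by
    rw [xiQ_apply]
    exact Finset.sum_eq_zero fun i _ => by rw [he2, Complex.zero_re]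
  have hfx : ∀ (t : ℝ) (x : NS (grp G hG)) (v w : Fin 3 → ℂ),
      frm (up (x - t • e)) v w = frm (up x) v w := by
    intro t x v w
    rw [up_sub, up_smul, frm_sub, frm_smul, he2, mul_zero, sub_zero]
  have hcx : ∀ (t : ℝ) (x : NS (grp G hG)), coef (x - t • e) = coef x - t * c0 G := by
    intro t x
    have : coef (x - t • e) = coef x - t * coef e := rfl
    rw [this, he3]
  have hN : ∀ x ∈ MfQ hG, x - (coef x / c0 G) • e ∈ NfQ hG := by
    intro x hx
    refine ⟨fun v => ?_, ?_, fun v _ _ => ?_⟩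
    · rw [hfx]
      exact hx.1 v
    · rw [coef_up, hcx, div_mul_cancel₀ _ hcc.ne', sub_self]
    · rw [coef_up, hcx, hfx, div_mul_cancel₀ _ hcc.ne', sub_self]
      exact hx.1 v
  have hxi : ∀ (t : ℝ) (x : NS (grp G hG)), xiQ hG (x - t • e) = xiQ hG x := by
    intro t x
    rw [map_sub, map_smul, hxe, smul_zero, sub_zero]
  refine ⟨Y, { add := fun x hx y hy => MfQ_add hx hy
               smul := fun t ht x hx => MfQ_smul ht hx
               xi_int := D.xi_int
               xi_pos := fun x hx hx0 => ?_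
               fin := fun C => ?_
               y_L := D.y_L
               y_N := NfQ_le D.y_N
               y_int := fun x => ?_
               dom := fun η => ?_
               sep := D.sep
               Y_mem := fun y hy => ⟨(D.Y_mem y hy).1, NfQ_le (D.Y_mem y hy).2⟩
               Y_span := D.Y_span }⟩
  · rw [← hxi (coef x / c0 G)]
    refine D.xi_pos _ (hN x hx) fun h0 => hx0 ?_
    have h1 : ∀ v w, frm (up x) v w = 0 := by
      intro v w
      rw [← hfx (coef x / c0 G), h0, up_zero, frm_zero]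
    have h2 := hx.2.2 _ _ (lat_single 0) (lat_single 1) ind_single
    have h3 : S4 (frm (up x)) (Pi.single 0 1) (Pi.single 1 1) = 0 := by
      unfold S4
      rw [h1, h1, h1, h1]
      norm_num
    have h4 : coef x = 0 := le_antisymm (by linarith) hx.2.1
    refine NS_ext (fun u w => ?_) ?_
    · rw [h1, up_zero, frm_zero]
    · rw [h4, coef_zero]
  · have hA := D.fin (c0 G * C)
    obtain ⟨M, hM⟩ := exists_nat_ge (2 * C)
    have hB : ((fun k : ℕ => (k : ℝ)) '' {k | k ≤ M}).Finite := (Set.finite_le_nat M).image _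
    let f : NS (grp G hG) → NS (grp G hG) × ℝ := fun x =>
      ((c0 G : ℝ) • x - coef x • e, coef x)
    have hf : Function.Injective f := by
      intro x y hxy
      have h1 : (c0 G : ℝ) • x - coef x • e = (c0 G : ℝ) • y - coef y • e :=
        congrArg (Prod.fst (α := NS (grp G hG)) (β := ℝ)) hxy
      have h2 : coef x = coef y := congrArg (Prod.snd (α := NS (grp G hG)) (β := ℝ)) hxy
      rw [h2] at h1
      have h3 : (c0 G : ℝ) • x = (c0 G : ℝ) • y := sub_left_injective h1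
      exact smul_right_injective _ hcc.ne' h3
    refine ((hA.prod hB).preimage hf.injOn).subset ?_
    rintro x ⟨hxL, hxM, hxC⟩
    obtain ⟨Dx, k, hk⟩ := dat_of_LQ hxL
    have hk0 : 0 ≤ k := by
      have := hxM.2.1
      rw [hk] at this
      exact_mod_cast this
    obtain ⟨b, rfl⟩ := Int.eq_ofNat_of_zero_le hk0
    have hk' : coef x = (b : ℝ) := by rw [hk]; simp
    have e1 : (c0 G : ℝ) • x - coef x • e = (c0 G : ℝ) • (x - (coef x / c0 G) • e) := by
      rw [smul_sub, smul_smul]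
      congr 2
      field_simp
    refine ⟨⟨?_, ?_, ?_⟩, ?_⟩
    · change (c0 G : ℝ) • x - coef x • e ∈ LQ hG
      rw [hk', Nat.cast_smul_eq_nsmul, Nat.cast_smul_eq_nsmul]
      exact AddSubgroup.sub_mem _ (AddSubgroup.nsmul_mem _ hxL _) (AddSubgroup.nsmul_mem _ heL _)
    · change (c0 G : ℝ) • x - coef x • e ∈ NfQ hG
      rw [e1]
      exact NfQ_smul hcc.le (hN x hxM)
    · change xiQ hG ((c0 G : ℝ) • x - coef x • e) ≤ c0 G * C
      rw [hxi, map_smul, smul_eq_mul]
      exact mul_le_mul_of_nonneg_left hxC hcc.le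
    · refine ⟨b, ?_, hk'.symm⟩
      have h1 := coef_le hxM
      rw [hk'] at h1
      have h2 : (b : ℝ) ≤ M := by linarith
      exact_mod_cast h2
  · obtain ⟨C, hC, h1⟩ := D.y_int x
    exact ⟨C, hC, NfQ_le h1⟩
  · obtain ⟨C, hC⟩ := D.dom η
    refine ⟨C + 2 * |η e| / c0 G, fun x hx => ?_⟩
    have h1 := hC _ (hN x hx)
    rw [hxi] at h1
    have h2 : η x = η (x - (coef x / c0 G) • e) + coef x / c0 G * η e := by
      rw [map_sub, map_smul, smul_eq_mul]
      ring
    have h3 := coef_le hx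
    have h4 : |coef x / c0 G * η e| ≤ 2 * |η e| / c0 G * xiQ hG x := by
      rw [abs_mul, abs_of_nonneg (div_nonneg hx.2.1 hcc.le)]
      have h5 : coef x * |η e| ≤ 2 * xiQ hG x * |η e| :=
        mul_le_mul_of_nonneg_right h3 (abs_nonneg _)
      have e2 : 2 * |η e| / c0 G * xiQ hG x = (2 * xiQ hG x * |η e|) / c0 G := by ring
      have e3 : coef x / c0 G * |η e| = (coef x * |η e|) / c0 G := by ring
      rw [e2, e3]
      exact div_le_div_of_nonneg_right h5 hcc.le
    rw [h2]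
    refine (abs_add_le _ _).trans ?_
    rw [add_mul]
    exact add_le_add h1 h4

end three

end Pool.Agent.H899.MK
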