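import Pool.Agent.H899.MK.Cd

/-! The covering for the cone of the movable classes. -/

set_option autoImplicit false
set_option maxHeartbeats 400000

namespace Pool.Agent.H899.MK

open Filter Topology
open Pool.Agent.W594.SYZ2 (IsHermitian)
open Pool.Agent.R895 (Lat IsEis std frm kap Nf Dat om N1 kum frm_add frm_smul frm_sub frm_zero
  frm_herm Normalizes cut_int)
open Pool.Agent.T6.H34.EK
open Pool.Agent.Y167 (AffGrp cone CData cone_ind cone_add cone_smul cone_sum cone_le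
  mem_cone_self mem_cone_of_sum zero_mem_cone cone_cut cone_image)

variable {n : ℕ}

theorem S4_val {z : (Fin n → ℂ) → (Fin n → ℂ) → ℂ} (D : Dat z) {v w : Fin n → ℂ} (hv : Lat v)
    (hw : Lat w) : ∃ k : ℤ, S4 z v w = k := by
  obtain ⟨k1, h1⟩ := D.val hv
  obtain ⟨k2, h2⟩ := D.val hw
  obtain ⟨k3, h3⟩ := D.val (v := v + w) fun i => (hv i).add (hw i)
  obtain ⟨k4, h4⟩ := D.val (v := v - om • w) fun i => (hv i).sub (lat_om hw i)
  refine ⟨k1 + k2 + k3 + k4, ?_⟩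
  unfold S4
  rw [h1, h2, h3, h4]
  push_cast
  rfl

theorem S4_nonneg {z : (Fin n → ℂ) → (Fin n → ℂ) → ℂ} (hp : ∀ v, 0 ≤ (z v v).re)
    (v w : Fin n → ℂ) : 0 ≤ S4 z v w := by
  unfold S4
  have := hp v
  have := hp w
  have := hp (v + w)
  have := hp (v - om • w)
  linarith

/-- Finitely many pairs of lattice vectors are enough. -/
theorem exists_pairs (F : Finset ((Fin n → ℂ) → (Fin n → ℂ) → ℂ))
    (hF : ∀ z ∈ F, Dat z ∧ ∀ v, 0 ≤ (z v v).re) :
    ∃ T : Finset ((Fin n → ℂ) × (Fin n → ℂ)), (∀ p ∈ T, Lat p.1 ∧ Lat p.2 ∧ Ind p.1 p.2) ∧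
      ∀ v w : Fin n → ℂ, Lat v → Lat w → Ind v w →
        ∃ p ∈ T, ∀ z ∈ F, S4 z p.1 p.2 ≤ S4 z v w := by
  classical
  let en := F.equivFin
  let val : {p : (Fin n → ℂ) × (Fin n → ℂ) // Lat p.1 ∧ Lat p.2 ∧ Ind p.1 p.2} →
      (Fin F.card → ℕ) := fun p i => ⌊S4 (en.symm i).1 p.1.1 p.1.2⌋₊
  have hval : ∀ (p : {p : (Fin n → ℂ) × (Fin n → ℂ) // Lat p.1 ∧ Lat p.2 ∧ Ind p.1 p.2})
      (i : Fin F.card), ((val p i : ℕ) : ℝ) = S4 (en.symm i).1 p.1.1 p.1.2 := by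
    intro p i
    obtain ⟨hD, hpos⟩ := hF _ (en.symm i).2
    obtain ⟨k, hk⟩ := S4_val hD p.2.1 p.2.2.1
    have h0 := S4_nonneg hpos p.1.1 p.1.2
    simp only [val]
    rw [hk] at h0 ⊢
    have h2 : 0 ≤ k := by exact_mod_cast h0
    obtain ⟨m, rfl⟩ := Int.eq_ofNat_of_zero_le h2
    simp
  obtain ⟨T, hT, hTv⟩ := Pool.Agent.Y167.dickson val
  refine ⟨(hT.image Subtype.val).toFinset, fun t ht => ?_, fun v w hv hw hvw => ?_⟩
  · rw [Set.Finite.mem_toFinset] at ht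
    obtain ⟨t, -, rfl⟩ := ht
    exact t.2
  · obtain ⟨t, ht, hle⟩ := hTv ⟨(v, w), hv, hw, hvw⟩
    refine ⟨t.1, (Set.Finite.mem_toFinset _).2 ⟨t, ht, rfl⟩, fun z hz => ?_⟩
    have h1 := hle (en ⟨z, hz⟩)
    have h2 : ((val t (en ⟨z, hz⟩) : ℕ) : ℝ) ≤ (val ⟨(v, w), hv, hw, hvw⟩ (en ⟨z, hz⟩) : ℕ) := by
      exact_mod_cast h1
    rw [hval, hval, Equiv.symm_apply_apply] at h2
    exact h2

variable {G : Subgroup ((Fin n → ℂ) ≃ₗ[ℂ] (Fin n → ℂ))} {hG : PresLat G}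

section gens

variable [Fintype G] {F : Finset ((Fin n → ℂ) → (Fin n → ℂ) → ℂ)}
  {y : ((Fin n → ℂ) → (Fin n → ℂ) → ℂ) → NS (grp G hG)} {e : NS (grp G hG)}

omit [Fintype G] in
theorem S4_add (x x' : NS (grp G hG)) (v w : Fin n → ℂ) :
    S4 (frm (up (x + x'))) v w = S4 (frm (up x)) v w + S4 (frm (up x')) v w := by
  have h1 := map_add (psi hG (v, w)) x x'
  rw [psi_apply, psi_apply, psi_apply, coef_add] at h1
  linarith

omit [Fintype G] in
theorem S4_smul (t : ℝ) (x : NS (grp G hG)) (v w : Fin n → ℂ) :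
    S4 (frm (up (t • x))) v w = t * S4 (frm (up x)) v w := by
  have h1 := map_smul (psi hG (v, w)) t x
  rw [psi_apply, psi_apply, coef_smul, smul_eq_mul] at h1
  linarith

theorem S4_eq {h h' : (Fin n → ℂ) → (Fin n → ℂ) → ℂ} {c : ℝ}
    (hh : ∀ v, (h v v).re = c * (h' v v).re) (v w : Fin n → ℂ) : S4 h v w = c * S4 h' v w := by
  unfold S4
  rw [hh, hh, hh, hh]
  ring

theorem cone_props4 [DecidableEq (NS (grp G hG))] (hF : ∀ z ∈ F, Dat z ∧ ∀ v, 0 ≤ (z v v).re)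
    (hy2 : ∀ z ∈ F, ∀ v w, frm (up (y z)) v w = c0 G * z v w)
    (hy3 : ∀ z ∈ F, coef (y z) = 0)
    (he2 : ∀ v w, frm (up e) v w = 0) (he3 : coef e = c0 G) {a : NS (grp G hG)}
    (ha : a ∈ cone (insert e (F.image y))) : (∀ v, 0 ≤ (frm (up a) v v).re) ∧ 0 ≤ coef a ∧
      ∀ v w v' w' : Fin n → ℂ, (∀ z ∈ F, S4 z v' w' ≤ S4 z v w) →
        S4 (frm (up a)) v' w' ≤ S4 (frm (up a)) v w := by
  have hc0 := c0_real (G := G)
  refine cone_ind (p := fun a => (∀ v, 0 ≤ (frm (up a) v v).re) ∧ 0 ≤ coef a ∧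
    ∀ v w v' w' : Fin n → ℂ, (∀ z ∈ F, S4 z v' w' ≤ S4 z v w) →
      S4 (frm (up a)) v' w' ≤ S4 (frm (up a)) v w) ?_ ?_ ?_ ?_ ha
  · refine ⟨fun v => ?_, le_of_eq coef_zero.symm, fun v w v' w' _ => ?_⟩
    · rw [up_zero, frm_zero, Complex.zero_re]
    · unfold S4
      simp only [up_zero, frm_zero, Complex.zero_re, le_refl]
  · rintro x y ⟨h1, h2, h3⟩ ⟨k1, k2, k3⟩
    refine ⟨fun v => ?_, by rw [coef_add]; exact add_nonneg h2 k2, fun v w v' w' hwt => ?_⟩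
    · rw [up_add, frm_add, Complex.add_re]
      exact add_nonneg (h1 v) (k1 v)
    · rw [S4_add, S4_add]
      exact add_le_add (h3 v w v' w' hwt) (k3 v w v' w' hwt)
  · rintro s x hs ⟨h1, h2, h3⟩
    refine ⟨fun v => ?_, by rw [coef_smul]; exact mul_nonneg hs h2, fun v w v' w' hwt => ?_⟩
    · rw [up_smul, frm_smul, Complex.re_ofReal_mul]
      exact mul_nonneg hs (h1 v)
    · rw [S4_smul, S4_smul]
      exact mul_le_mul_of_nonneg_left (h3 v w v' w' hwt) hs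
  · intro a ha
    rcases Finset.mem_insert.1 ha with rfl | h
    · refine ⟨fun v => ?_, by rw [he3]; exact hc0.le, fun v w v' w' _ => ?_⟩
      · rw [he2, Complex.zero_re]
      · unfold S4
        simp only [he2, Complex.zero_re, le_refl]
    · obtain ⟨z, hz, rfl⟩ := Finset.mem_image.1 h
      have hzz : ∀ v, (frm (up (y z)) v v).re = c0 G * (z v v).re := fun v => by
        rw [hy2 z hz, re_c0]
      refine ⟨fun v => ?_, by rw [hy3 z hz], fun v w v' w' hwt => ?_⟩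
      · rw [hzz]
        exact mul_nonneg hc0.le ((hF z hz).2 v)
      · rw [S4_eq hzz, S4_eq hzz]
        exact mul_le_mul_of_nonneg_left (hwt z hz) hc0.le

end gens

/-- The classes of `MfQ` whose forms are spanned by finitely many given forms. -/
theorem exists_cut [Fintype G] [Nonempty (Fin n)] (hG : PresLat G)
    (F : Finset ((Fin n → ℂ) → (Fin n → ℂ) → ℂ))
    (hF' : ∀ z ∈ F, (Dat z ∧ ∀ v, 0 ≤ (z v v).re) ∧ Inv G z) :
    ∃ F₁ : Finset (NS (grp G hG)), (∀ a ∈ F₁, a ∈ LQ hG ∧ a ∈ MfQ hG) ∧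
      ∀ x ∈ MfQ hG, ∀ c : ((Fin n → ℂ) → (Fin n → ℂ) → ℂ) → ℝ, (∀ z, 0 ≤ c z) →
        (∀ v w, frm (up x) v w = ∑ z ∈ F, (c z : ℂ) * z v w) → x ∈ cone F₁ := by
  classical
  have hF : ∀ z ∈ F, Dat z ∧ ∀ v, 0 ≤ (z v v).re := fun z hz => (hF' z hz).1
  choose! y hy1 hy2 hy3' using fun z (hz : z ∈ F) => exists_cls hG (hF z hz).1 (hF' z hz).2 0
  have hy3 : ∀ z ∈ F, coef (y z) = 0 := fun z hz => by rw [hy3' z hz]; norm_num
  have hzero : Dat fun _ _ : Fin n → ℂ => (0 : ℂ) :=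
    ⟨⟨fun _ _ _ => by simp, fun _ _ _ => by simp, fun _ _ => by simp⟩, fun _ _ _ _ => IsEis.zero⟩
  obtain ⟨e, he1, he2', he3'⟩ := exists_cls hG hzero (fun _ _ _ _ => rfl) 1
  have he2 : ∀ v w, frm (up e) v w = 0 := fun v w => by rw [he2', mul_zero]
  have he3 : coef e = c0 G := by rw [he3']; norm_num
  obtain ⟨T, hT, hTle⟩ := exists_pairs F hF
  have hS₀L : ∀ a ∈ insert e (F.image y), a ∈ LQ hG := by
    intro a ha
    rcases Finset.mem_insert.1 ha with rfl | h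
    · exact AddSubgroup.subset_closure he1
    · obtain ⟨z, hz, rfl⟩ := Finset.mem_image.1 h
      exact AddSubgroup.subset_closure (hy1 z hz)
  obtain ⟨S', hS', hS'c⟩ := cut_int (insert e (F.image y)) hS₀L (T.image (psi hG)) (by
    intro φ hφ x hx
    obtain ⟨t, ht, rfl⟩ := Finset.mem_image.1 hφ
    obtain ⟨D, n, hn⟩ := dat_of_LQ hx
    obtain ⟨k, hk⟩ := S4_val D (hT t ht).1 (hT t ht).2.1
    exact ⟨k - 3 * n, by
      rw [show t = (t.1, t.2) from rfl, psi_apply, hk, hn]; push_cast; rfl⟩)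
  refine ⟨S', fun a ha => ⟨hS' a ha, ?_⟩, ?_⟩
  · obtain ⟨h1, h2⟩ := (hS'c a).1 (mem_cone_self ha)
    obtain ⟨k1, k2, k3⟩ := cone_props4 hF hy2 hy3 he2 he3 h1
    refine ⟨k1, k2, fun v w hv hw hvw => ?_⟩
    obtain ⟨t, ht, hle⟩ := hTle v w hv hw hvw
    refine le_trans ?_ (k3 v w t.1 t.2 hle)
    have h3 := h2 _ (Finset.mem_image_of_mem (psi hG) ht)
    rw [show t = (t.1, t.2) from rfl, psi_apply] at h3
    linarith
  · intro x hx c hc hsum
    have h1 := eq_sum hy2 hy3 he2 he3 c hsum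
    have hcc := c0_real (G := G)
    refine (hS'c _).2 ⟨?_, fun φ hφ => ?_⟩
    · rw [h1]
      refine cone_add (cone_smul (mem_cone_self (Finset.mem_insert_self _ _))
        (div_nonneg hx.2.1 hcc.le))
        (mem_cone_of_sum F _ _ (fun z hz => Finset.mem_insert_of_mem
          (Finset.mem_image_of_mem _ hz)) fun z _ => div_nonneg (hc z) hcc.le)
    · obtain ⟨t, ht, rfl⟩ := Finset.mem_image.1 hφ
      exact psi_nonneg hx (hT t ht).1 (hT t ht).2.1 (hT t ht).2.2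

/-- **The covering.** -/
theorem coveringM [Fintype G] [Nonempty (Fin n)] (hG : PresLat G) :
    ∃ F₁ : Finset (NS (grp G hG)),
      (∀ a ∈ F₁, a ∈ LQ hG ∧ a ∈ MfQ hG) ∧
      ∀ x ∈ MfQ hG, (∃ t : ℝ, 0 < t ∧ ∀ v, t * (std v v).re ≤ (frm (up x) v v).re) →
        ∃ g u, IsPb hG g u ∧ g x ∈ cone F₁ := by
  classical
  obtain ⟨F, hF', hred⟩ := red_cls hG
  obtain ⟨F₁, h1, h2⟩ := exists_cut hG F hF'
  refine ⟨F₁, h1, fun x hx hpd => ?_⟩
  obtain ⟨u, hu1, hu2, hu3, c, hc, hsum⟩ := hred x hpd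
  have hu3' : ∀ g ∈ G, ∀ v, u.symm (g v) = g (u.symm v) := fun g hg v => by
    apply u.injective
    rw [u.apply_symm_apply, hu3 g hg, u.apply_symm_apply]
  have hu1' : ∀ v, Lat v → Lat (u.symm.symm v) := fun v hv => by
    rw [LinearEquiv.symm_symm]; exact hu1 v hv
  have hnm : Normalizes (grp G hG) u.symm := normalizes_of hu2 hu1' hu3'
  obtain ⟨g, g1, g2, g3, g4⟩ := exists_pull hnm
  have hg : IsPb hG g u.symm := ⟨hnm, hu2, hu1', g1, g2, g3, g4⟩
  refine ⟨g, u.symm, hg, h2 _ (MfQ_of hu2 g1 hx) c hc fun v w => ?_⟩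
  have h2 : frm (up (g x)) v w = frm (up x) (u.symm v) (u.symm w) := by
    unfold frm
    rw [form_up, form_up, g1.1]
  rw [h2, hsum]
  refine Finset.sum_congr rfl fun z _ => ?_
  rw [u.apply_symm_apply, u.apply_symm_apply]

/-- The effective classes in `MfQ` are spanned by integral classes of `MfQ`. -/
theorem Cp_of_eff [Fintype G] [Nonempty (Fin n)] {x : NS (grp G hG)} (hx : x ∈ MfQ hG)
    (he : x ∈ effCone (grp G hG)) : x ∈ Pool.Agent.Y167.Cp (LQ hG) (MfQ hG) := by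
  classical
  obtain ⟨S, hS, c, hc, hxc⟩ := he
  have hin : ∀ a ∈ S, (Dat (frm (up a)) ∧ ∀ v, 0 ≤ (frm (up a) v v).re) ∧
      Inv G (frm (up a)) := by
    intro a ha
    have ha' := hS ha
    obtain ⟨L, s, hL, hs, h0⟩ := hS ha
    refine ⟨⟨(dat_of_LQ (AddSubgroup.subset_closure ⟨L, hL⟩)).1, ?_⟩, frm_inv a⟩
    exact Pool.Agent.R895.effective_psd (Pool.Agent.R895.id_isExt n) (up_effective ha')
  obtain ⟨F₁, h1, h2⟩ := exists_cut hG (S.image fun a => frm (up a)) (by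
    intro z hz
    obtain ⟨a, ha, rfl⟩ := Finset.mem_image.1 hz
    exact hin a ha)
  have hup : ∀ (s : Finset (NS (grp G hG))) (v w : Fin n → ℂ),
      frm (up (∑ a ∈ s, c a • a)) v w = ∑ a ∈ s, (c a : ℂ) * frm (up a) v w := by
    intro s v w
    induction s using Finset.induction_on with
    | empty => rw [Finset.sum_empty, Finset.sum_empty, up_zero, frm_zero]
    | insert a s ha ih =>
      rw [Finset.sum_insert ha, Finset.sum_insert ha, up_add, frm_add, ih, up_smul, frm_smul]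
  refine ⟨F₁, h1, h2 x hx (fun z => ∑ a ∈ S with frm (up a) = z, c a)
    (fun z => Finset.sum_nonneg fun a ha => hc a) fun v w => ?_⟩
  rw [hxc, hup]
  symm
  refine Finset.sum_image' _ fun i hi => ?_
  push_cast
  rw [Finset.sum_mul]
  exact Finset.sum_congr rfl fun j hj => by rw [(Finset.mem_filter.1 hj).2]

end Pool.Agent.H899.MK
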