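import Pool.Agent.H899.MK.Ar5
import Pool.Graph.R_pool_sql_team_seeded_47a924f7.T6.H34.EK.Main

/-! Decompositions which avoid the multiples of a linear function. -/

set_option autoImplicit false

namespace Pool.Agent.H899.MK

open Matrix hiding IsHermitian
open Filter Topology
open Pool.Agent.R895
open Pool.Agent.W594.SYZ2 (IsHermitian)
open Pool.Agent.W594.SYZ2.TQ (h_add_right h_smul_right h_zero_left h_zero_right)

variable {n : ℕ}

/-- The sum of the values of the form at the four vectors given by `v` and `w`. -/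
noncomputable def S4 (h : (Fin n → ℂ) → (Fin n → ℂ) → ℂ) (v w : Fin n → ℂ) : ℝ :=
  (h v v).re + (h w w).re + (h (v + w) (v + w)).re + (h (v - om • w) (v - om • w)).re

theorem Mc.of_form {h : (Fin n → ℂ) → (Fin n → ℂ) → ℂ} (hh : IsHermitian h) {c : ℝ}
    (hc : ∀ v w : Fin n → ℂ, Lat v → Lat w → Ind v w → 3 * c ≤ S4 h v w) :
    Mc (Matrix.of (mx h)) c := by
  intro v w hv hw hvw
  have hoo : om * om = -1 - om := om_sq
  have hco : (starRingEnd ℂ) om = -1 - om := conj_om
  have hs : ∀ z : ℂ, star z = (starRingEnd ℂ) z := fun _ => rfl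
  have h1 := hc (star v) ((1 + om) • star w) (lat_star hv)
    (fun i => (IsEis.one.add IsEis.omega).mul (lat_star hw i)) (by
      intro a d had
      have h2 : star a • v + ((1 + (starRingEnd ℂ) om) * star d) • w = 0 := by
        have h3 := congrArg star had
        rw [star_add, star_smul, star_smul, star_smul, star_star, star_star, star_zero,
          smul_smul, hs (1 + om), map_add, map_one] at h3
        rw [mul_comm]
        exact h3
      obtain ⟨k1, k2⟩ := hvw _ _ h2
      refine ⟨star_eq_zero.1 k1, ?_⟩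
      rcases mul_eq_zero.1 k2 with k3 | k3
      · exfalso
        rw [hco] at k3
        have : om = 0 := by linear_combination -k3
        exact om_ne_zero this
      · exact star_eq_zero.1 k3)
  unfold S4 at h1
  rw [mx_q hh, mx_q hh, mx_q hh, mx_q hh]
  have e1 : h ((1 + om) • star w) ((1 + om) • star w) = h (star w) (star w) := by
    rw [hh.smul_left, h_smul_right hh, ← mul_assoc]
    have : (1 + om) * (starRingEnd ℂ) (1 + om) = 1 := by
      rw [map_add, map_one, hco]
      linear_combination -hoo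
    rw [this, one_mul]
  have e2 : star v + (1 + om) • star w = star (v - om • w) := by
    rw [star_sub, star_smul, hs om, hco]
    module
  have e3 : star v - om • (1 + om) • star w = star (v + w) := by
    rw [star_add, smul_smul]
    have : om * (1 + om) = -1 := by linear_combination hoo
    rw [this]
    module
  rw [e1, e2, e3] at h1
  linarith

theorem Mc.scale {K K' : Matrix (Fin n) (Fin n) ℂ} {b t : ℝ} (h : Mc K b) (ht : 0 ≤ t)
    (hK : ∀ v, t * q K v ≤ q K' v) : Mc K' (t * b) := by
  intro v w hv hw hvw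
  have h1 := mul_le_mul_of_nonneg_left (h v w hv hw hvw) ht
  have := hK v
  have := hK w
  have := hK (v + w)
  have := hK (v - om • w)
  linarith

/-- The decompositions which avoid the multiples of `l`. -/
theorem dec_line {h : (Fin 3 → ℂ) → (Fin 3 → ℂ) → ℂ} (D : Dat h)
    (hp : ∀ v, v ≠ 0 → 0 < (h v v).re) (b : ℕ) {c : ℝ} (hbc : (b : ℝ) < c)
    (hc : ∀ v w : Fin 3 → ℂ, Lat v → Lat w → Ind v w → 3 * c ≤ S4 h v w)
    {l : Fin 3 → ℂ} (hl : Lat l) (hl0 : l ≠ 0) : Dec h b {x | ∃ a : ℂ, x = a • l} := by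
  have hb0 : (0 : ℝ) ≤ b := Nat.cast_nonneg b
  have hc0 : 0 < c := lt_of_le_of_lt hb0 hbc
  obtain ⟨δ, hδ⟩ : ∃ δ : ℝ, δ = (c - b) / (2 * c) := ⟨_, rfl⟩
  have hδ0 : 0 < δ := by rw [hδ]; exact div_pos (by linarith) (by linarith)
  have hδ1 : δ < 1 := by
    rw [hδ, div_lt_one (by linarith)]
    linarith
  have hδc : (1 - δ) * c = (c + b) / 2 := by
    rw [hδ]
    field_simp
    ring
  obtain ⟨k, hk, hpd, hq⟩ := (D.pd hp).shrink hδ0 hδ1
  refine dec_of_RC (mem_RC (J := {x | ∃ a : ℂ, x = a • l}) (mx_herm D.herm) (mx_eis D.int) hk hpd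
    (g := (c + b) / 2) (by linarith) fun M hM hM1 => ?_) (herm_mx D.herm)
  rw [← hδc]
  refine three_dim hM hpd ((Mc.of_form D.herm hc).scale (by linarith) hq) hl hl0
    fun v hv hvl => hM1 v hv ?_
  rintro ⟨a, ha⟩
  exact hvl a ha

end Pool.Agent.H899.MK
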