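import Pool.Agent.H899.MK.Ar5
import Pool.Graph.R_seed8.H575R2.Farkas

/-! Real decompositions into squares of integral linear functions. -/

set_option autoImplicit false

namespace Pool.Agent.H899.MK

open Matrix Filter Topology
open Pool.Agent.R895

variable {n : ℕ}

theorem trace_dd {D H : Matrix (Fin n) (Fin n) ℂ} (hH : H.IsHermitian) :
    ((D + Dᴴ) * H).trace.re = 2 * (D * H).trace.re := by
  have h1 : (Dᴴ * H).trace = star (D * H).trace := by
    rw [← trace_conjTranspose, conjTranspose_mul, hH.eq, trace_mul_comm]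
  rw [Matrix.add_mul, trace_add, h1, Complex.add_re]
  have h2 : (star (D * H).trace).re = (D * H).trace.re := rfl
  rw [h2]
  ring

theorem q_dd (D : Matrix (Fin n) (Fin n) ℂ) (v : Fin n → ℂ) : q (D + Dᴴ) v = 2 * q D v := by
  rw [q_add]
  have h1 : q Dᴴ v = q D v := by
    unfold q
    have h2 : star v ⬝ᵥ (Dᴴ *ᵥ v) = star (star v ⬝ᵥ (D *ᵥ v)) := by
      have h3 : star (star v ⬝ᵥ (D *ᵥ v)) = star (D *ᵥ v) ⬝ᵥ v := by
        rw [star_dotProduct, dotProduct_comm, star_star]
      rw [h3, star_mulVec, dotProduct_mulVec]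
    rw [h2]
    rfl
  rw [h1]
  ring

theorem mat_ext_re {X : Matrix (Fin n) (Fin n) ℂ} (h : (Xᴴ * X).trace.re = 0) : X = 0 := by
  have h1 : (Xᴴ * X).trace.re = ∑ i, ∑ j, Complex.normSq (X j i) := by
    rw [Matrix.trace, Complex.re_sum]
    refine Finset.sum_congr rfl fun i _ => ?_
    rw [diag_apply, mul_apply, Complex.re_sum]
    refine Finset.sum_congr rfl fun j _ => ?_
    rw [conjTranspose_apply]
    have : star (X j i) * X j i = ((Complex.normSq (X j i) : ℝ) : ℂ) :=
      Complex.normSq_eq_conj_mul_self.symm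
    rw [this, Complex.ofReal_re]
  rw [h1] at h
  ext i j
  have h2 := (Finset.sum_eq_zero_iff_of_nonneg fun i _ => Finset.sum_nonneg fun j _ =>
    Complex.normSq_nonneg (X j i)).1 h j (Finset.mem_univ _)
  have h3 := (Finset.sum_eq_zero_iff_of_nonneg fun i _ => Complex.normSq_nonneg (X i j)).1 h2 i
    (Finset.mem_univ _)
  exact Complex.normSq_eq_zero.1 h3

/-- **Decompositions.** -/
theorem real_dec {H : Matrix (Fin n) (Fin n) ℂ} (hH : Pd H) {b : ℝ}
    (hb : ∀ M : Matrix (Fin n) (Fin n) ℂ, Psd M → (∀ v, IsLat v → v ≠ 0 → 1 ≤ q M v) →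
      b ≤ (M * H).trace.re) :
    ∃ (m : ℕ) (L : Fin m → Fin n → ℂ) (w : Fin m → ℝ), (∀ i, IsLat (L i) ∧ L i ≠ 0) ∧
      (∀ i, 0 ≤ w i) ∧ H = ∑ i, (w i : ℂ) • vecMulVec (L i) (star (L i)) ∧ b ≤ ∑ i, w i := by
  classical
  obtain ⟨M, hM, hmin⟩ := exists_minimizer (β := fun _ : Fin n → ℂ => 1) (fun _ => le_rfl) hH
  have hpd := pd_of_lat hM.1 one_pos hM.2
  obtain ⟨c, hc, hlow⟩ := hpd.lower
  have hS : {v : Fin n → ℂ | IsLat v ∧ v ≠ 0 ∧ q M v = 1}.Finite := by
    refine (finite_lat (1 / c)).subset ?_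
    rintro x ⟨h1, -, h2⟩
    refine ⟨h1, ?_⟩
    rw [le_div_iff₀ hc, mul_comm]
    exact (hlow x).trans h2.le
  obtain ⟨S, hSd⟩ : ∃ S, S = hS.toFinset := ⟨_, rfl⟩
  have hSm : ∀ v, v ∈ S ↔ IsLat v ∧ v ≠ 0 ∧ q M v = 1 := by
    intro v
    rw [hSd, Set.Finite.mem_toFinset]
    rfl
  obtain ⟨L, hL⟩ : ∃ L : Fin S.card → Fin n → ℂ, L = fun i => (S.equivFin.symm i : Fin n → ℂ) :=
    ⟨_, rfl⟩
  have hLS : ∀ i, L i ∈ S := fun i => by rw [hL]; exact (S.equivFin.symm i).2
  have hLs : ∀ v ∈ S, ∃ i, L i = v := fun v hv => ⟨S.equivFin ⟨v, hv⟩, by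
    rw [hL]
    simp⟩
  let ℓ : Fin S.card → (Matrix (Fin n) (Fin n) ℂ →ₗ[ℝ] ℝ) := fun i =>
    { toFun := fun D => -q D (L i)
      map_add' := fun D E => by rw [q_add]; ring
      map_smul' := fun t D => by
        have : t • D = (t : ℂ) • D := by
          ext i j
          rw [Matrix.smul_apply, Matrix.smul_apply, Complex.real_smul, smul_eq_mul]
        rw [this, q_smul, RingHom.id_apply, smul_eq_mul]
        ring }
  let f : Matrix (Fin n) (Fin n) ℂ →ₗ[ℝ] ℝ :=
    { toFun := fun D => -(D * H).trace.re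
      map_add' := fun D E => by rw [Matrix.add_mul, trace_add, Complex.add_re]; ring
      map_smul' := fun t D => by
        have : t • D = (t : ℂ) • D := by
          ext i j
          rw [Matrix.smul_apply, Matrix.smul_apply, Complex.real_smul, smul_eq_mul]
        rw [this, Matrix.smul_mul, trace_smul, smul_eq_mul, Complex.re_ofReal_mul,
          RingHom.id_apply, smul_eq_mul]
        ring }
  obtain ⟨w, hw, hf⟩ := H575R2.farkas_lin S.card ℓ f (by
    intro D hD
    have hD' : ∀ i, 0 ≤ q D (L i) := fun i => by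
      have : -q D (L i) ≤ 0 := hD i
      linarith
    have h1 := first_order one_pos (fun _ => le_rfl) (fun _ => le_rfl) hM hmin (D := D + Dᴴ) (by
      unfold IsHermitian
      rw [conjTranspose_add, conjTranspose_conjTranspose, add_comm]) (by
        intro v hv hv0 hact
        obtain ⟨i, hi⟩ := hLs v ((hSm v).2 ⟨hv, hv0, hact⟩)
        rw [q_dd, ← hi]
        have := hD' i
        linarith)
    rw [trace_dd hH.1] at h1
    show -(D * H).trace.re ≤ 0
    linarith)
  have hf' : ∀ D : Matrix (Fin n) (Fin n) ℂ, (D * H).trace.re = ∑ i, w i * q D (L i) := by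
    intro D
    have h1 : -(D * H).trace.re = ∑ i, w i * -q D (L i) := hf D
    simp only [mul_neg, Finset.sum_neg_distrib, neg_inj] at h1
    exact h1
  have htr : ∀ D : Matrix (Fin n) (Fin n) ℂ,
      (D * ∑ i, (w i : ℂ) • vecMulVec (L i) (star (L i))).trace.re = ∑ i, w i * q D (L i) := by
    intro D
    rw [Finset.mul_sum, trace_sum, Complex.re_sum]
    refine Finset.sum_congr rfl fun i _ => ?_
    rw [Matrix.mul_smul, trace_smul, smul_eq_mul, Complex.re_ofReal_mul, trace_mul_comm, trace_vec]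
    rfl
  refine ⟨S.card, L, w, fun i => ⟨((hSm _).1 (hLS i)).1, ((hSm _).1 (hLS i)).2.1⟩, hw, ?_, ?_⟩
  · rw [← sub_eq_zero]
    apply mat_ext_re
    rw [Matrix.mul_sub, trace_sub, Complex.sub_re, hf', htr, sub_self]
  · have h1 := hb M hM.1 hM.2
    rw [hf'] at h1
    refine h1.trans (le_of_eq ?_)
    refine Finset.sum_congr rfl fun i _ => ?_
    rw [((hSm _).1 (hLS i)).2.2, mul_one]

end Pool.Agent.H899.MK
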