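import Pool.Agent.H899.MK.Ar5
import Pool.Agent.H899.MK.Fk
import Pool.Graph.R_seed8.R895.LemB

/-! Decompositions of the forms in the movable cone. -/

set_option autoImplicit false

namespace Pool.Agent.H899.MK

open Matrix
open Pool.Agent.R895

/-- A form with the first unit vector in the radical. -/
theorem eq_low {n : ℕ} {K : Matrix (Fin (n + 1)) (Fin (n + 1)) ℂ} (hK : Psd K)
    (h0 : q K (Pi.single 0 1) = 0) : K = low (tl K) := by
  have h1 := ker_of_zero hK h0
  have h2 : ∀ i, K i 0 = 0 := by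
    intro i
    have := congrFun h1 i
    rw [mulVec_single_one] at this
    exact this
  have h3 : ∀ j, K 0 j = 0 := by
    intro j
    have h4 := congrFun (congrFun hK.1.eq 0) j
    rw [conjTranspose_apply, h2, star_zero] at h4
    exact h4.symm
  ext i j
  refine Fin.cases ?_ (fun i => ?_) i
  · rw [h3]
    rfl
  · refine Fin.cases ?_ (fun j => ?_) j
    · rw [h2]
      rfl
    · rfl

theorem single_cons {n : ℕ} : (Pi.single 0 1 : Fin (n + 1) → ℂ) = Fin.cons 1 0 := by
  ext i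
  refine Fin.cases ?_ (fun i => ?_) i
  · simp
  · simp

theorem mc_low_min {n : ℕ} {K : Matrix (Fin (n + 1)) (Fin (n + 1)) ℂ} (hK : Psd K)
    (h0 : q K (Pi.single 0 1) = 0) {b : ℝ} (h : Mc K b) {w : Fin n → ℂ} (hw : IsLat w)
    (hw0 : w ≠ 0) : b ≤ q (tl K) w := by
  have hq : ∀ (a : ℂ) (w : Fin n → ℂ), q K (Fin.cons a w) = q (tl K) w := by
    intro a w
    conv_lhs => rw [eq_low hK h0]
    rw [q_low]
  have h1 := h (Fin.cons 1 0) (Fin.cons 0 w) (cons_lat IsEis.one fun _ => IsEis.zero)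
    (cons_lat IsEis.zero hw) (by
      intro a c hac
      have h2 : a = 0 := by simpa using congrFun hac 0
      refine ⟨h2, ?_⟩
      obtain ⟨i, hi⟩ := Function.ne_iff.1 hw0
      have h3 := congrFun hac i.succ
      simp at h3
      exact h3.resolve_right hi)
  have e1 : (Fin.cons 1 0 + Fin.cons 0 w : Fin (n + 1) → ℂ) = Fin.cons 1 w := by
    ext i
    refine Fin.cases ?_ (fun i => ?_) i
    · simp
    · simp
  have e2 : (Fin.cons 1 0 - om • Fin.cons 0 w : Fin (n + 1) → ℂ) = Fin.cons 1 ((-om) • w) := by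
    ext i
    refine Fin.cases ?_ (fun i => ?_) i
    · simp
    · simp
  rw [e1, e2, hq, hq, hq, hq, q_smul_vec, Complex.normSq_neg, unit_normSq om_six] at h1
  have h2 : q (tl K) 0 = 0 := by
    unfold q
    simp
  rw [h2] at h1
  linarith

/-- **Decompositions.** -/
theorem mf_dec {H : Matrix (Fin 3) (Fin 3) ℂ} (hH : Psd H) {b : ℝ} (hb : 0 < b) (hc : Mc H b)
    (hker : Pd H ∨ ∃ x, IsLat x ∧ x ≠ 0 ∧ q H x = 0) :
    ∃ (m : ℕ) (L : Fin m → Fin 3 → ℂ) (w : Fin m → ℝ), (∀ i, IsLat (L i) ∧ L i ≠ 0) ∧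
      (∀ i, 0 ≤ w i) ∧ H = ∑ i, (w i : ℂ) • vecMulVec (L i) (star (L i)) ∧ b ≤ ∑ i, w i := by
  rcases hker with hpd | ⟨x, hx, hx0, hxq⟩
  · refine real_dec hpd fun M hM hM1 => three_dim (l := Pi.single 0 1) hM hpd hc ?_ ?_
      fun v hv hvl => hM1 v hv ?_
    · rw [single_cons]
      exact cons_lat IsEis.one fun _ => IsEis.zero
    · intro h0
      have := congrFun h0 0
      simp at this
    · rintro rfl
      exact hvl 0 (by simp)
  · obtain ⟨g, c, hg, hc1, hc0, hlg⟩ := unimod hx hx0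
    obtain ⟨g', h1, h2, h3⟩ := hg.inv
    have hg' : IsGL g' := ⟨h1, g, hg.ent, h3, h2⟩
    have hP : Psd (gᴴ * H * g) := ⟨herm_conj hH.1 g, fun v => by
      rw [q_conj]
      exact hH.2 _⟩
    have hM : Mc (gᴴ * H * g) b := by
      have := hc.conj hg.conjTranspose
      rwa [conjTranspose_conjTranspose] at this
    have hq0 : q (gᴴ * H * g) (Pi.single 0 1) = 0 := by
      rw [q_conj]
      rw [hlg, q_smul_vec] at hxq
      exact (mul_eq_zero.1 hxq).resolve_left fun h => hc0 (Complex.normSq_eq_zero.1 h)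
    have hmin : ∀ w : Fin 2 → ℂ, IsLat w → w ≠ 0 → b ≤ q (tl (gᴴ * H * g)) w := fun w hw hw0 =>
      mc_low_min hP hq0 hM hw hw0
    have hpd := pd_of_lat (psd_tl hP) hb hmin
    obtain ⟨m, L, w, hL, hw, hsum, hbw⟩ := real_dec hpd (b := b) fun M hM hM1 => by
      have := lemA' (le_refl 2) (by norm_num) hM hpd hb hmin hM1
      linarith
    refine ⟨m, fun i => g'ᴴ *ᵥ (Fin.cons 0 (L i)), w, fun i => ⟨?_, ?_⟩, hw, ?_, hbw⟩
    · exact hg'.conjTranspose.mulVec (cons_lat IsEis.zero (hL i).1)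
    · refine hg'.conjTranspose.mulVec_ne fun h0 => (hL i).2 ?_
      ext j
      exact congrFun h0 j.succ
    · have h4 : H = g'ᴴ * (gᴴ * H * g) * g' := by
        have h5 : g'ᴴ * gᴴ = 1 := by
          rw [← conjTranspose_mul, h2, conjTranspose_one]
        have h6 : g'ᴴ * (gᴴ * H * g) * g' = (g'ᴴ * gᴴ) * H * (g * g') := by
          simp only [Matrix.mul_assoc]
        rw [h6, h5, h2, one_mul, mul_one]
      rw [eq_low hP hq0, hsum, low_sum, Matrix.mul_sum, Matrix.sum_mul] at h4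
      simp only [low_vec] at h4
      rw [h4]
      refine Finset.sum_congr rfl fun i _ => ?_
      rw [Matrix.mul_smul, Matrix.smul_mul, Matrix.mul_vecMulVec, Matrix.vecMulVec_mul, star_mulVec,
        conjTranspose_conjTranspose]

end Pool.Agent.H899.MK
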