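import Pool.Agent.H899.MK.Nm
import Pool.Agent.H899.MK.Df

/-! The effective classes. -/

set_option autoImplicit false
set_option maxHeartbeats 400000

namespace Pool.Agent.H899.MK

open Filter Topology
open Pool.Agent.W594.SYZ2 (IsHermitian)
open Pool.Agent.R895 (Lat IsEis std frm kap kap_pos Nf Dat om N1 kum frm_add frm_smul frm_sub
  frm_zero frm_herm id_isExt form_frm std_dat std_nonneg std_pos one_le_std re_natMul Dec thB
  section_of_dec lat_dot lat_single mx herm_mx mx_herm mx_q exists_ker Psd Pd IsLat q lat_star)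
open Pool.Agent.T6.H34.EK
open Pool.Agent.Y167 (AffGrp cone CData cone_ind cone_add cone_smul cone_sum cone_le
  mem_cone_self mem_cone_of_sum zero_mem_cone cone_cut cone_image)

section lsq

variable {n : ℕ}

/-- The form given by a linear function. -/
noncomputable def lf (l u w : Fin n → ℂ) : ℂ := (l ⬝ᵥ u) * (starRingEnd ℂ) (l ⬝ᵥ w)

theorem lf_dat {l : Fin n → ℂ} (hl : Lat l) : Dat (lf l) where
  herm := by
    refine ⟨fun u v w => ?_, fun a v w => ?_, fun v w => ?_⟩
    · unfold lf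
      rw [dotProduct_add, add_mul]
    · unfold lf
      rw [dotProduct_smul, smul_eq_mul, mul_assoc]
    · unfold lf
      rw [map_mul, Complex.conj_conj, mul_comm]
  int u w hu hw := (lat_dot hl hu).mul (lat_dot hl hw).conj

theorem lf_nonneg (l v : Fin n → ℂ) : 0 ≤ (lf l v v).re := by
  unfold lf
  rw [Complex.mul_conj, Complex.ofReal_re]
  exact Complex.normSq_nonneg _

end lsq

variable {n : ℕ} {G : Subgroup ((Fin n → ℂ) ≃ₗ[ℂ] (Fin n → ℂ))} {hG : PresLat G} [Fintype G]

omit [Fintype G] in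
theorem span_of_mul {y : NS (grp G hG)} {N : ℕ} (hN : 1 ≤ N)
    (h : (N : ℝ) • y ∈ effective (grp G hG)) : y ∈ effCone (grp G hG) := by
  have hNr : (0 : ℝ) < N := by exact_mod_cast hN
  have h1 := span_smul (span_self h) (t := 1 / (N : ℝ)) (by positivity)
  rw [smul_smul, one_div_mul_cancel hNr.ne', one_smul] at h1
  exact h1

theorem dec_lf (hG : PresLat G) {l : Fin n → ℂ} (hl : Lat l) (hl0 : l ≠ 0) :
    Dec (avg G (lf l)) (Fintype.card G) {0} := by
  let e := Fintype.equivFin G
  refine ⟨1, Fintype.card G, fun i => tp (e.symm i).1 l, le_rfl, fun i => ?_, fun u w => ?_,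
    Finset.univ, by rw [one_mul, Finset.card_univ, Fintype.card_fin], fun i _ => ?_⟩
  · exact tp_lat (fun v hv => hG _ (e.symm i).2 v hv) hl
  · rw [Nat.cast_one, one_mul]
    unfold avg
    refine Fintype.sum_equiv e _ _ fun g => ?_
    rw [tp_dot, tp_dot, e.symm_apply_apply]
    rfl
  · exact tp_ne hl0

theorem eff_lf [Nonempty (Fin n)] (hG : PresLat G) {l : Fin n → ℂ} (hl : Lat l) (hl0 : l ≠ 0) :
    ∃ y : NS (grp G hG), y ∈ effCone (grp G hG) ∧
      (∀ u w, frm (up y) u w = c0 G * avg G (lf l) u w) ∧ coef y = c0 G * Fintype.card G := by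
  have D := avg_dat hG (lf_dat hl)
  have hi := avg_inv (G := G) (lf l)
  obtain ⟨y, h1, h2, h3⟩ := exists_cls hG D hi (Fintype.card G)
  refine ⟨y, ?_, h2, h3⟩
  obtain ⟨N, hN, s, hs, h0⟩ := section_qB hG D.herm D.int hi
    (section_of_dec (m := 1) D.herm D.int (Fintype.card G) (dec_lf hG hl hl0))
  obtain ⟨L', hL', hc⟩ := pow_cls (cls_eq (D := D) (hi := hi) h2 h3) N
  exact span_of_mul hN ⟨L', s, hc, by rw [hL']; exact hs, h0⟩

theorem eff_zero [Nonempty (Fin n)] (hn0 : 2 ≤ n) (hn : n ≤ 4) (hG : PresLat G)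
    {h : (Fin n → ℂ) → (Fin n → ℂ) → ℂ} (D : Dat h) (hi : Inv G h) (hp : ∀ v, 0 ≤ (h v v).re) :
    ∃ y : NS (grp G hG), y ∈ effCone (grp G hG) ∧
      (∀ u w, frm (up y) u w = c0 G * h u w) ∧ coef y = 0 := by
  obtain ⟨y, h1, h2, h3⟩ := exists_cls hG D hi 0
  obtain ⟨N, hN, h4⟩ := effective_cls hn0 hn D hi 0 (Or.inr ⟨rfl, hp⟩) h2 h3
  exact ⟨y, span_of_mul hN h4, h2, by rw [h3]; norm_num⟩

omit [Fintype G] in
theorem span_sum {A : Set (NS (grp G hG))} {κ : Type*} (s : Finset κ) (f : κ → NS (grp G hG))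
    (hf : ∀ i ∈ s, f i ∈ span A) : ∑ i ∈ s, f i ∈ span A := by
  classical
  induction s using Finset.induction_on with
  | empty => rw [Finset.sum_empty]; exact span_zero
  | insert i s hi ih =>
    rw [Finset.sum_insert hi]
    exact span_add (hf i (Finset.mem_insert_self _ _))
      (ih fun j hj => hf j (Finset.mem_insert_of_mem hj))

/-- A class whose form is a sum of squares of integral linear functions. -/
theorem eff_of_sum [Nonempty (Fin n)] (hn0 : 2 ≤ n) (hn : n ≤ 4) {a : NS (grp G hG)} {m : ℕ}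
    (L : Fin m → Fin n → ℂ) (w : Fin m → ℝ) (hL : ∀ i, Lat (L i) ∧ L i ≠ 0) (hw : ∀ i, 0 ≤ w i)
    (hsum : ∀ u v, frm (up a) u v = ∑ i, (w i : ℂ) * lf (L i) u v) (h0 : 0 < coef a)
    (hle : coef a ≤ ∑ i, w i) : a ∈ effCone (grp G hG) := by
  classical
  have hcc := c0_real (G := G)
  have hcG : (0 : ℝ) < Fintype.card G := by exact_mod_cast Fintype.card_pos
  have hcc' : (c0 G : ℂ) ≠ 0 := by exact_mod_cast (c0_pos (G := G)).ne'
  have hcG' : (Fintype.card G : ℂ) ≠ 0 := by exact_mod_cast Fintype.card_ne_zero (α := G)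
  choose y1 h1 h2 h3 using fun i => eff_lf hG (hL i).1 (hL i).2
  choose y0 k1 k2 k3 using fun i => eff_zero hn0 hn hG (avg_dat hG (lf_dat (hL i).1))
    (avg_inv (G := G) (lf (L i))) (fun v => by
      rw [avg_re]
      exact Finset.sum_nonneg fun g _ => lf_nonneg _ _)
  obtain ⟨W, hW⟩ : ∃ W : ℝ, W = ∑ i, w i := ⟨_, rfl⟩
  rw [← hW] at hle
  have hW0 : 0 < W := h0.trans_le hle
  obtain ⟨t, ht⟩ : ∃ t : ℝ, t = coef a / W := ⟨_, rfl⟩
  have ht0 : 0 ≤ t := by rw [ht]; positivity
  have ht1 : t ≤ 1 := by rw [ht]; exact (div_le_one hW0).2 hle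
  have key : a = ∑ i, (w i / (c0 G * Fintype.card G)) • (t • y1 i + (1 - t) • y0 i) := by
    have hf : ∀ (s : Finset (Fin m)) (u v : Fin n → ℂ),
        frm (up (∑ i ∈ s, (w i / (c0 G * Fintype.card G)) • (t • y1 i + (1 - t) • y0 i))) u v =
          (Fintype.card G : ℂ)⁻¹ * ∑ i ∈ s, (w i : ℂ) * avg G (lf (L i)) u v := by
      intro s u v
      induction s using Finset.induction_on with
      | empty =>
        rw [Finset.sum_empty, Finset.sum_empty, up_zero, frm_zero, mul_zero]
      | insert i s hi ih =>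
        rw [Finset.sum_insert hi, Finset.sum_insert hi, up_add, frm_add, ih, up_smul, frm_smul,
          up_add, frm_add, up_smul, frm_smul, up_smul, frm_smul, h2, k2]
        push_cast
        field_simp
        ring
    have hc : ∀ (s : Finset (Fin m)),
        coef (∑ i ∈ s, (w i / (c0 G * Fintype.card G)) • (t • y1 i + (1 - t) • y0 i)) =
          t * ∑ i ∈ s, w i := by
      intro s
      induction s using Finset.induction_on with
      | empty => rw [Finset.sum_empty, Finset.sum_empty, coef_zero, mul_zero]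
      | insert i s hi ih =>
        rw [Finset.sum_insert hi, Finset.sum_insert hi, coef_add, ih, coef_smul, coef_add,
          coef_smul, coef_smul, h3, k3]
        field_simp
        ring
    refine NS_ext (fun u v => ?_) ?_
    · rw [hf]
      have e1 : ∑ i, (w i : ℂ) * avg G (lf (L i)) u v = avg G (frm (up a)) u v := by
        unfold avg
        simp only [Finset.mul_sum]
        rw [Finset.sum_comm]
        exact Finset.sum_congr rfl fun g _ => (hsum _ _).symm
      rw [e1, avg_of_inv (frm_inv a)]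
      field_simp
    · rw [hc, ← hW, ht]
      field_simp
  rw [key]
  refine span_sum _ _ fun i _ => span_smul (span_add (span_smul (h1 i) ht0)
    (span_smul (k1 i) (by linarith))) (div_nonneg (hw i) (by positivity))

theorem frm_of_mx {h : (Fin n → ℂ) → (Fin n → ℂ) → ℂ} (hh : IsHermitian h) {m : ℕ}
    {L : Fin m → Fin n → ℂ} {w : Fin m → ℝ}
    (hsum : Matrix.of (mx h) = ∑ i, (w i : ℂ) • Matrix.vecMulVec (L i) (star (L i)))
    (u v : Fin n → ℂ) : h u v = ∑ i, (w i : ℂ) * lf (L i) u v := by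
  have h1 : ∀ a b, mx h a b = ∑ i, (w i : ℂ) * (L i a * (starRingEnd ℂ) (L i b)) := by
    intro a b
    have := congrFun (congrFun hsum a) b
    rw [Matrix.sum_apply] at this
    exact this
  rw [herm_mx hh]
  have h2 : ∀ i, (w i : ℂ) * lf (L i) u v = ∑ a, ∑ b, (w i : ℂ) *
      (L i a * (starRingEnd ℂ) (L i b)) * (u a * (starRingEnd ℂ) (v b)) := by
    intro i
    unfold lf dotProduct
    rw [map_sum, Finset.sum_mul_sum, Finset.mul_sum]
    refine Finset.sum_congr rfl fun a _ => ?_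
    rw [Finset.mul_sum]
    refine Finset.sum_congr rfl fun b _ => ?_
    rw [map_mul]
    ring
  have h3 : ∑ i, (w i : ℂ) * lf (L i) u v = ∑ i, ∑ a, ∑ b, (w i : ℂ) *
      (L i a * (starRingEnd ℂ) (L i b)) * (u a * (starRingEnd ℂ) (v b)) :=
    Finset.sum_congr rfl fun i _ => h2 i
  symm
  rw [h3, Finset.sum_comm]
  refine Finset.sum_congr rfl fun a _ => ?_
  rw [Finset.sum_comm]
  refine Finset.sum_congr rfl fun b _ => ?_
  rw [h1, Finset.sum_mul]

variable {G : Subgroup ((Fin 3 → ℂ) ≃ₗ[ℂ] (Fin 3 → ℂ))} {hG : PresLat G} [Fintype G]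

/-- An integral class in the cone `MfQ` is effective. -/
theorem eff_of_intM {a : NS (grp G hG)} (ha : a ∈ LQ hG) (haN : a ∈ MfQ hG) :
    a ∈ effCone (grp G hG) := by
  obtain ⟨D, k, hk⟩ := dat_of_LQ ha
  obtain ⟨b, hb⟩ := coef_natM haN hk
  have hcc := c0_real (G := G)
  have hcc' : (c0 G : ℂ) ≠ 0 := by exact_mod_cast (c0_pos (G := G)).ne'
  rcases Nat.eq_zero_or_pos b with rfl | hb0
  · obtain ⟨y, h1, h2, h3⟩ := eff_zero (by norm_num) (by norm_num) hG D (frm_inv a) haN.1
    have h4 : a = (1 / (c0 G : ℝ)) • y := by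
      refine NS_ext (fun u w => ?_) ?_
      · rw [up_smul, frm_smul, h2]
        push_cast
        field_simp
      · rw [coef_smul, h3, hb]
        norm_num
    rw [h4]
    exact span_smul h1 (by positivity)
  · have hbr : (0 : ℝ) < b := by exact_mod_cast hb0
    have hq : ∀ v, q (Matrix.of (mx (frm (up a)))) v = (frm (up a) (star v) (star v)).re :=
      fun v => mx_q D.herm v
    have hker : Pd (Matrix.of (mx (frm (up a)))) ∨
        ∃ x : Fin 3 → ℂ, IsLat x ∧ x ≠ 0 ∧ q (Matrix.of (mx (frm (up a)))) x = 0 := by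
      by_cases hpd : ∀ v, v ≠ 0 → 0 < (frm (up a) v v).re
      · refine Or.inl ⟨mx_herm D.herm, fun v hv => ?_⟩
        rw [hq]
        exact hpd _ (star_ne_zero.2 hv)
      · push Not at hpd
        obtain ⟨v, hv, hv0⟩ := hpd
        obtain ⟨w, hw, hw0, hww⟩ := exists_ker D haN.1 hv (le_antisymm hv0 (haN.1 v))
        refine Or.inr ⟨star w, lat_star hw, star_ne_zero.2 hw0, ?_⟩
        rw [hq, star_star]
        exact hww
    obtain ⟨m, L, w, hL, hw, hsum, hle⟩ := mf_dec (b := b) ⟨mx_herm D.herm, fun v => by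
      rw [hq]; exact haN.1 _⟩ hbr (Mc.of_form D.herm fun v w hv hw hvw => by
        rw [← hb]; exact haN.2.2 v w hv hw hvw) hker
    exact eff_of_sum (by norm_num) (by norm_num) L w hL hw (frm_of_mx D.herm hsum)
      (by rw [hb]; exact hbr) (by rw [hb]; exact hle)

end Pool.Agent.H899.MK
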