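import Pool.Agent.H899.MK.Mn

/-! The nef cone is strictly smaller than the movable cone. -/

set_option autoImplicit false
set_option maxHeartbeats 400000

namespace Pool.Agent.H899.MK

open Pool.Agent.R895 (Lat IsEis std frm kap kap_pos kap_sqrt Nf Dat om N1 kum frm_add frm_smul
  frm_sub frm_zero frm_herm id_isExt form_frm std_dat std_nonneg std_pos one_le_std re_natMul
  lat_single)
open Pool.Agent.T6.H34.EK

variable {G : Subgroup ((Fin 3 → ℂ) ≃ₗ[ℂ] (Fin 3 → ℂ))} {hG : PresLat G} [Fintype G]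

theorem nef_ssubset : nefCone (grp G hG) ⊂ movCone (grp G hG) := by
  classical
  rw [nefCone_eq (by norm_num : 3 ≤ 4), movCone_eq]
  refine ⟨fun x hx => NfQ_le hx, fun hcon => ?_⟩
  have D := avg_dat hG (std_dat (r := 3))
  have hnn : ∀ v, 0 ≤ (avg G std v v).re := fun v => (std_nonneg v).trans (std_le_avg v)
  have hval : ∀ v : Fin 3 → ℂ, Lat v → ∃ k : ℕ, (avg G std v v).re = k := by
    intro v hv
    obtain ⟨n, hn⟩ := D.val hv
    have h0 := hnn v
    rw [hn] at h0
    obtain ⟨k, rfl⟩ := Int.eq_ofNat_of_zero_le (by exact_mod_cast h0 : (0 : ℤ) ≤ n)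
    exact ⟨k, by rw [hn]; simp⟩
  have hex : ∃ k : ℕ, ∃ v : Fin 3 → ℂ, Lat v ∧ v ≠ 0 ∧ (avg G std v v).re = k := by
    obtain ⟨k, hk⟩ := hval _ (lat_single 0)
    refine ⟨k, _, lat_single 0, fun h0 => ?_, hk⟩
    have := congrFun h0 0
    simp at this
  obtain ⟨v₀, hv, hv0, hk⟩ := Nat.find_spec hex
  have hmin : ∀ v : Fin 3 → ℂ, Lat v → v ≠ 0 → ((Nat.find hex : ℕ) : ℝ) ≤ (avg G std v v).re := by
    intro v hv hv0
    obtain ⟨k, hk⟩ := hval v hv
    rw [hk]
    exact_mod_cast Nat.find_min' hex ⟨v, hv, hv0, hk⟩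
  set μ : ℕ := Nat.find hex with hμ
  have hμ1 : (1 : ℝ) ≤ μ := by
    rw [← hk]
    exact (one_le_std hv hv0).trans (std_le_avg v₀)
  obtain ⟨x, -, h2, h3⟩ := exists_cls hG (D.natMul 3) (fun g hg u w => by
    rw [avg_inv std g hg]) (4 * μ)
  have hcc := c0_real (G := G)
  have hre : ∀ v : Fin 3 → ℂ, (frm (up x) v v).re = c0 G * (3 * (avg G std v v).re) := by
    intro v
    rw [h2, re_natMul, re_natMul]
    norm_num
  have hx : x ∈ MfQ hG := by
    refine ⟨fun v => ?_, ?_, fun v w hv hw hvw => ?_⟩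
    · rw [hre]
      have := hnn v
      positivity
    · rw [h3]
      positivity
    · have h4 := S4_ge _ hmin hv hw hvw
      have h5 : S4 (frm (up x)) v w = c0 G * 3 * S4 (avg G std) v w :=
        S4_eq (fun v => by rw [hre]; ring) v w
      rw [h5, h3]
      push_cast
      have h6 := mul_le_mul_of_nonneg_left h4 (by positivity : (0 : ℝ) ≤ c0 G * 3)
      linarith
  have h4 := (hcon hx).2.2 v₀ hv hv0
  rw [hre, coef_up, h3, hk] at h4
  push_cast at h4
  have h5 : (4 * μ : ℝ) ≤ 3 * μ := le_of_mul_le_mul_left h4 hcc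
  linarith

theorem ind_iff (v w : Fin 3 → ℂ) : LinearIndependent ℂ ![v, w] ↔ Ind v w :=
  LinearIndependent.pair_iff

theorem three_kap : 3 * kap = 2 * √3 := by
  have h1 := kap_sqrt
  have h2 : √3 * √3 = 3 := Real.mul_self_sqrt (by norm_num)
  calc 3 * kap = (√3 * √3) * kap := by rw [h2]
    _ = √3 * (kap * √3) := by ring
    _ = 2 * √3 := by rw [h1]; ring

end Pool.Agent.H899.MK
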