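import Pool.Agent.H899.MK.Ef

/-! The movable cone conjecture for blow-ups of `E^3` modulo finite groups. -/

set_option autoImplicit false
set_option maxHeartbeats 400000

namespace Pool.Agent.H899.MK

open Filter Topology
open Pool.Agent.R895 (Lat IsEis std frm kap kap_pos Nf Dat om N1 kum frm_add frm_smul frm_sub
  frm_zero frm_herm id_isExt form_frm std_dat std_nonneg std_pos one_le_std re_natMul
  cone_of_scaled Normalizes)
open Pool.Agent.T6.H34.EK
open Pool.Agent.Y167 (AffGrp cone CData Cp cone_ind cone_add cone_smul cone_sum cone_le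
  mem_cone_self mem_cone_of_sum zero_mem_cone cone_cut cone_image)
open Pool.Agent.Y167.CC (LinGrp Preserves IsFundDomain)

variable {G : Subgroup ((Fin 3 → ℂ) ≃ₗ[ℂ] (Fin 3 → ℂ))} {hG : PresLat G} [Fintype G]

theorem mem_CpM_iff (x : NS (grp G hG)) :
    x ∈ Cp (LQ hG) (MfQ hG) ↔ x ∈ movEff (grp G hG) := by
  constructor
  · rintro ⟨S, hS, hx⟩
    exact ⟨cone_mov (fun a ha => mov_of_int (hS a ha).1 (hS a ha).2) hx,
      cone_span (fun a ha => eff_of_intM (hS a ha).1 (hS a ha).2) hx⟩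
  · exact fun h => Cp_of_eff (movCone_le h.1) h.2

theorem Cp_of_pdM {x : NS (grp G hG)} (hx : x ∈ MfQ hG)
    (hpd : ∃ t : ℝ, 0 < t ∧ ∀ v, t * (std v v).re ≤ (frm (up x) v v).re) :
    x ∈ Cp (LQ hG) (MfQ hG) := by
  classical
  obtain ⟨F₁, h1, h2⟩ := coveringM hG
  obtain ⟨g, u, hg, hgx⟩ := h2 x hx hpd
  have h3 := cone_image (g.symm : NS (grp G hG) →ₗ[ℝ] NS (grp G hG)) hgx
  refine ⟨F₁.image g.symm, fun a ha => ?_, ?_⟩
  · obtain ⟨a', ha', rfl⟩ := Finset.mem_image.1 ha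
    exact ⟨closure_map hg.int' (h1 a' ha').1, MfQ_of hg.lat' hg.pb' (h1 a' ha').2⟩
  · have h4 : g.symm (g x) = x := g.symm_apply_apply x
    rw [← h4]
    exact h3

section y0

variable {y₀ : NS (grp G hG)}
  (hy1 : ∀ u w, frm (up y₀) u w = c0 G * (((2 : ℕ) : ℂ) * avg G std u w)) (hy2 : coef y₀ = c0 G)

include hy1 hy2

theorem y0_MfQ : y₀ ∈ MfQ hG := by
  have hcc := c0_real (G := G)
  have hre : ∀ v : Fin 3 → ℂ, (frm (up y₀) v v).re = c0 G * (2 * (avg G std v v).re) := by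
    intro v
    rw [hy1, re_twice]
  refine NfQ_le ⟨fun v => ?_, by rw [coef_up, hy2]; exact hcc.le, fun v hv hv0 => ?_⟩
  · rw [hre]
    have h1 := std_nonneg v
    have h2 := std_le_avg (G := G) v
    have h3 : 0 ≤ (avg G std v v).re := h1.trans h2
    positivity
  · rw [hre, coef_up, hy2]
    have h1 := one_le_std hv hv0
    have h2 := std_le_avg (G := G) v
    nlinarith

theorem pd_y0 (t : ℝ) (x : NS (grp G hG)) (ht : 0 < t) (hx : x - t • y₀ ∈ MfQ hG) :
    x ∈ MfQ hG ∧ ∃ t : ℝ, 0 < t ∧ ∀ v, t * (std v v).re ≤ (frm (up x) v v).re := by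
  have hcc := c0_real (G := G)
  have hre : ∀ v : Fin 3 → ℂ, (frm (up y₀) v v).re = c0 G * (2 * (avg G std v v).re) := by
    intro v
    rw [hy1, re_twice]
  have h4 : x = (x - t • y₀) + t • y₀ := by abel
  refine ⟨?_, t * (c0 G * 2), by positivity, fun v => ?_⟩
  · rw [h4]
    exact MfQ_add hx (MfQ_smul ht.le (y0_MfQ hy1 hy2))
  · rw [h4, up_add, up_smul, frm_add, Complex.add_re, frm_smul, Complex.re_ofReal_mul, hre]
    have h5 := hx.1 v
    have h6 := std_le_avg (G := G) v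
    have h7 : t * (c0 G * 2) * (std v v).re ≤ t * (c0 G * 2) * (avg G std v v).re :=
      mul_le_mul_of_nonneg_left h6 (by positivity)
    linarith

theorem add_y0 {x : NS (grp G hG)} (hx : x ∈ MfQ hG) {t : ℝ} (ht : 0 < t) :
    x + t • y₀ ∈ movEff (grp G hG) := by
  obtain ⟨k1, k2⟩ := pd_y0 hy1 hy2 t (x + t • y₀) ht (by rwa [add_sub_cancel_right])
  exact (mem_CpM_iff _).1 (Cp_of_pdM k1 k2)

end y0

/-- The movable cone. -/
theorem movCone_eq : movCone (grp G hG) = MfQ hG := by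
  refine Set.Subset.antisymm movCone_le fun x hx => ?_
  obtain ⟨y₀, hy0, hy1, hy2⟩ := exists_y₀ hG
  refine mem_closed (y := y₀) isClosed_closure fun k => ?_
  exact (add_y0 hy1 hy2 hx (t := 1 / ((k : ℝ) + 1)) (by positivity)).1

theorem c0_intM {a : NS (grp G hG)} (ha : a ∈ LQ hG) (haN : a ∈ MfQ hG) :
    (c0 G : ℝ) • a ∈ integral (grp G hG) := by
  obtain ⟨D, k, hk⟩ := dat_of_LQ ha
  obtain ⟨b, hb⟩ := coef_natM haN hk
  obtain ⟨y, h1, h2, h3⟩ := exists_cls hG D (frm_inv a) b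
  have h4 : (c0 G : ℝ) • a = y := by
    refine NS_ext (fun u w => ?_) ?_
    · rw [up_smul, frm_smul, h2]
      push_cast
      ring
    · rw [coef_smul, h3, hb]
  rw [h4]
  exact h1

section comm

variable {W : Type*} [AddCommGroup W] [Module ℝ W] {L L' : AddSubgroup W} {N : Set W}

/-- Commensurable lattices. -/
theorem cdata_comm {ξ : W →ₗ[ℝ] ℝ} {y : W} {Y : Finset W} (D : CData L N ξ y Y) {k : ℕ}
    (hk : 1 ≤ k) (h1 : ∀ x ∈ L', (k : ℝ) • x ∈ L) (h2 : ∀ x ∈ L, (k : ℝ) • x ∈ L') :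
    ∃ Y' : Finset W, CData L' N ((k : ℝ) • ξ) ((k : ℝ) • y) Y' := by
  classical
  have hkr : (0 : ℝ) < k := by exact_mod_cast hk
  refine ⟨Y.image fun x => (k : ℝ) • x,
    { add := D.add
      smul := D.smul
      xi_int := fun x hx => ?_
      xi_pos := fun x hx hx0 => ?_
      fin := fun C => ?_
      y_L := h2 _ D.y_L
      y_N := D.smul _ hkr.le _ D.y_N
      y_int := fun x => ?_
      dom := fun η => ?_
      sep := fun x hx => ?_
      Y_mem := fun x hx => ?_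
      Y_span := fun φ hφ => D.Y_span φ fun x hx => ?_ }⟩
  · obtain ⟨n, hn⟩ := D.xi_int _ (h1 x hx)
    exact ⟨n, by rw [← hn, map_smul]; rfl⟩
  · exact mul_pos hkr (D.xi_pos x hx hx0)
  · have hinj : Function.Injective fun x : W => (k : ℝ) • x := smul_right_injective _ hkr.ne'
    refine ((D.fin C).preimage hinj.injOn).subset ?_
    rintro x ⟨hx1, hx2, hx3⟩
    refine ⟨h1 x hx1, D.smul _ hkr.le _ hx2, ?_⟩
    rw [map_smul]
    exact hx3
  · obtain ⟨C, hC, h3⟩ := D.y_int x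
    refine ⟨C / k, by positivity, ?_⟩
    rwa [smul_smul, div_mul_cancel₀ _ hkr.ne']
  · obtain ⟨C, hC⟩ := D.dom η
    refine ⟨C / k, fun x hx => (hC x hx).trans (le_of_eq ?_)⟩
    change C * ξ x = C / k * ((k : ℝ) • ξ x)
    rw [smul_eq_mul]
    field_simp
  · obtain ⟨η, h3, h4⟩ := D.sep x hx
    refine ⟨(k : ℝ) • η, fun z hz => ?_, ?_⟩
    · obtain ⟨n, hn⟩ := h3 _ (h1 z hz)
      exact ⟨n, by rw [← hn, map_smul]; rfl⟩
    · change (k : ℝ) • η x ≠ 0
      rw [smul_eq_mul]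
      exact mul_ne_zero hkr.ne' h4
  · obtain ⟨z, hz, rfl⟩ := Finset.mem_image.1 hx
    exact ⟨h2 _ (D.Y_mem z hz).1, D.smul _ hkr.le _ (D.Y_mem z hz).2⟩
  · have := hφ _ (Finset.mem_image_of_mem (fun x => (k : ℝ) • x) hx)
    rw [map_smul] at this
    exact (smul_eq_zero.1 this).resolve_left hkr.ne'

theorem Cp_comm {k : ℕ} (hk : 1 ≤ k) (hN : ∀ t : ℝ, 0 ≤ t → ∀ x ∈ N, t • x ∈ N)
    (h1 : ∀ x ∈ L', (k : ℝ) • x ∈ L) {x : W} (hx : x ∈ Cp L' N) : x ∈ Cp L N := by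
  classical
  have hkr : (0 : ℝ) < k := by exact_mod_cast hk
  obtain ⟨S, hS, hx⟩ := hx
  refine ⟨S.image fun a => (k : ℝ) • a, fun a ha => ?_, cone_le (fun a ha => ?_) hx⟩
  · obtain ⟨z, hz, rfl⟩ := Finset.mem_image.1 ha
    exact ⟨h1 z (hS z hz).1, hN _ hkr.le _ (hS z hz).2⟩
  · exact cone_of_scaled hkr (Finset.mem_image_of_mem (fun a => (k : ℝ) • a) ha)

end comm

/-- **The movable cone conjecture**, general form. -/
theorem coreM (𝒢 : LinGrp (NS (grp G hG))) (h𝒢 : IsPsAutGroup 𝒢) : HasMovDomain 𝒢 := by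
  classical
  obtain ⟨⟨L', ⟨k, hk, hLk1, hLk2⟩, h𝒢L⟩, h2, h3⟩ := h𝒢
  have hLk2' : ∀ x ∈ LQ hG, (k : ℝ) • x ∈ L' := by
    intro x hx
    induction hx using AddSubgroup.closure_induction with
    | mem x hx => exact hLk2 x hx
    | zero => rw [smul_zero]; exact L'.zero_mem
    | add x y _ _ h1 h2 => rw [smul_add]; exact L'.add_mem h1 h2
    | neg x _ h1 => rw [smul_neg]; exact L'.neg_mem h1
  have hkr : (0 : ℝ) < k := by exact_mod_cast hk
  obtain ⟨y₀, hy0, hy1, hy2⟩ := exists_y₀ hG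
  obtain ⟨Y, D⟩ := exists_cdataM hy0 hy1 hy2
  obtain ⟨Y', D'⟩ := cdata_comm D hk hLk1 hLk2'
  obtain ⟨F₁, hF₁, hcov⟩ := coveringM hG
  have hcc := c0_real (G := G)
  have h𝒢N : ∀ g ∈ 𝒢, ∀ x ∈ MfQ hG, g x ∈ MfQ hG := by
    intro g hg x hx
    refine mem_closed (y := g y₀) isClosed_MfQ fun n => ?_
    have h4 := h2 g hg _ (add_y0 hy1 hy2 hx (t := 1 / ((n : ℝ) + 1)) (by positivity))
    rw [map_add, map_smul] at h4
    exact movCone_le h4.1
  obtain ⟨S, hS1, hS2, hS3⟩ := D'.domain 𝒢 h𝒢L h𝒢N (F₁.image fun a => (k : ℝ) • a) (by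
      intro a ha
      obtain ⟨z, hz, rfl⟩ := Finset.mem_image.1 ha
      exact ⟨hLk2' z (hF₁ z hz).1, MfQ_smul hkr.le (hF₁ z hz).2⟩) (by
    rintro x ⟨t, ht, hx⟩
    rw [smul_smul] at hx
    obtain ⟨k1, k2⟩ := pd_y0 hy1 hy2 (t * k) x (by positivity) hx
    obtain ⟨g, u, hg, hgx⟩ := hcov x k1 k2
    exact ⟨g, h3 u g hg.norm hg.pb, cone_le (fun a ha => cone_of_scaled hkr
      (Finset.mem_image_of_mem (fun a => (k : ℝ) • a) ha)) hgx⟩)
  have hCp : ∀ x, x ∈ movEff (grp G hG) ↔ x ∈ Cp L' (MfQ hG) := fun x => by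
    rw [← mem_CpM_iff]
    exact ⟨Cp_comm hk (fun t ht x hx => MfQ_smul ht hx) hLk2',
      Cp_comm hk (fun t ht x hx => MfQ_smul ht hx) hLk1⟩
  have hck : (0 : ℝ) < c0 G * k := by positivity
  have hcone : ∀ x, x ∈ cone (S.image fun a => (c0 G * k : ℝ) • a) ↔ x ∈ cone S := by
    intro x
    constructor
    · refine fun h => cone_le (fun a ha => ?_) h
      obtain ⟨a', ha', rfl⟩ := Finset.mem_image.1 ha
      exact cone_smul (mem_cone_self ha') hck.le
    · refine fun h => cone_le (fun a ha => ?_) h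
      exact cone_of_scaled hck (Finset.mem_image_of_mem (fun a => (c0 G * k : ℝ) • a) ha)
  have hcone' : cone (S.image fun a => (c0 G * k : ℝ) • a) = cone S := Set.ext hcone
  refine ⟨S.image fun a => (c0 G * k : ℝ) • a, ?_, ?_, ?_, ?_⟩
  · intro a ha
    obtain ⟨a', ha', rfl⟩ := Finset.mem_image.1 ha
    rw [← smul_smul]
    exact c0_intM (hLk1 _ (hS1 a' ha').1) (MfQ_smul hkr.le (hS1 a' ha').2)
  · rw [hcone']
    intro x hx
    exact (hCp x).2 ⟨S, hS1, hx⟩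
  · ext x
    rw [hCp, hS2, hcone', Set.mem_iUnion₂]
    constructor
    · rintro ⟨g, hg, hgx⟩
      exact ⟨g⁻¹, 𝒢.inv_mem hg, g x, hgx, g.symm_apply_apply x⟩
    · rintro ⟨g, hg, y, hy, rfl⟩
      refine ⟨g⁻¹, 𝒢.inv_mem hg, ?_⟩
      have : (g⁻¹ : NS (grp G hG) ≃ₗ[ℝ] NS (grp G hG)) (g y) = y := g.symm_apply_apply y
      rwa [this]
  · intro g hg hg1
    rw [hcone', Set.eq_empty_iff_forall_notMem]
    obtain ⟨φ, hφ0, hφ1, hφ2⟩ := hS3 g hg hg1
    rintro x ⟨hx, y, hy, rfl⟩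
    have h4 := hφ2 y hy
    obtain ⟨w, hw⟩ : ∃ w, 0 < φ w := by
      by_contra hcon
      push Not at hcon
      apply hφ0
      ext w
      have e1 := hcon w
      have e2 := hcon (-w)
      rw [map_neg] at e2
      change φ w = 0
      linarith
    have hcont : Continuous fun t : ℝ => g y - t • w := by fun_prop
    have hmem : ∀ᶠ t : ℝ in 𝓝 0, g y - t • w ∈ interior (cone S) := by
      apply hcont.continuousAt.eventually_mem
      rw [zero_smul, sub_zero]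
      exact isOpen_interior.mem_nhds hx
    obtain ⟨ε, hε, hball⟩ := Metric.eventually_nhds_iff.1 hmem
    have h5 := interior_subset (hball (y := ε / 2) (by
      rw [Real.dist_eq, sub_zero, abs_of_pos (by linarith)]
      linarith))
    have h6 := hφ1 _ h5
    rw [map_sub, map_smul, smul_eq_mul] at h6
    have h7 : 0 < ε / 2 * φ w := by positivity
    linarith

theorem mem_movCone_iff (x : NS (grp G hG)) : x ∈ movCone (grp G hG) ↔
    (∀ v : Fin 3 → ℂ, 0 ≤ (form x v v).re) ∧ 0 ≤ coef x ∧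
      ∀ v w : Fin 3 → ℂ, Lat v → Lat w → Ind v w → 3 * (kap * coef x) ≤ S4 (form x) v w := by
  have hf : ∀ v : Fin 3 → ℂ, (form x v v).re = kap * (frm (up x) v v).re := fun v => by
    rw [← form_up, form_frm, Complex.re_ofReal_mul]
  have h4 : ∀ v w : Fin 3 → ℂ, S4 (form x) v w = kap * S4 (frm (up x)) v w := S4_eq hf
  rw [movCone_eq]
  constructor
  · rintro ⟨h1, h2, h3⟩
    refine ⟨fun v => by rw [hf]; exact mul_nonneg kap_pos.le (h1 v), h2, fun v w hv hw hvw => ?_⟩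
    have := mul_le_mul_of_nonneg_left (h3 v w hv hw hvw) kap_pos.le
    rw [h4]
    linarith
  · rintro ⟨h1, h2, h3⟩
    refine ⟨fun v => ?_, h2, fun v w hv hw hvw => ?_⟩
    · have := h1 v
      rw [hf] at this
      exact nonneg_of_mul_nonneg_right this kap_pos
    · have := h3 v w hv hw hvw
      rw [h4] at this
      refine le_of_mul_le_mul_left (a := kap) ?_ kap_pos
      linarith

end Pool.Agent.H899.MK
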