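import Pool.Graph.R_pool_sql_team_seeded_47a924f7.T6.H34.EK.Main

/-! Zeros of entire functions. -/

set_option autoImplicit false

namespace Pool.Agent.H899.MK

open Filter Topology
open Pool.Agent.R895 hiding prod_O
open Pool.Agent.T6.H34.EK (avoidC prod_ne)

variable {n : ℕ}

/-- The zeros of an entire function of one variable are isolated. -/
theorem ev_ne {θ : ℂ → ℂ} (hθ : Differentiable ℂ θ) (h0 : ∃ w, θ w ≠ 0) (c : ℂ) :
    ∀ᶠ w in 𝓝[≠] c, θ w ≠ 0 := by
  have han : AnalyticOnNhd ℂ θ Set.univ := fun x _ => hθ.analyticAt x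
  rcases (han c (Set.mem_univ c)).eventually_eq_zero_or_eventually_ne_zero with h | h
  · exfalso
    obtain ⟨w, hw⟩ := h0
    exact hw (han.eqOn_zero_of_preconnected_of_eventuallyEq_zero isPreconnected_univ
      (Set.mem_univ c) h (Set.mem_univ w))
  · exact h

/-- The zeros of an entire function on a family of parallel lines. -/
theorem hurwitz {V : Type*} [NormedAddCommGroup V] [NormedSpace ℂ V] {t : V → ℂ}
    (ht : Differentiable ℂ t) {p u : V} {ε : ℝ} (hε : 0 < ε) (hp : t p = 0)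
    (hne : ∀ ζ : ℂ, ‖ζ‖ = ε → t (p + ζ • u) ≠ 0) :
    ∀ᶠ p' in 𝓝 p, ∃ ζ : ℂ, ‖ζ‖ ≤ ε ∧ t (p' + ζ • u) = 0 := by
  have hcont : Continuous fun x : V × ℂ => t (x.1 + x.2 • u) := by
    have h1 : Continuous fun x : V × ℂ => x.1 + x.2 • u := by fun_prop
    exact ht.continuous.comp h1
  -- the minimum on the circle
  obtain ⟨m, hm, hmin⟩ : ∃ m : ℝ, 0 < m ∧ ∀ ζ : ℂ, ‖ζ‖ = ε → m ≤ ‖t (p + ζ • u)‖ := by
    have hK : IsCompact (Metric.sphere (0 : ℂ) ε) := isCompact_sphere _ _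
    have hne' : (Metric.sphere (0 : ℂ) ε).Nonempty := ⟨(ε : ℂ), by
      rw [mem_sphere_zero_iff_norm, Complex.norm_real, Real.norm_of_nonneg hε.le]⟩
    have hc1 : Continuous fun ζ : ℂ => ‖t (p + ζ • u)‖ :=
      (hcont.comp (Continuous.prodMk continuous_const continuous_id)).norm
    obtain ⟨ζ, hζ, hmin⟩ := hK.exists_isMinOn hne' hc1.continuousOn
    rw [mem_sphere_zero_iff_norm] at hζ
    exact ⟨_, norm_pos_iff.2 (hne ζ hζ), fun ξ hξ => hmin (mem_sphere_zero_iff_norm.2 hξ)⟩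
  -- the bound on the circle is preserved
  have h1 : ∀ᶠ p' in 𝓝 p, ∀ ζ ∈ Metric.sphere (0 : ℂ) ε, m / 2 < ‖t (p' + ζ • u)‖ := by
    refine (isCompact_sphere (0 : ℂ) ε).eventually_forall_of_forall_eventually fun ζ hζ => ?_
    rw [mem_sphere_zero_iff_norm] at hζ
    have h2 : Tendsto (fun x : V × ℂ => ‖t (x.1 + x.2 • u)‖) (𝓝 (p, ζ)) (𝓝 ‖t (p + ζ • u)‖) :=
      hcont.norm.tendsto (p, ζ)
    exact h2.eventually (lt_mem_nhds (by have := hmin ζ hζ; linarith))
  have h2 : ∀ᶠ p' in 𝓝 p, ‖t p'‖ < m / 2 := by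
    have h3 : Tendsto (fun p' => ‖t p'‖) (𝓝 p) (𝓝 ‖t p‖) := (ht.continuous.norm).tendsto p
    rw [hp, norm_zero] at h3
    exact h3.eventually (gt_mem_nhds (by positivity))
  filter_upwards [h1, h2] with p' h3 h4
  by_contra hcon
  push Not at hcon
  have hline : Differentiable ℂ fun ζ : ℂ => t (p' + ζ • u) := by
    have : Differentiable ℂ fun ζ : ℂ => p' + ζ • u := by fun_prop
    exact ht.comp this
  have h5 : ‖(t (p' + (0 : ℂ) • u))⁻¹‖ ≤ (m / 2)⁻¹ := by
    refine Complex.norm_le_of_forall_mem_frontier_norm_le (U := Metric.ball 0 ε)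
      (f := fun ζ : ℂ => (t (p' + ζ • u))⁻¹)
      Metric.isBounded_ball (DifferentiableOn.diffContOnCl fun ζ hζ => ?_) (fun z hz => ?_)
      (subset_closure (by simpa using hε))
    · rw [closure_ball (0 : ℂ) hε.ne', mem_closedBall_zero_iff] at hζ
      exact ((hline ζ).inv (hcon ζ hζ)).differentiableWithinAt
    · rw [frontier_ball (0 : ℂ) hε.ne'] at hz
      rw [norm_inv]
      exact inv_anti₀ (by positivity) (h3 z hz).le
  rw [zero_smul, add_zero, norm_inv] at h5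
  have h6 : 0 < ‖t p'‖ := by
    refine norm_pos_iff.2 ?_
    have := hcon 0 (by rw [norm_zero]; exact hε.le)
    rwa [zero_smul, add_zero] at this
  have h7 := (inv_le_inv₀ h6 (by positivity : (0 : ℝ) < m / 2)).1 h5
  linarith

/-- An entire function which is not zero is not zero at some point near a given point. -/
theorem exists_near_ne {V : Type*} [NormedAddCommGroup V] [NormedSpace ℂ V] {R : V → ℂ}
    (hR : Differentiable ℂ R) (h0 : ∃ v, R v ≠ 0) {p : V} {U : Set V} (hU : U ∈ 𝓝 p) :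
    ∃ p' ∈ U, R p' ≠ 0 := by
  by_contra hcon
  push Not at hcon
  obtain ⟨v, hv⟩ := h0
  have hline : Differentiable ℂ fun ζ : ℂ => p + ζ • (v - p) := by fun_prop
  have hd : Differentiable ℂ fun ζ : ℂ => R (p + ζ • (v - p)) := hR.comp hline
  have han : AnalyticOnNhd ℂ (fun ζ : ℂ => R (p + ζ • (v - p))) Set.univ :=
    fun x _ => hd.analyticAt x
  have h1 : (fun ζ : ℂ => R (p + ζ • (v - p))) =ᶠ[𝓝 0] 0 := by
    have h2 : Tendsto (fun ζ : ℂ => p + ζ • (v - p)) (𝓝 0) (𝓝 p) := by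
      have := hline.continuous.tendsto 0
      simpa using this
    filter_upwards [h2.eventually hU] with ζ hζ
    exact hcon _ hζ
  have h3 := han.eqOn_zero_of_preconnected_of_eventuallyEq_zero isPreconnected_univ
    (Set.mem_univ 0) h1 (Set.mem_univ 1)
  apply hv
  simpa using h3

/-- A linear function which vanishes where `l` vanishes is a multiple of `l`. -/
theorem exists_ker_ne {l l' : Fin n → ℂ} (hl : l ≠ 0) (h : ¬∃ a : ℂ, l' = a • l) :
    ∃ k : Fin n → ℂ, l ⬝ᵥ k = 0 ∧ l' ⬝ᵥ k ≠ 0 := by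
  classical
  by_contra hcon
  push Not at hcon
  obtain ⟨i, hi⟩ := Function.ne_iff.1 hl
  have hi' : l i ≠ 0 := hi
  apply h
  refine ⟨l' i / l i, funext fun j => ?_⟩
  have h1 := hcon (Pi.single j 1 - (l j / l i) • Pi.single i 1) (by
    rw [dotProduct_sub, dotProduct_smul, dotProduct_single, dotProduct_single, mul_one, mul_one,
      smul_eq_mul, div_mul_cancel₀ _ hi', sub_self])
  rw [dotProduct_sub, dotProduct_smul, dotProduct_single, dotProduct_single, mul_one, mul_one,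
    smul_eq_mul, sub_eq_zero] at h1
  rw [h1, Pi.smul_apply, smul_eq_mul]
  field_simp

/-- A point of a hyperplane at which finitely many other linear functions are not integral. -/
theorem exists_pt {κ : Type*} (T : Finset κ) (l' : κ → Fin n → ℂ) {l : Fin n → ℂ} (hl : l ≠ 0)
    (h : ∀ i ∈ T, ¬∃ a : ℂ, l' i = a • l) (c : ℂ) :
    ∃ w : Fin n → ℂ, l ⬝ᵥ w = c ∧ ∀ i ∈ T, ¬IsEis (l' i ⬝ᵥ w) := by
  classical
  -- the direction
  let K : Submodule ℂ (Fin n → ℂ) :=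
    { carrier := {u | l ⬝ᵥ u = 0}
      add_mem' := fun {u w} hu hw => by
        show l ⬝ᵥ (u + w) = 0
        have hu' : l ⬝ᵥ u = 0 := hu
        have hw' : l ⬝ᵥ w = 0 := hw
        rw [dotProduct_add, hu', hw', add_zero]
      zero_mem' := dotProduct_zero _
      smul_mem' := fun c u hu => by
        show l ⬝ᵥ (c • u) = 0
        have hu' : l ⬝ᵥ u = 0 := hu
        rw [dotProduct_smul, hu', smul_zero] }
  let sub : κ → Submodule ℂ K := fun i =>
    { carrier := {u | l' i ⬝ᵥ (u : Fin n → ℂ) = 0}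
      add_mem' := fun {u w} hu hw => by
        show l' i ⬝ᵥ ((u : Fin n → ℂ) + w) = 0
        have hu' : l' i ⬝ᵥ (u : Fin n → ℂ) = 0 := hu
        have hw' : l' i ⬝ᵥ (w : Fin n → ℂ) = 0 := hw
        rw [dotProduct_add, hu', hw', add_zero]
      zero_mem' := dotProduct_zero _
      smul_mem' := fun c u hu => by
        show l' i ⬝ᵥ (c • (u : Fin n → ℂ)) = 0
        have hu' : l' i ⬝ᵥ (u : Fin n → ℂ) = 0 := hu
        rw [dotProduct_smul, hu', smul_zero] }
  obtain ⟨k, hk⟩ := avoidC T sub fun i hi htop => by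
    obtain ⟨k, hk1, hk2⟩ := exists_ker_ne hl (h i hi)
    apply hk2
    have : (⟨k, hk1⟩ : K) ∈ sub i := by rw [htop]; exact Submodule.mem_top
    exact this
  obtain ⟨k, hk0⟩ := k
  have hk0' : l ⬝ᵥ k = 0 := hk0
  have hk' : ∀ i ∈ T, l' i ⬝ᵥ k ≠ 0 := fun i hi h0 => hk i hi h0
  -- the base point
  obtain ⟨i₀, hi₀⟩ := Function.ne_iff.1 hl
  have hi₀' : l i₀ ≠ 0 := hi₀
  obtain ⟨w₀, hw₀⟩ : ∃ w₀ : Fin n → ℂ, l ⬝ᵥ w₀ = c :=
    ⟨(c / l i₀) • Pi.single i₀ 1, by
      rw [dotProduct_smul, dotProduct_single, mul_one, smul_eq_mul, div_mul_cancel₀ _ hi₀']⟩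
  -- the parameter
  obtain ⟨z, hz⟩ : ∃ z : ℂ, ∀ i ∈ T, ¬IsEis (l' i ⬝ᵥ w₀ + z * (l' i ⬝ᵥ k)) := by
    by_contra hcon
    push Not at hcon
    have h1 : (Set.univ : Set ℂ) ⊆ ⋃ i ∈ T, {z : ℂ | IsEis (l' i ⬝ᵥ w₀ + z * (l' i ⬝ᵥ k))} := by
      intro z _
      obtain ⟨i, hi, hz⟩ := hcon z
      exact Set.mem_biUnion hi hz
    have h2 : (⋃ i ∈ T, {z : ℂ | IsEis (l' i ⬝ᵥ w₀ + z * (l' i ⬝ᵥ k))}).Countable := by
      refine Set.Countable.biUnion T.countable_toSet fun i hi => ?_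
      have h3 : {z : ℂ | IsEis (l' i ⬝ᵥ w₀ + z * (l' i ⬝ᵥ k))} ⊆
          (fun y => (y - l' i ⬝ᵥ w₀) / (l' i ⬝ᵥ k)) '' {y : ℂ | IsEis y} := by
        intro z hz
        refine ⟨_, hz, ?_⟩
        have := hk' i hi
        show (l' i ⬝ᵥ w₀ + z * (l' i ⬝ᵥ k) - l' i ⬝ᵥ w₀) / (l' i ⬝ᵥ k) = z
        rw [add_sub_cancel_left, mul_div_cancel_right₀ _ this]
      exact (countable_eis.image _).mono h3
    exact not_countable_complex (h2.mono h1)
  refine ⟨w₀ + z • k, ?_, fun i hi => ?_⟩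
  · rw [dotProduct_add, dotProduct_smul, hk0', hw₀, smul_zero, add_zero]
  · rw [dotProduct_add, dotProduct_smul, smul_eq_mul]
    exact hz i hi

end Pool.Agent.H899.MK
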