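import Pool.Agent.H899.MK.Mv1
import Pool.Agent.H899.MK.Defs

/-! Movable line bundles given by invariant hermitian forms. -/

set_option autoImplicit false

namespace Pool.Agent.H899.MK

open Filter Topology
open Pool.Agent.R895 hiding prod_O form coef IsPullback span integral effective effCone
  semiample nefCone exists_cls prod_differentiable
open Pool.Agent.R895 (prod_differentiable)
open Pool.Agent.T6.H34.EK
open Pool.Agent.W594.SYZ2 (IsHermitian)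
open Pool.Agent.Y167 (AffGrp)

variable {n : ℕ}

/-- The transpose of a linear map. -/
noncomputable def tp (A : (Fin n → ℂ) ≃ₗ[ℂ] (Fin n → ℂ)) (l : Fin n → ℂ) : Fin n → ℂ :=
  fun j => l ⬝ᵥ A (Pi.single j 1)

theorem tp_dot (A : (Fin n → ℂ) ≃ₗ[ℂ] (Fin n → ℂ)) (l v : Fin n → ℂ) :
    tp A l ⬝ᵥ v = l ⬝ᵥ A v := by
  let L : (Fin n → ℂ) →ₗ[ℂ] ℂ :=
    { toFun := fun v => l ⬝ᵥ A v
      map_add' := fun u v => by rw [map_add, dotProduct_add]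
      map_smul' := fun a v => by rw [map_smul, dotProduct_smul]; rfl }
  have h3 : v = ∑ i, v i • (Pi.single i 1 : Fin n → ℂ) := by
    ext i
    simp [Finset.sum_apply, Pi.single_apply]
  have h4 : l ⬝ᵥ A v = L v := rfl
  rw [h4]
  conv_rhs => rw [h3]
  rw [map_sum, dotProduct]
  refine Finset.sum_congr rfl fun i _ => ?_
  rw [map_smul, smul_eq_mul, mul_comm]
  rfl

theorem lg_diff (A : (Fin n → ℂ) ≃ₗ[ℂ] (Fin n → ℂ)) (l : Fin n → ℂ) :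
    Differentiable ℂ fun v => l ⬝ᵥ A v := by
  have h1 : (fun v => l ⬝ᵥ A v) = fun v => tp A l ⬝ᵥ v := funext fun v => (tp_dot A l v).symm
  rw [h1]
  exact dot_differentiable _

theorem tp_lat {A : (Fin n → ℂ) ≃ₗ[ℂ] (Fin n → ℂ)} (hA : ∀ v, Lat v → Lat (A v))
    {l : Fin n → ℂ} (hl : Lat l) : Lat (tp A l) := fun j => lat_dot hl (hA _ (lat_single j))

theorem tp_ne {A : (Fin n → ℂ) ≃ₗ[ℂ] (Fin n → ℂ)} {l : Fin n → ℂ} (hl : l ≠ 0) : tp A l ≠ 0 := by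
  obtain ⟨i, hi⟩ := Function.ne_iff.1 hl
  intro h
  apply hi
  have h1 := tp_dot A l (A.symm (Pi.single i 1))
  rw [h, zero_dotProduct, A.apply_symm_apply, dotProduct_single, mul_one] at h1
  exact h1.symm

theorem Dec.mono {h : (Fin n → ℂ) → (Fin n → ℂ) → ℂ} {b : ℕ} {J J' : Set (Fin n → ℂ)}
    (hd : Dec h b J) (hJ : J' ⊆ J) : Dec h b J' := by
  obtain ⟨N, M, l, h1, h2, h3, T, h4, h5⟩ := hd
  exact ⟨N, M, l, h1, h2, h3, T, h4, fun i hi hJ' => h5 i hi (hJ hJ')⟩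

/-- A section which does not vanish at some point of a hyperplane. -/
theorem sec_pt [Nonempty (Fin n)] {h : (Fin n → ℂ) → (Fin n → ℂ) → ℂ} (hh : IsHermitian h)
    (hint : ∀ u w, Lat u → Lat w → IsEis (h u w)) {b : ℕ} {l : Fin n → ℂ} (hl0 : l ≠ 0)
    {N M : ℕ} {l' : Fin M → Fin n → ℂ} (hl' : ∀ i, Lat (l' i))
    (hsum : ∀ u w, N * h u w = ∑ i, (l' i ⬝ᵥ u) * (starRingEnd ℂ) (l' i ⬝ᵥ w))
    {T : Finset (Fin M)} (hT : T.card = N * b) (hTJ : ∀ i ∈ T, l' i ∉ {x | ∃ a : ℂ, x = a • l})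
    (c : ℂ) :
    ∃ s, ((thB 1 hh hint b).pow N).IsSection s ∧ ∃ w, l ⬝ᵥ w = c ∧ s w ≠ 0 := by
  obtain ⟨w, hw, hne⟩ := exists_pt T l' hl0 (fun i hi => hTJ i hi) c
  choose a ha using fun i => exists_th_ne (l' i ⬝ᵥ w)
  refine ⟨sec l' T a, sec_isSection hh hint b N l' hl' hsum T hT a, w, hw, ?_⟩
  unfold sec
  exact mul_ne_zero (Finset.prod_ne_zero_iff.2 fun i hi => th_zero_ne (hne i hi))
    (Finset.prod_ne_zero_iff.2 fun i _ => ha i)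

variable {G : Subgroup ((Fin n → ℂ) ≃ₗ[ℂ] (Fin n → ℂ))} {hG : PresLat G}
  {h : (Fin n → ℂ) → (Fin n → ℂ) → ℂ} [Fintype G]

/-- The projection to a hyperplane through `p` in the direction `u`. -/
noncomputable def prj (l p u v : Fin n → ℂ) : Fin n → ℂ := v - ((l ⬝ᵥ (v - p)) / (l ⬝ᵥ u)) • u

theorem prj_diff (l p u : Fin n → ℂ) : Differentiable ℂ (prj l p u) := by
  have h1 : Differentiable ℂ fun v : Fin n → ℂ => l ⬝ᵥ (v - p) := by
    have := dot_differentiable l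
    exact this.comp (differentiable_id.sub_const p)
  have h2 : Differentiable ℂ fun v : Fin n → ℂ => (l ⬝ᵥ (v - p)) / (l ⬝ᵥ u) := by
    simp only [div_eq_mul_inv]
    exact h1.mul_const _
  exact differentiable_id.sub (h2.smul_const u)

theorem prj_eq {l p u v : Fin n → ℂ} (h : l ⬝ᵥ v = l ⬝ᵥ p) : prj l p u v = v := by
  unfold prj
  rw [dotProduct_sub, h, sub_self, zero_div, zero_smul, sub_zero]

theorem prj_line {l p u v : Fin n → ℂ} {ζ : ℂ} (hu : l ⬝ᵥ u ≠ 0)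
    (h : l ⬝ᵥ (v + ζ • u) = l ⬝ᵥ p) : prj l p u v = v + ζ • u := by
  unfold prj
  rw [dotProduct_add, dotProduct_smul, smul_eq_mul] at h
  have h1 : l ⬝ᵥ (v - p) = -(ζ * (l ⬝ᵥ u)) := by
    rw [dotProduct_sub, ← h]
    ring
  rw [h1, neg_div, mul_div_cancel_right₀ _ hu, neg_smul, sub_neg_eq_add]

/-- **Movable line bundles.** -/
theorem movable_qB [Nonempty (Fin n)] (hG : PresLat G) (D : Dat h) (hi : Inv G h) {b : ℕ}
    (hdec : ∀ l : Fin n → ℂ, Lat l → l ≠ 0 → Dec h b {x | ∃ a : ℂ, x = a • l}) :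
    ∃ N : ℕ, 1 ≤ N ∧ IsMovable ((qB hG D.herm D.int hi b).toBlBundle.pow N) := by
  classical
  -- the first section
  obtain ⟨e₀, he₀, he₀0⟩ : ∃ e : Fin n → ℂ, Lat e ∧ e ≠ 0 :=
    ⟨Pi.single (Classical.arbitrary _) 1, lat_single _, fun h0 => by
      have := congrFun h0 (Classical.arbitrary (Fin n))
      simp at this⟩
  obtain ⟨N₀, M₀, l₀, hN₀, hl₀, hsum₀, T₀, hT₀, hTJ₀⟩ := hdec e₀ he₀ he₀0
  have hT₀0 : ∀ i ∈ T₀, l₀ i ≠ 0 := fun i hi h0 => hTJ₀ i hi ⟨0, by rw [h0, zero_smul]⟩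
  obtain ⟨a₀, ha₀⟩ := exists_th_ne 0
  obtain ⟨s₀, hs₀⟩ : ∃ s₀, s₀ = sec l₀ T₀ fun _ => a₀ := ⟨_, rfl⟩
  have hs₀S : ((thB 1 D.herm D.int b).pow N₀).IsSection s₀ := by
    rw [hs₀]
    exact sec_isSection D.herm D.int b N₀ l₀ hl₀ hsum₀ T₀ hT₀ _
  -- the other sections
  have hGs : ∀ g : G, ∀ v, Lat v → Lat ((g : (Fin n → ℂ) ≃ₗ[ℂ] (Fin n → ℂ)).symm v) := by
    intro g v hv
    exact hG _ (G.inv_mem g.2) v hv
  obtain ⟨A, hA⟩ : ∃ A : G → G → ((Fin n → ℂ) ≃ₗ[ℂ] (Fin n → ℂ)), A = fun (g g' : G) =>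
    (g' : (Fin n → ℂ) ≃ₗ[ℂ] (Fin n → ℂ)).symm.trans (g : (Fin n → ℂ) ≃ₗ[ℂ] (Fin n → ℂ)) := ⟨_, rfl⟩
  have hAv : ∀ g g' v, A g g' v = (g : (Fin n → ℂ) ≃ₗ[ℂ] (Fin n → ℂ))
      ((g' : (Fin n → ℂ) ≃ₗ[ℂ] (Fin n → ℂ)).symm v) := by
    intro g g' v
    rw [hA]
    rfl
  have hAl : ∀ g g' v, Lat v → Lat (A g g' v) := by
    intro g g' v hv
    rw [hAv]
    exact hG g g.2 _ (hGs g' v hv)
  have hdec' : ∀ (i : {i : Fin M₀ // l₀ i ≠ 0}) (g g' : G),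
      Dec h b {x | ∃ a : ℂ, x = a • tp (A g g') (l₀ i)} := fun i g g' =>
    hdec _ (tp_lat (hAl g g') (hl₀ i)) (tp_ne i.2)
  choose N' M' l' hN' hl' hsum' T' hT' hTJ' using hdec'
  obtain ⟨P, hP⟩ : ∃ P : ℕ, P = ∏ i, ∏ g, ∏ g', N' i g g' := ⟨_, rfl⟩
  have hP1 : 1 ≤ P := by
    rw [hP]
    refine Nat.one_le_iff_ne_zero.2 (Finset.prod_ne_zero_iff.2 fun i _ =>
      Finset.prod_ne_zero_iff.2 fun g _ => Finset.prod_ne_zero_iff.2 fun g' _ => ?_)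
    have := hN' i g g'
    omega
  have hPd : ∀ i g g', N' i g g' ∣ P := by
    intro i g g'
    rw [hP]
    exact ((Finset.dvd_prod_of_mem _ (Finset.mem_univ g')).trans
      (Finset.dvd_prod_of_mem (fun g => ∏ g', N' i g g') (Finset.mem_univ g))).trans
      (Finset.dvd_prod_of_mem (fun i => ∏ g, ∏ g', N' i g g') (Finset.mem_univ i))
  -- the direction
  obtain ⟨u, hu⟩ : ∃ u : Fin n → ℂ, ∀ x : {i : Fin M₀ // l₀ i ≠ 0} × G,
      l₀ x.1 ⬝ᵥ ((x.2 : (Fin n → ℂ) ≃ₗ[ℂ] (Fin n → ℂ)) u) ≠ 0 := by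
    let sub : {i : Fin M₀ // l₀ i ≠ 0} × G → Submodule ℂ (Fin n → ℂ) := fun x =>
      { carrier := {u | l₀ x.1 ⬝ᵥ ((x.2 : (Fin n → ℂ) ≃ₗ[ℂ] (Fin n → ℂ)) u) = 0}
        add_mem' := fun {u w} hu hw => by
          show l₀ x.1 ⬝ᵥ ((x.2 : (Fin n → ℂ) ≃ₗ[ℂ] (Fin n → ℂ)) (u + w)) = 0
          have hu' : l₀ x.1 ⬝ᵥ ((x.2 : (Fin n → ℂ) ≃ₗ[ℂ] (Fin n → ℂ)) u) = 0 := hu
          have hw' : l₀ x.1 ⬝ᵥ ((x.2 : (Fin n → ℂ) ≃ₗ[ℂ] (Fin n → ℂ)) w) = 0 := hw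
          rw [map_add, dotProduct_add, hu', hw', add_zero]
        zero_mem' := by
          show l₀ x.1 ⬝ᵥ ((x.2 : (Fin n → ℂ) ≃ₗ[ℂ] (Fin n → ℂ)) 0) = 0
          rw [map_zero, dotProduct_zero]
        smul_mem' := fun c u hu => by
          show l₀ x.1 ⬝ᵥ ((x.2 : (Fin n → ℂ) ≃ₗ[ℂ] (Fin n → ℂ)) (c • u)) = 0
          have hu' : l₀ x.1 ⬝ᵥ ((x.2 : (Fin n → ℂ) ≃ₗ[ℂ] (Fin n → ℂ)) u) = 0 := hu
          rw [map_smul, dotProduct_smul, hu', smul_zero] }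
    obtain ⟨u, hu⟩ := avoidC Finset.univ sub fun x _ htop => by
      obtain ⟨j, hj⟩ := Function.ne_iff.1 x.1.2
      apply hj
      have h1 : (x.2 : (Fin n → ℂ) ≃ₗ[ℂ] (Fin n → ℂ)).symm (Pi.single j 1) ∈ sub x := by
        rw [htop]; exact Submodule.mem_top
      have h2 : l₀ x.1 ⬝ᵥ ((x.2 : (Fin n → ℂ) ≃ₗ[ℂ] (Fin n → ℂ))
        ((x.2 : (Fin n → ℂ) ≃ₗ[ℂ] (Fin n → ℂ)).symm (Pi.single j 1))) = 0 := h1
      rwa [LinearEquiv.apply_symm_apply, dotProduct_single, mul_one] at h2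
    exact ⟨u, fun x h0 => hu x (Finset.mem_univ _) h0⟩
  have hpowS : ((thB 1 D.herm D.int b).pow (N₀ * P)).IsSection fun v => s₀ v ^ P :=
    sec_pow D.herm D.int hs₀S P
  have hu0 : ∃ u : Fin n → ℂ, u ≠ 0 ∧ ∀ g : G, ∀ i ∈ T₀,
      l₀ i ⬝ᵥ ((g : (Fin n → ℂ) ≃ₗ[ℂ] (Fin n → ℂ)) u) ≠ 0 := by
    by_cases h0 : u = 0
    · refine ⟨e₀, he₀0, fun g i hi => ?_⟩
      exfalso
      have := hu (⟨i, hT₀0 i hi⟩, g)
      rw [h0, map_zero, dotProduct_zero] at this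
      exact this rfl
    · exact ⟨u, h0, fun g i hi => hu (⟨i, hT₀0 i hi⟩, g)⟩
  refine ⟨N₀ * P, Nat.mul_pos hN₀ hP1, ⟨?_, ?_⟩⟩
  · -- the exceptional divisor
    obtain ⟨u₁, hu₁, hu₁'⟩ := hu0
    refine ⟨nm G fun v => s₀ v ^ P, nm_section hG D.herm D.int hi hpowS, u₁, hu₁,
      nm_nonvanishing hG D.herm D.int hi fun g => nonvanishing_pow D.herm D.int ?_ P⟩
    rw [hs₀]
    exact sec_nonvanishing D.herm D.int b N₀ l₀ T₀ hT₀ _ (fun _ => ha₀) (hu₁' g)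
  · -- the other divisors
    rintro t ht ⟨p, hp⟩
    -- the factors of the norm of the first section
    obtain ⟨θ, hθ⟩ : ∃ θ : Fin M₀ → ℂ → ℂ, θ = fun i => th (if i ∈ T₀ then 0 else a₀) := ⟨_, rfl⟩
    have hθd : ∀ i, Differentiable ℂ (θ i) := fun i => by rw [hθ]; exact th_entire _
    have hnm : ∀ v, nm G (fun v => s₀ v ^ P) v = 0 →
        ∃ (i : Fin M₀) (g : G), θ i (l₀ i ⬝ᵥ ((g : (Fin n → ℂ) ≃ₗ[ℂ] (Fin n → ℂ)) v)) = 0 := by
      intro v hv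
      obtain ⟨g, -, hg⟩ := Finset.prod_eq_zero_iff.1 hv
      have h1 : s₀ ((g : (Fin n → ℂ) ≃ₗ[ℂ] (Fin n → ℂ)) v) = 0 :=
        (pow_eq_zero_iff (by omega)).1 hg
      rw [hs₀, sec_eq] at h1
      obtain ⟨i, -, hi⟩ := Finset.prod_eq_zero_iff.1 h1
      exact ⟨i, g, by rw [hθ]; exact hi⟩
    have hθ0 : ∀ i, l₀ i = 0 → θ i 0 ≠ 0 := by
      intro i hi0
      rw [hθ]
      simp only
      rw [if_neg fun hiT => hT₀0 i hiT hi0]
      exact ha₀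
    have hθne : ∀ i, ∃ w, θ i w ≠ 0 := by
      intro i
      rw [hθ]
      simp only
      split_ifs
      · exact ⟨_, th_zero_ne (not_eis_half 0)⟩
      · exact ⟨0, ha₀⟩
    by_cases hτ : ∀ ζ : ℂ, t (p + ζ • u) = 0
    · -- the function `t` is zero on the line
      have h1 : ∀ᶠ ζ in 𝓝[≠] (0 : ℂ), ∀ x : {i : Fin M₀ // l₀ i ≠ 0} × G,
          θ x.1 (l₀ x.1 ⬝ᵥ ((x.2 : (Fin n → ℂ) ≃ₗ[ℂ] (Fin n → ℂ)) (p + ζ • u))) ≠ 0 := by
        refine Filter.eventually_all.2 fun x => ?_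
        have hd : Differentiable ℂ fun ζ : ℂ =>
            θ x.1 (l₀ x.1 ⬝ᵥ ((x.2 : (Fin n → ℂ) ≃ₗ[ℂ] (Fin n → ℂ)) (p + ζ • u))) := by
          have h2 : Differentiable ℂ fun ζ : ℂ => p + ζ • u := by fun_prop
          have h3 := (lg_diff (x.2 : (Fin n → ℂ) ≃ₗ[ℂ] (Fin n → ℂ)) (l₀ x.1)).comp h2
          exact (hθd x.1).comp h3
        obtain ⟨w, hw⟩ := hθne x.1
        have hux := hu x
        refine ev_ne hd ⟨(w - l₀ x.1 ⬝ᵥ ((x.2 : (Fin n → ℂ) ≃ₗ[ℂ] (Fin n → ℂ)) p)) /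
          (l₀ x.1 ⬝ᵥ ((x.2 : (Fin n → ℂ) ≃ₗ[ℂ] (Fin n → ℂ)) u)), ?_⟩ 0
        rw [map_add, map_smul, dotProduct_add, dotProduct_smul, smul_eq_mul,
          div_mul_cancel₀ _ hux, add_sub_cancel]
        exact hw
      obtain ⟨ζ, hζ⟩ := h1.exists
      refine ⟨nm G fun v => s₀ v ^ P, nm_section hG D.herm D.int hi hpowS, p + ζ • u, hτ ζ,
        fun h0 => ?_⟩
      obtain ⟨i, g, hig⟩ := hnm _ h0
      by_cases hi0 : l₀ i = 0
      · rw [hi0, zero_dotProduct] at hig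
        exact hθ0 i hi0 hig
      · exact hζ (⟨i, hi0⟩, g) hig
    · -- the zeros of `t` near `p`
      push Not at hτ
      have hline : Differentiable ℂ fun ζ : ℂ => t (p + ζ • u) := by
        have h2 : Differentiable ℂ fun ζ : ℂ => p + ζ • u := by fun_prop
        exact ht.comp h2
      have hiso := ev_ne hline hτ 0
      -- the factors of the first section near `p`
      have hU : ∀ᶠ v in 𝓝 p, ∀ x : {i : Fin M₀ // l₀ i ≠ 0} × G,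
          θ x.1 (l₀ x.1 ⬝ᵥ ((x.2 : (Fin n → ℂ) ≃ₗ[ℂ] (Fin n → ℂ)) v)) = 0 →
            l₀ x.1 ⬝ᵥ ((x.2 : (Fin n → ℂ) ≃ₗ[ℂ] (Fin n → ℂ)) v) =
              l₀ x.1 ⬝ᵥ ((x.2 : (Fin n → ℂ) ≃ₗ[ℂ] (Fin n → ℂ)) p) := by
        refine Filter.eventually_all.2 fun x => ?_
        have h2 := ev_ne (hθd x.1) (hθne x.1)
          (l₀ x.1 ⬝ᵥ ((x.2 : (Fin n → ℂ) ≃ₗ[ℂ] (Fin n → ℂ)) p))
        have h3 : Continuous fun v : Fin n → ℂ =>
            l₀ x.1 ⬝ᵥ ((x.2 : (Fin n → ℂ) ≃ₗ[ℂ] (Fin n → ℂ)) v) :=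
          (lg_diff (x.2 : (Fin n → ℂ) ≃ₗ[ℂ] (Fin n → ℂ)) (l₀ x.1)).continuous
        have h4 := eventually_nhdsWithin_iff.1 h2
        filter_upwards [(h3.tendsto p).eventually h4] with v hv h0
        by_contra hne
        exact hv hne h0
      obtain ⟨δ, hδ, hδU⟩ := Metric.eventually_nhds_iff.1 hU
      -- the radius
      obtain ⟨ε, hε, hε1, hε2⟩ : ∃ ε : ℝ, 0 < ε ∧ (∀ ζ : ℂ, ‖ζ‖ = ε → t (p + ζ • u) ≠ 0) ∧
          ∀ ζ : ℂ, ‖ζ‖ ≤ ε → ‖ζ • u‖ < δ / 2 := by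
        obtain ⟨r, hr, hrU⟩ := Metric.eventually_nhds_iff.1 (eventually_nhdsWithin_iff.1 hiso)
        have hd : 0 < δ / (2 * (‖u‖ + 1)) := by positivity
        refine ⟨min (r / 2) (δ / (4 * (‖u‖ + 1))), lt_min (by positivity) (by positivity),
          fun ζ hζ => hrU ?_ ?_, fun ζ hζ => ?_⟩
        · rw [dist_zero_right, hζ]
          exact lt_of_le_of_lt (min_le_left _ _) (by linarith)
        · intro h0
          have h0' : ζ = 0 := h0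
          rw [h0', norm_zero] at hζ
          have := lt_min (show 0 < r / 2 by positivity)
            (show 0 < δ / (4 * (‖u‖ + 1)) by positivity)
          rw [← hζ] at this
          exact lt_irrefl _ this
        · rw [norm_smul]
          have h1 := hζ.trans (min_le_right _ _)
          have h2 : ‖ζ‖ * ‖u‖ ≤ δ / (4 * (‖u‖ + 1)) * ‖u‖ :=
            mul_le_mul_of_nonneg_right h1 (norm_nonneg _)
          have h3 : δ / (4 * (‖u‖ + 1)) * ‖u‖ ≤ δ / 4 := by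
            rw [div_mul_eq_mul_div, div_le_div_iff₀ (by positivity) (by norm_num)]
            nlinarith [norm_nonneg u]
          linarith
      have hH := hurwitz ht hε hp hε1
      -- the sections for the hyperplanes
      have hsec : ∀ (i : {i : Fin M₀ // l₀ i ≠ 0}) (g : G), ∃ s,
          ((thB 1 D.herm D.int b).pow (N₀ * P)).IsSection s ∧
          ∀ g' : G, ∃ w, l₀ i ⬝ᵥ ((g : (Fin n → ℂ) ≃ₗ[ℂ] (Fin n → ℂ)) w) =
            l₀ i ⬝ᵥ ((g : (Fin n → ℂ) ≃ₗ[ℂ] (Fin n → ℂ)) p) ∧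
            s ((g' : (Fin n → ℂ) ≃ₗ[ℂ] (Fin n → ℂ)) w) ≠ 0 := by
        intro i g
        have h1 : ∀ g' : G, ∃ s, ((thB 1 D.herm D.int b).pow (N' i g g')).IsSection s ∧
            ∃ w, tp (A g g') (l₀ i) ⬝ᵥ w =
              l₀ i ⬝ᵥ ((g : (Fin n → ℂ) ≃ₗ[ℂ] (Fin n → ℂ)) p) ∧ s w ≠ 0 := fun g' =>
          sec_pt D.herm D.int (tp_ne i.2) (hl' i g g') (hsum' i g g') (hT' i g g')
            (hTJ' i g g') _
        choose s hs w hw hne using h1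
        obtain ⟨s', hs', h0'⟩ := exists_sec_out (L := (thB 1 D.herm D.int b).pow (N₀ * P)) w
          fun g' => by
            obtain ⟨Q, hQ⟩ := (hPd i g g').mul_left N₀
            refine ⟨fun v => s g' v ^ Q, ?_, pow_ne_zero _ (hne g')⟩
            rw [hQ]
            exact sec_pow D.herm D.int (hs g') Q
        refine ⟨s', hs', fun g' => ⟨(g' : (Fin n → ℂ) ≃ₗ[ℂ] (Fin n → ℂ)).symm (w g'), ?_, ?_⟩⟩
        · rw [← hw g', tp_dot, hAv]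
        · rw [LinearEquiv.apply_symm_apply]
          exact h0' g'
      choose s hs hsw using hsec
      -- the product of the restrictions
      obtain ⟨l₁, hl₁⟩ : ∃ l₁ : {i : Fin M₀ // l₀ i ≠ 0} × G → Fin n → ℂ, l₁ = fun x =>
        tp (x.2 : (Fin n → ℂ) ≃ₗ[ℂ] (Fin n → ℂ)) (l₀ x.1) := ⟨_, rfl⟩
      have hl₁d : ∀ x v, l₁ x ⬝ᵥ v = l₀ x.1 ⬝ᵥ ((x.2 : (Fin n → ℂ) ≃ₗ[ℂ] (Fin n → ℂ)) v) := by
        intro x v
        rw [hl₁]
        exact tp_dot _ _ _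
      obtain ⟨R, hR⟩ : ∃ R : {i : Fin M₀ // l₀ i ≠ 0} × G → (Fin n → ℂ) → ℂ,
        R = fun (x : {i : Fin M₀ // l₀ i ≠ 0} × G) (v : Fin n → ℂ) => nm G (s x.1 x.2) (prj (l₁ x) p u v) := ⟨_, rfl⟩
      have hnmd : ∀ x : {i : Fin M₀ // l₀ i ≠ 0} × G, Differentiable ℂ (nm G (s x.1 x.2)) := by
        intro x
        exact prod_differentiable Finset.univ
          (fun (g : G) v => s x.1 x.2 ((g : (Fin n → ℂ) ≃ₗ[ℂ] (Fin n → ℂ)) v))
          fun g => (hs x.1 x.2).holo.comp (Pool.Agent.R895.differentiable_equiv _)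
      have hRd : ∀ x, Differentiable ℂ (R x) := by
        intro x
        rw [hR]
        exact (hnmd x).comp (prj_diff _ _ _)
      have hR0 : ∀ x, ∃ v, R x v ≠ 0 := by
        intro x
        rw [hR]
        refine prod_ne Finset.univ (fun (g' : G) v => s x.1 x.2
          ((g' : (Fin n → ℂ) ≃ₗ[ℂ] (Fin n → ℂ)) (prj (l₁ x) p u v))) (fun g' => ?_)
          fun g' _ => ?_
        · exact (hs x.1 x.2).holo.comp ((Pool.Agent.R895.differentiable_equiv _).comp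
            (prj_diff _ _ _))
        · obtain ⟨w, hw1, hw2⟩ := hsw x.1 x.2 g'
          refine ⟨w, ?_⟩
          rw [prj_eq (by rw [hl₁d, hl₁d]; exact hw1)]
          exact hw2
      have hprod := prod_ne Finset.univ R hRd fun x _ => hR0 x
      have hprodd : Differentiable ℂ fun v => ∏ x, R x v := prod_differentiable _ R hRd
      obtain ⟨p', hp', hp'0⟩ := exists_near_ne hprodd hprod
        (hH.and (Metric.ball_mem_nhds p (show 0 < δ / 2 by positivity)))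
      obtain ⟨⟨ζ, hζ, hζ0⟩, hp'2⟩ := hp'
      have hdist : dist (p' + ζ • u) p < δ := by
        rw [dist_eq_norm]
        have h1 : ‖p' - p‖ < δ / 2 := by rwa [← dist_eq_norm]
        have h2 := hε2 ζ hζ
        calc ‖p' + ζ • u - p‖ = ‖(p' - p) + ζ • u‖ := by congr 1; abel
          _ ≤ ‖p' - p‖ + ‖ζ • u‖ := norm_add_le _ _
          _ < δ := by linarith
      by_cases h0 : nm G (fun v => s₀ v ^ P) (p' + ζ • u) = 0
      · obtain ⟨i, g, hig⟩ := hnm _ h0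
        have hi0 : l₀ i ≠ 0 := by
          intro hi0
          rw [hi0, zero_dotProduct] at hig
          exact hθ0 i hi0 hig
        obtain ⟨x, hx⟩ : ∃ x : {i : Fin M₀ // l₀ i ≠ 0} × G, x = (⟨i, hi0⟩, g) := ⟨_, rfl⟩
        have h1 : l₀ x.1 ⬝ᵥ ((x.2 : (Fin n → ℂ) ≃ₗ[ℂ] (Fin n → ℂ)) (p' + ζ • u)) =
            l₀ x.1 ⬝ᵥ ((x.2 : (Fin n → ℂ) ≃ₗ[ℂ] (Fin n → ℂ)) p) :=
          hδU hdist x (by rw [hx]; exact hig)
        have h2 : prj (l₁ x) p u p' = p' + ζ • u := by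
          refine prj_line ?_ ?_
          · rw [hl₁d]
            exact hu x
          · rw [hl₁d, hl₁d]
            exact h1
        have h3 := Finset.prod_ne_zero_iff.1 hp'0 x (Finset.mem_univ x)
        rw [hR] at h3
        simp only at h3
        rw [h2] at h3
        exact ⟨nm G (s x.1 x.2), nm_section hG D.herm D.int hi (hs x.1 x.2), p' + ζ • u, hζ0, h3⟩
      · exact ⟨nm G fun v => s₀ v ^ P, nm_section hG D.herm D.int hi hpowS, p' + ζ • u, hζ0, h0⟩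

end Pool.Agent.H899.MK
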