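import Pool.Agent.H899.MK.Ub2
import Pool.Agent.H899.MK.Dc
import Pool.Agent.H899.MK.Defs

/-! Bounds for the classes of movable line bundles. -/

set_option autoImplicit false

namespace Pool.Agent.H899.MK

open Filter Topology Asymptotics Complex
open Matrix hiding IsHermitian
open Pool.Agent.R895 (Lat BlBundle act kum IsEis frm kap kap_pos om h_quad mem_kum_trans Nf)
open Pool.Agent.T6.H34.EK
open Pool.Agent.W594.SYZ2 (IsHermitian)
open Pool.Agent.Y167 (AffGrp cone)

theorem nonneg_of_nonvanishing {V : Type*} [NormedAddCommGroup V] [NormedSpace ℂ V] {Γ : AffGrp V}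
    {L : BlBundle Γ} {s : V → ℂ} {u : V} (hs : L.IsSection s) (hu : L.NonvanishingAt s u) :
    0 ≤ L.k := by
  by_contra hcon
  push Not at hcon
  obtain ⟨c, hc, hlim⟩ := hu
  apply hc
  refine tendsto_nhds_unique hlim ?_
  obtain ⟨n, hn⟩ : ∃ n : ℕ, L.k = -((n : ℤ) + 1) := by
    refine ⟨(-L.k - 1).toNat, ?_⟩
    rw [Int.toNat_of_nonneg (by omega)]
    ring
  have h1 : ∀ t : ℂ, s (t • u) / t ^ L.k = s (t • u) * t ^ (n + 1) := by
    intro t
    rw [hn, _root_.zpow_neg, div_inv_eq_mul]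
    congr 1
  simp only [h1]
  have h2 : Continuous fun t : ℂ => s (t • u) * t ^ (n + 1) := by
    have h3 : Continuous fun t : ℂ => t • u := by fun_prop
    exact (hs.holo.continuous.comp h3).mul (continuous_pow _)
  have h3 := h2.tendsto 0
  rw [zero_pow (Nat.succ_ne_zero n), mul_zero] at h3
  exact h3.mono_left nhdsWithin_le_nhds

variable {n : ℕ}

/-- The plane spanned by two vectors. -/
def jj (v w : Fin n → ℂ) (z : ℂ × ℂ) : Fin n → ℂ := z.1 • v + z.2 • w

theorem jj_add (v w : Fin n → ℂ) (x y : ℂ × ℂ) : jj v w (x + y) = jj v w x + jj v w y := by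
  unfold jj
  rw [Prod.fst_add, Prod.snd_add]
  module

theorem jj_smul (v w : Fin n → ℂ) (a : ℂ) (x : ℂ × ℂ) : jj v w (a • x) = a • jj v w x := by
  unfold jj
  rw [Prod.smul_fst, Prod.smul_snd, smul_eq_mul, smul_eq_mul]
  module

theorem jj_diff (v w : Fin n → ℂ) : Differentiable ℂ (jj v w) := by
  unfold jj
  fun_prop

/-- A section which does not vanish identically on the plane spanned by two lattice vectors. -/
theorem sec_S4 {L : BlBundle (kum (Fin n) 1)} {H : (Fin n → ℂ) → (Fin n → ℂ) → ℂ}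
    (hL : L.IsChern H) {s : (Fin n → ℂ) → ℂ} (hs : L.IsSection s) {v w : Fin n → ℂ}
    (hv : Lat v) (hw : Lat w) (h0 : ∃ z, s (jj v w z) ≠ 0) :
    3 * (kap * (L.k.toNat : ℝ)) ≤ S4 H v w := by
  obtain ⟨hH, F, hF, hFe⟩ := hL
  have hk := kap_pos
  obtain ⟨Q, hQd⟩ : ∃ Q : ℂ × ℂ → ℝ, Q = fun z => (H (jj v w z) (jj v w z)).re / kap := ⟨_, rfl⟩
  have hQk : ∀ z, kap * Q z = (H (jj v w z) (jj v w z)).re := by
    intro z
    rw [hQd]
    field_simp
  have hQ : HQ Q := by
    intro a b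
    refine ⟨H (jj v w b) (jj v w a) / kap, fun z => ?_⟩
    have h1 := h_quad hH (jj v w a) (jj v w b) z
    have h2 : (z * (H (jj v w b) (jj v w a) / kap)).re = (z * H (jj v w b) (jj v w a)).re / kap := by
      rw [← mul_div_assoc, Complex.div_ofReal_re]
    rw [hQd]
    beta_reduce
    rw [jj_add, jj_smul, h1, h2]
    field_simp
  obtain ⟨f, hf⟩ : ∃ f : ℂ × ℂ → ℂ, f = fun z => s (jj v w z) * exp (-F (jj v w z)) := ⟨_, rfl⟩
  have hfQ : QP Q f := by
    refine ⟨?_, fun l hl z => ?_⟩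
    · rw [hf]
      exact (hs.holo.comp (jj_diff v w)).mul ((hF.comp (jj_diff v w)).neg.cexp)
    · have hlv : Lat (jj v w l) := fun i => (hl.1.mul (hv i)).add (hl.2.mul (hw i))
      obtain ⟨γ, hγ⟩ : ∃ γ : kum (Fin n) 1, ∀ x, act γ x = x + jj v w l :=
        ⟨⟨_, mem_kum_trans hlv⟩, fun x => by
          show AffineEquiv.constVAdd ℂ (Fin n → ℂ) (jj v w l) x = _
          rw [AffineEquiv.constVAdd_apply, vadd_eq_add, add_comm]⟩
      have h1 := hFe γ (jj v w z)
      have h2 := hs.eq γ (jj v w z)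
      rw [hγ, ← jj_add] at h1 h2
      have e1 : ∀ z, Real.exp (-(Real.pi * kap * Q z)) =
          Real.exp (-(Real.pi * (H (jj v w z) (jj v w z)).re)) := by
        intro z
        rw [mul_assoc, hQk]
      have e2 : ∀ z, ‖f z‖ ^ 2 = ‖s (jj v w z)‖ ^ 2 * Real.exp (-(2 * (F (jj v w z)).re)) := by
        intro z
        rw [hf]
        beta_reduce
        rw [norm_mul, mul_pow, norm_exp, ← Real.exp_nat_mul]
        congr 2
        rw [neg_re]
        push_cast
        ring
      rw [e1, e1, e2, e2, h2, norm_mul, mul_pow, h1]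
      have e3 : Real.exp (Real.pi * (H (jj v w (z + l)) (jj v w (z + l))).re +
          2 * (F (jj v w (z + l))).re - (Real.pi * (H (jj v w z) (jj v w z)).re +
          2 * (F (jj v w z)).re)) * (Real.exp (-(2 * (F (jj v w (z + l))).re)) *
          Real.exp (-(Real.pi * (H (jj v w (z + l)) (jj v w (z + l))).re))) =
          Real.exp (-(2 * (F (jj v w z)).re)) *
          Real.exp (-(Real.pi * (H (jj v w z) (jj v w z)).re)) := by
        rw [← Real.exp_add, ← Real.exp_add, ← Real.exp_add]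
        congr 1
        ring
      linear_combination ‖s (jj v w z)‖ ^ 2 * e3
  have hf0 : ∃ z, f z ≠ 0 := by
    obtain ⟨z, hz⟩ := h0
    refine ⟨z, ?_⟩
    rw [hf]
    exact mul_ne_zero hz (exp_ne_zero _)
  have hO : f =O[𝓝 0] fun z => ‖z‖ ^ L.k.toNat := by
    have h1 : Tendsto (jj v w) (𝓝 0) (𝓝 0) := by
      have := (jj_diff v w).continuous.tendsto 0
      have h2 : jj v w 0 = 0 := by unfold jj; simp
      rwa [h2] at this
    have h3 : (fun z => s (jj v w z)) =O[𝓝 0] fun z => ‖z‖ ^ L.k.toNat := by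
      refine (hs.ord.comp_tendsto h1).trans ?_
      have h4 : (jj v w) =O[𝓝 0] fun z => z := by
        have h5 := ((jj_diff v w) 0).hasFDerivAt.isBigO_sub
        have h2 : jj v w 0 = 0 := by unfold jj; simp
        rw [h2] at h5
        simpa using h5
      exact (h4.norm_norm).pow _
    have h4 : (fun z => exp (-F (jj v w z))) =O[𝓝 0] fun _ => (1 : ℝ) := by
      have h5 : Differentiable ℂ fun z => exp (-F (jj v w z)) :=
        (hF.comp (jj_diff v w)).neg.cexp
      exact h5.continuous.continuousAt.isBigO_one ℝ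
    have h5 := h3.mul h4
    simp only [mul_one] at h5
    rw [hf]
    exact h5
  have h1 := eff2 L.k.toNat Q f hQ hfQ hf0 hO
  have h2 : kap * (Q (1, 0) + Q (0, 1) + Q (1, 1) + Q (1, -om)) = S4 H v w := by
    rw [mul_add, mul_add, mul_add, hQk, hQk, hQk, hQk]
    unfold S4 jj
    simp only [one_smul, zero_smul, add_zero, zero_add, neg_smul, ← sub_eq_add_neg]
  rw [← h2]
  nlinarith

/-- A plane in `ℂ³` is the set of zeros of a linear function. -/
theorem exists_plane {v w : Fin 3 → ℂ} (h : Ind v w) : ∃ t : (Fin 3 → ℂ) → ℂ,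
    Differentiable ℂ t ∧ t 0 = 0 ∧ ∀ x, t x = 0 → ∃ z, x = jj v w z := by
  obtain ⟨M, hM⟩ : ∃ M : (Fin 3 → ℂ) → Matrix (Fin 3) (Fin 3) ℂ, M = fun x =>
    Matrix.of fun i => ![v i, w i, x i] := ⟨_, rfl⟩
  refine ⟨fun x => (M x).det, ?_, ?_, fun x hx => ?_⟩
  · have h1 : (fun x => (M x).det) = fun x : Fin 3 → ℂ =>
        v 0 * w 1 * x 2 - v 0 * x 1 * w 2 - w 0 * v 1 * x 2 + w 0 * x 1 * v 2 +
          x 0 * v 1 * w 2 - x 0 * w 1 * v 2 := by
      funext x
      rw [det_fin_three, hM]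
      simp
    rw [h1]
    fun_prop
  · rw [hM]
    beta_reduce
    rw [det_fin_three]
    simp
  · obtain ⟨y, hy0, hy⟩ := exists_mulVec_eq_zero_iff.2 hx
    have h1 : ∀ i, y 0 * v i + y 1 * w i + y 2 * x i = 0 := by
      intro i
      have := congrFun hy i
      rw [hM] at this
      simp only [mulVec, dotProduct, Fin.sum_univ_three, Matrix.of_apply, Matrix.cons_val_zero,
        Matrix.cons_val_one, Matrix.cons_val, Pi.zero_apply] at this
      linear_combination this
    have h2 : y 2 ≠ 0 := by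
      intro h2
      have h3 : y 0 • v + y 1 • w = 0 := by
        ext i
        have := h1 i
        rw [h2] at this
        simp only [Pi.add_apply, Pi.smul_apply, smul_eq_mul, Pi.zero_apply]
        linear_combination this
      obtain ⟨h4, h5⟩ := h _ _ h3
      apply hy0
      ext i
      fin_cases i
      · exact h4
      · exact h5
      · exact h2
    refine ⟨(-(y 0 / y 2), -(y 1 / y 2)), ?_⟩
    ext i
    unfold jj
    simp only [Pi.add_apply, Pi.smul_apply, smul_eq_mul]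
    field_simp
    linear_combination h1 i

variable {G : Subgroup ((Fin 3 → ℂ) ≃ₗ[ℂ] (Fin 3 → ℂ))} {hG : PresLat G}

/-- **The upper bound** for the coefficient of a movable line bundle. -/
theorem movable_le {L : BlBundle (grp G hG)} (hm : IsMovable L)
    {H : (Fin 3 → ℂ) → (Fin 3 → ℂ) → ℂ} (hL : L.IsChern H) :
    0 ≤ L.k ∧ ∀ v w : Fin 3 → ℂ, Lat v → Lat w → Ind v w → 3 * (kap * (L.k : ℝ)) ≤ S4 H v w := by
  have h0 : 0 ≤ L.k := by
    obtain ⟨s, hs, u, -, hu⟩ := hm.exc
    exact nonneg_of_nonvanishing hs hu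
  refine ⟨h0, fun v w hv hw hvw => ?_⟩
  obtain ⟨t, ht, ht0, htz⟩ := exists_plane hvw
  obtain ⟨s, hs, p, hp, hsp⟩ := hm.out t ht ⟨0, ht0⟩
  obtain ⟨z, rfl⟩ := htz p hp
  have hL' : (res L).IsChern H := ⟨hL.1, hL.2.choose, hL.2.choose_spec.1, fun γ x =>
    hL.2.choose_spec.2 ⟨γ.1, kum_le γ.2⟩ x⟩
  have h1 := sec_S4 hL' (res_section' hs) hv hw ⟨z, hsp⟩
  have h2 : ((((res L).k.toNat : ℕ) : ℤ) : ℝ) = L.k := by
    have : (((res L).k.toNat : ℕ) : ℤ) = L.k := Int.toNat_of_nonneg h0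
    rw [this]
  rw [← h2]
  exact_mod_cast h1

end Pool.Agent.H899.MK
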