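import Pool.Agent.H899.MK.Cv
import Pool.Agent.H899.MK.Mv2
import Pool.Agent.H899.MK.Ub3

/-! The movable cone. -/

set_option autoImplicit false
set_option maxHeartbeats 400000

namespace Pool.Agent.H899.MK

open Filter Topology
open Pool.Agent.W594.SYZ2 (IsHermitian)
open Pool.Agent.R895 (Lat IsEis std frm kap kap_pos Nf Dat om N1 kum frm_add frm_smul frm_sub
  frm_zero frm_herm id_isExt form_frm std_dat std_nonneg std_pos one_le_std re_natMul)
open Pool.Agent.T6.H34.EK
open Pool.Agent.Y167 (AffGrp cone CData cone_ind cone_add cone_smul cone_sum cone_le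
  mem_cone_self mem_cone_of_sum zero_mem_cone cone_cut cone_image)

variable {G : Subgroup ((Fin 3 → ℂ) ≃ₗ[ℂ] (Fin 3 → ℂ))} {hG : PresLat G}

theorem movable_eff {x : NS (grp G hG)} (hx : x ∈ movable (grp G hG)) :
    x ∈ effective (grp G hG) := by
  obtain ⟨L, hL, hm⟩ := hx
  obtain ⟨s, hs, v, hv, hsv⟩ := hm.out (fun v => v 0) (by fun_prop) ⟨0, rfl⟩
  exact ⟨L, s, hL, hs, v, hsv⟩

theorem movable_MfQ {x : NS (grp G hG)} (hx : x ∈ movable (grp G hG)) : x ∈ MfQ hG := by
  have heff := movable_eff hx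
  obtain ⟨L, hL, hm⟩ := hx
  obtain ⟨h1, h2⟩ := movable_le hm hL.1
  have hk : coef x = L.k := hL.2
  refine ⟨Pool.Agent.R895.effective_psd (id_isExt 3) (up_effective heff),
    by rw [hk]; exact_mod_cast h1, fun v w hv hw hvw => ?_⟩
  have h3 := h2 v w hv hw hvw
  have h4 : S4 (form x) v w = kap * S4 (frm (up x)) v w := S4_eq (fun v => by
    rw [← form_up, form_frm, Complex.re_ofReal_mul]) v w
  have h5 : 3 * (kap * coef x) ≤ kap * S4 (frm (up x)) v w := by
    rw [← h4, hk]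
    exact h3
  have h6 : kap * (3 * coef x) ≤ kap * S4 (frm (up x)) v w := by linarith
  exact le_of_mul_le_mul_left h6 kap_pos

theorem movCone_le : movCone (grp G hG) ⊆ MfQ hG := by
  refine closure_minimal ?_ isClosed_MfQ
  rintro x ⟨S, hS, hx⟩
  exact cone_MfQ (fun a ha => movable_MfQ (hS ha)) hx

theorem mov_add {x y : NS (grp G hG)} (hx : x ∈ movCone (grp G hG)) (hy : y ∈ movCone (grp G hG)) :
    x + y ∈ movCone (grp G hG) :=
  map_mem_closure₂ continuous_add hx hy fun _ ha _ hb => span_add ha hb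

theorem mov_smul {x : NS (grp G hG)} (hx : x ∈ movCone (grp G hG)) {t : ℝ} (ht : 0 ≤ t) :
    t • x ∈ movCone (grp G hG) :=
  map_mem_closure (continuous_const_smul t) hx fun _ ha => span_smul ha ht

theorem mov_zero : (0 : NS (grp G hG)) ∈ movCone (grp G hG) := subset_closure span_zero

theorem cone_mov {S : Finset (NS (grp G hG))} (hS : ∀ a ∈ S, a ∈ movCone (grp G hG))
    {x : NS (grp G hG)} (hx : x ∈ cone S) : x ∈ movCone (grp G hG) :=
  cone_ind (p := fun x => x ∈ movCone (grp G hG)) mov_zero (fun _ _ h1 h2 => mov_add h1 h2)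
    (fun _ _ ht h => mov_smul h ht) hS hx

theorem coef_natM {a : NS (grp G hG)} (ha : a ∈ MfQ hG) {n : ℤ} (hn : coef a = n) :
    ∃ b : ℕ, coef a = b := by
  have h1 : 0 ≤ coef a := ha.2.1
  rw [hn] at h1
  have h2 : 0 ≤ n := by exact_mod_cast h1
  obtain ⟨b, rfl⟩ := Int.eq_ofNat_of_zero_le h2
  exact ⟨b, by rw [hn]; simp⟩

variable [Fintype G]

/-- An integral class in the cone `MfQ` is in the movable cone. -/
theorem mov_of_int {a : NS (grp G hG)} (ha : a ∈ LQ hG) (haN : a ∈ MfQ hG) :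
    a ∈ movCone (grp G hG) := by
  obtain ⟨y₀, -, hy1, hy2⟩ := exists_y₀ hG
  obtain ⟨D, k, hk⟩ := dat_of_LQ ha
  obtain ⟨b, hb⟩ := coef_natM haN hk
  refine mem_closed (y := y₀) isClosed_closure fun k => subset_closure ?_
  set K : ℕ := k + 1 with hK
  have hKr : ((K : ℕ) : ℝ) = (k : ℝ) + 1 := by rw [hK]; push_cast; rfl
  have hK0 : (0 : ℝ) < K := by rw [hKr]; positivity
  have hcc := c0_real (G := G)
  have D' : Dat fun u w => (K : ℂ) * frm (up a) u w + ((2 * c0 G : ℕ) : ℂ) * avg G std u w :=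
    (D.natMul K).add ((avg_dat hG std_dat).natMul (2 * c0 G))
  have hi' : Inv G fun u w => (K : ℂ) * frm (up a) u w + ((2 * c0 G : ℕ) : ℂ) * avg G std u w :=
    inv_comb (frm_inv a) (avg_inv std) _ _
  have hre : ∀ v, ((K : ℂ) * frm (up a) v v + ((2 * c0 G : ℕ) : ℂ) * avg G std v v).re =
      K * (frm (up a) v v).re + 2 * c0 G * (avg G std v v).re := by
    intro v
    rw [Complex.add_re, re_natMul, re_natMul]
    push_cast
    ring
  have hpos : ∀ v, v ≠ 0 →
      0 < ((K : ℂ) * frm (up a) v v + ((2 * c0 G : ℕ) : ℂ) * avg G std v v).re := by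
    intro v hv
    rw [hre]
    have h1 := haN.1 v
    have h2 := std_pos hv
    have h3 := std_le_avg (G := G) v
    have h4 : 0 < (avg G std v v).re := h2.trans_le h3
    positivity
  have hS4 : ∀ v w : Fin 3 → ℂ, Lat v → Lat w → Ind v w → 3 * (K * b + 8 / 3 * c0 G : ℝ) ≤
      S4 (fun u w => (K : ℂ) * frm (up a) u w + ((2 * c0 G : ℕ) : ℂ) * avg G std u w) v w := by
    intro v w hv hw hvw
    have h1 := haN.2.2 v w hv hw hvw
    have h2 : 4 * (1 : ℝ) ≤ S4 (avg G std) v w := S4_ge 1 (fun v hv hv0 =>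
      (one_le_std hv hv0).trans (std_le_avg v)) hv hw hvw
    have h3 : S4 (fun u w => (K : ℂ) * frm (up a) u w + ((2 * c0 G : ℕ) : ℂ) * avg G std u w) v w =
        K * S4 (frm (up a)) v w + 2 * c0 G * S4 (avg G std) v w := by
      unfold S4
      rw [hre, hre, hre, hre]
      ring
    rw [h3]
    rw [hb] at h1
    have h4 := mul_le_mul_of_nonneg_left h1 hK0.le
    have h5 := mul_le_mul_of_nonneg_left h2 hcc.le
    linarith
  obtain ⟨N, hN, hmov⟩ := movable_qB hG D' hi' (b := K * b + c0 G) fun l hl hl0 =>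
    dec_line D' hpos (K * b + c0 G) (c := K * b + 8 / 3 * c0 G) (by push_cast; linarith) hS4 hl hl0
  have hNr : (0 : ℝ) < N := by exact_mod_cast hN
  obtain ⟨L', hL', hc⟩ := pow_cls (cls_eq (D := D') (hi := hi') (b := K * b + c0 G)
    (y := (c0 G : ℝ) • ((K : ℝ) • a + y₀)) (fun u w => by
      rw [up_smul, up_add, up_smul, frm_smul, frm_add, frm_smul, hy1]
      push_cast
      ring) (by
      rw [coef_smul, coef_add, coef_smul, hb, hy2]
      push_cast
      ring)) N
  have hsa : (N : ℝ) • (c0 G : ℝ) • ((K : ℝ) • a + y₀) ∈ movable (grp G hG) :=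
    ⟨L', hc, by rw [hL']; exact hmov⟩
  have h1 := span_smul (span_self hsa) (t := 1 / (N * c0 G * K)) (by positivity)
  have h2 : (1 / (N * c0 G * (K : ℝ))) • (N : ℝ) • (c0 G : ℝ) • ((K : ℝ) • a + y₀) =
      a + (1 / ((k : ℝ) + 1)) • y₀ := by
    rw [← hKr, smul_smul, smul_smul, smul_add, smul_smul]
    have e1 : 1 / (N * c0 G * (K : ℝ)) * N * c0 G * K = 1 := by field_simp
    have e2 : 1 / (N * c0 G * (K : ℝ)) * N * c0 G = 1 / K := by field_simp
    rw [e1, e2, one_smul]
  rwa [h2] at h1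

end Pool.Agent.H899.MK
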