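import Pool.Graph.R_seed8.R895.Liou
import Pool.Graph.R_seed8.R895.Th
import Pool.Graph.R_seed8.Helper417.Mer.HartogsExt

/-! Division by a theta function. -/

set_option autoImplicit false

namespace Pool.Agent.H899.MK

open Filter Topology Asymptotics Complex
open Pool.Agent.R895

theorem eis_nhds {z : ℂ} (hz : ¬IsEis z) : ∀ᶠ w in 𝓝 z, ¬IsEis w := by
  have h1 : ∀ᶠ w in 𝓝 z, sig w ≠ 0 := sig_entire.continuous.continuousAt.eventually_ne (sig_ne hz)
  filter_upwards [h1] with w hw h
  exact hw (sig_eq_zero h)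

theorem sig_deriv_ne {l : ℂ} (hl : IsEis l) : deriv (fun y => sig (l + y)) 0 ≠ 0 := by
  obtain ⟨ε, h1, h2, -⟩ := exists_good hl
  obtain ⟨c, hc, hd⟩ := sig_deriv
  have h3 : (fun y => sig (l + y)) = fun y =>
      ε * exp (Real.pi * kap * (y * (starRingEnd ℂ) l + l * (starRingEnd ℂ) l / 2)) * sig y := by
    funext y
    rw [add_comm]
    exact h2 y
  rw [h3]
  have h4 : DifferentiableAt ℂ (fun y : ℂ =>
      ε * exp (Real.pi * kap * (y * (starRingEnd ℂ) l + l * (starRingEnd ℂ) l / 2))) 0 := by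
    fun_prop
  have h5 := h4.hasDerivAt.mul hd
  have h6 := h5.deriv
  rw [sig_zero, mul_zero, zero_add] at h6
  have h7 : deriv (fun y => ε * exp (Real.pi * kap * (y * (starRingEnd ℂ) l +
      l * (starRingEnd ℂ) l / 2)) * sig y) 0 = _ := h6
  rw [h7]
  refine mul_ne_zero (mul_ne_zero ?_ (exp_ne_zero _)) hc
  rintro rfl
  rw [zero_mul] at h1
  exact zero_ne_one h1

theorem dslope_eq_integral {g : ℂ → ℂ} (hg : Differentiable ℂ g) (h0 : g 0 = 0) {y : ℂ}
    (hy : ‖y‖ < 1 / 2) :
    (2 * Real.pi * I : ℂ)⁻¹ • (∮ ξ in C(0, 1 / 2), g ξ / (ξ * (ξ - y))) = dslope g 0 y := by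
  have hd : Differentiable ℂ (dslope g 0) := by
    rw [← differentiableOn_univ]
    exact (Complex.differentiableOn_dslope Filter.univ_mem).2 hg.differentiableOn
  have h1 := (hd.diffContOnCl (s := Metric.ball (0 : ℂ) (1 / 2))
    ).two_pi_i_inv_smul_circleIntegral_sub_inv_smul (w := y) (by simpa using hy)
  rw [← h1]
  congr 1
  refine circleIntegral.integral_congr (by norm_num) fun ξ hξ => ?_
  rw [mem_sphere_zero_iff_norm] at hξ
  have hξ0 : ξ ≠ 0 := by
    rintro rfl
    rw [norm_zero] at hξ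
    norm_num at hξ
  have hξy : ξ - y ≠ 0 := by
    intro h
    rw [sub_eq_zero] at h
    rw [h] at hξ
    linarith
  rw [dslope_of_ne _ hξ0, slope_def_field, h0, sub_zero, sub_zero, smul_eq_mul]
  field_simp

/-- **Division by a theta function.** -/
theorem divide {f : ℂ × ℂ → ℂ} (hf : Differentiable ℂ f)
    (h0 : ∀ x l : ℂ, IsEis l → f (x, l) = 0) :
    ∃ g : ℂ × ℂ → ℂ, Differentiable ℂ g ∧ ∀ z, f z = sig z.2 * g z := by
  classical
  obtain ⟨g, hg⟩ : ∃ g : ℂ × ℂ → ℂ, g = fun z => if IsEis z.2 then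
    deriv (fun y => f (z.1, z.2 + y)) 0 / deriv (fun y => sig (z.2 + y)) 0 else f z / sig z.2 :=
    ⟨_, rfl⟩
  refine ⟨g, fun z₀ => ?_, fun z => ?_⟩
  · by_cases hz : IsEis z₀.2
    · obtain ⟨l, hl⟩ : ∃ l, l = z₀.2 := ⟨_, rfl⟩
      rw [← hl] at hz
      have hfd : ∀ x, Differentiable ℂ fun y => f (x, l + y) := by
        intro x
        have : Differentiable ℂ fun y : ℂ => ((x, l + y) : ℂ × ℂ) := by fun_prop
        exact hf.comp this
      have hsd : Differentiable ℂ fun y => sig (l + y) := by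
        have : Differentiable ℂ fun y : ℂ => l + y := by fun_prop
        exact sig_entire.comp this
      -- the holomorphic dependence on the parameters
      have hD : DifferentiableOn ℂ (fun p : ℂ × ℂ => ∮ ξ in C(0, 1 / 2),
          f (p.1, l + ξ) / (ξ * (ξ - p.2))) {p | ‖p.2‖ < 1 / 2} := by
        refine Pool.Agent.Helper417.Mer.Hartogs673.param_circle (Ω := {q : (ℂ × ℂ) × ℂ | q.2 * (q.2 - q.1.2) ≠ 0})
          (F := fun q : (ℂ × ℂ) × ℂ => f (q.1.1, l + q.2) / (q.2 * (q.2 - q.1.2))) ?_ ?_ ?_ ?_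
        · exact isOpen_ne_fun (by fun_prop) continuous_const
        · intro q hq
          have h1 : Differentiable ℂ fun q : (ℂ × ℂ) × ℂ => f (q.1.1, l + q.2) := by
            have : Differentiable ℂ fun q : (ℂ × ℂ) × ℂ => ((q.1.1, l + q.2) : ℂ × ℂ) := by fun_prop
            exact hf.comp this
          have h2 : Differentiable ℂ fun q : (ℂ × ℂ) × ℂ => q.2 * (q.2 - q.1.2) := by fun_prop
          have h3 : DifferentiableAt ℂ (fun q : (ℂ × ℂ) × ℂ => f (q.1.1, l + q.2) *
              (q.2 * (q.2 - q.1.2))⁻¹) q := (h1 q).mul ((h2 q).inv hq)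
          simp only [← div_eq_mul_inv] at h3
          exact h3.differentiableWithinAt
        · exact isOpen_lt (continuous_snd.norm) continuous_const
        · intro p hp ξ hξ
          have hp' : ‖p.2‖ < 1 / 2 := hp
          rw [mem_sphere_zero_iff_norm, abs_of_pos (by norm_num)] at hξ
          show ξ * (ξ - p.2) ≠ 0
          refine mul_ne_zero ?_ ?_
          · rintro rfl
            rw [norm_zero] at hξ
            norm_num at hξ
          · intro h
            rw [sub_eq_zero] at h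
            rw [h] at hξ
            linarith
      have hDd : DifferentiableAt ℂ (fun z : ℂ × ℂ => (2 * Real.pi * I : ℂ)⁻¹ •
          (∮ ξ in C(0, 1 / 2), f (z.1, l + ξ) / (ξ * (ξ - (z.2 - l))))) z₀ := by
        have h1 : DifferentiableAt ℂ (fun p : ℂ × ℂ => ∮ ξ in C(0, 1 / 2),
            f (p.1, l + ξ) / (ξ * (ξ - p.2))) (z₀.1, z₀.2 - l) := by
          refine hD.differentiableAt ((isOpen_lt (continuous_snd.norm) continuous_const).mem_nhds ?_)
          show ‖z₀.2 - l‖ < 1 / 2
          rw [hl, sub_self, norm_zero]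
          norm_num
        have h2 : DifferentiableAt ℂ (fun z : ℂ × ℂ => ((z.1, z.2 - l) : ℂ × ℂ)) z₀ := by fun_prop
        have h3 := (DifferentiableAt.comp z₀ h1 h2).const_smul ((2 * Real.pi * I : ℂ)⁻¹)
        exact h3
      have hed : DifferentiableAt ℂ (fun z : ℂ × ℂ => dslope (fun y => sig (l + y)) 0 (z.2 - l))
          z₀ := by
        have h1 : Differentiable ℂ (dslope (fun y => sig (l + y)) 0) := by
          rw [← differentiableOn_univ]
          exact (Complex.differentiableOn_dslope Filter.univ_mem).2 hsd.differentiableOn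
        have h2 : DifferentiableAt ℂ (fun z : ℂ × ℂ => z.2 - l) z₀ := by fun_prop
        exact (h1 _).comp z₀ h2
      have he0 : dslope (fun y => sig (l + y)) 0 (z₀.2 - l) ≠ 0 := by
        rw [hl, sub_self, dslope_same]
        rw [← hl]
        exact sig_deriv_ne hz
      refine (hDd.mul (hed.inv he0)).congr_of_eventuallyEq ?_
      have hU : {z : ℂ × ℂ | ‖z.2 - l‖ < 1 / 2} ∈ 𝓝 z₀ := by
        refine (isOpen_lt (continuous_snd.sub continuous_const).norm continuous_const).mem_nhds ?_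
        show ‖z₀.2 - l‖ < 1 / 2
        rw [hl, sub_self, norm_zero]
        norm_num
      filter_upwards [hU] with z hzU
      have hzU' : ‖z.2 - l‖ < 1 / 2 := hzU
      simp only [Pi.mul_apply, Pi.inv_apply]
      rw [← div_eq_mul_inv]
      rw [dslope_eq_integral (hfd z.1) (by rw [add_zero]; exact h0 z.1 l hz) hzU', hg]
      simp only
      by_cases hzl : z.2 = l
      · rw [if_pos (by rw [hzl]; exact hz), hzl, sub_self, dslope_same, dslope_same]
      · have hne : ¬IsEis z.2 := fun h => hzl (isEis_dist h hz (by linarith))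
        have hsub : z.2 - l ≠ 0 := sub_ne_zero.2 hzl
        rw [if_neg hne, dslope_of_ne _ hsub, dslope_of_ne _ hsub, slope_def_field,
          slope_def_field, add_zero, h0 z.1 l hz, sig_eq_zero hz, sub_zero, sub_zero, sub_zero,
          add_sub_cancel]
        field_simp
    · have h1 : DifferentiableAt ℂ (fun z : ℂ × ℂ => f z / sig z.2) z₀ := by
        have h2 : DifferentiableAt ℂ (fun z : ℂ × ℂ => sig z.2) z₀ :=
          (sig_entire _).comp z₀ differentiableAt_snd
        have h3 : DifferentiableAt ℂ (fun z : ℂ × ℂ => f z * (sig z.2)⁻¹) z₀ :=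
          (hf z₀).mul (h2.inv (sig_ne hz))
        simp only [← div_eq_mul_inv] at h3
        exact h3
      refine h1.congr_of_eventuallyEq ?_
      have h2 : ∀ᶠ z : ℂ × ℂ in 𝓝 z₀, ¬IsEis z.2 :=
        (continuous_snd.tendsto z₀).eventually (eis_nhds hz)
      filter_upwards [h2] with z hz2
      rw [hg]
      simp only
      rw [if_neg hz2]
  · rw [hg]
    simp only
    by_cases hz : IsEis z.2
    · rw [sig_eq_zero hz, zero_mul]
      exact h0 z.1 z.2 hz
    · rw [if_neg hz]
      have := sig_ne hz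
      field_simp

/-- The order of vanishing of the quotient. -/
theorem order_drop {f g : ℂ × ℂ → ℂ} (hg : Differentiable ℂ g) (hfg : ∀ z, f z = sig z.2 * g z)
    {k : ℕ} (hO : f =O[𝓝 0] fun z => ‖z‖ ^ (k + 1)) : g =O[𝓝 0] fun z => ‖z‖ ^ k := by
  obtain ⟨c, hc, hlow⟩ := sig_lower
  obtain ⟨C, hC⟩ := hO.bound
  obtain ⟨δ₁, hδ₁, h1⟩ := Metric.eventually_nhds_iff.1 hlow
  obtain ⟨δ₂, hδ₂, h2⟩ := Metric.eventually_nhds_iff.1 hC
  obtain ⟨δ, hδ⟩ : ∃ δ, δ = min δ₁ δ₂ := ⟨_, rfl⟩
  have hδ0 : 0 < δ := by rw [hδ]; exact lt_min hδ₁ hδ₂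
  have hδ1 : δ ≤ δ₁ := by rw [hδ]; exact min_le_left _ _
  have hδ2 : δ ≤ δ₂ := by rw [hδ]; exact min_le_right _ _
  refine IsBigO.of_bound (C / c) ?_
  filter_upwards [Metric.ball_mem_nhds (0 : ℂ × ℂ) hδ0] with z hz
  rw [mem_ball_zero_iff] at hz
  have key : ∀ r : ℝ, ‖z‖ < r → r < δ → ‖g z‖ ≤ C / c * r ^ k := by
    intro r hr hrδ
    have hr0 : 0 < r := lt_of_le_of_lt (norm_nonneg _) hr
    have hz1 : ‖z.1‖ < r := lt_of_le_of_lt (norm_fst_le z) hr
    have hz2 : ‖z.2‖ < r := lt_of_le_of_lt (norm_snd_le z) hr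
    have hline : Differentiable ℂ fun w : ℂ => g (z.1, w) := by
      have : Differentiable ℂ fun w : ℂ => ((z.1, w) : ℂ × ℂ) := by fun_prop
      exact hg.comp this
    have h3 : ‖g (z.1, z.2)‖ ≤ C / c * r ^ k := by
      refine Complex.norm_le_of_forall_mem_frontier_norm_le (U := Metric.ball 0 r)
        (f := fun w : ℂ => g (z.1, w)) Metric.isBounded_ball hline.diffContOnCl (fun w hw => ?_)
        (subset_closure (by simpa using hz2))
      rw [frontier_ball (0 : ℂ) hr0.ne', mem_sphere_zero_iff_norm] at hw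
      have h4 : c * r ≤ ‖sig w‖ := by
        have := h1 (y := w) (by rw [dist_zero_right, hw]; linarith)
        rwa [hw] at this
      have hn : ‖((z.1, w) : ℂ × ℂ)‖ = r := by
        rw [Prod.norm_mk, hw]
        exact max_eq_right hz1.le
      have h5 : ‖f (z.1, w)‖ ≤ C * r ^ (k + 1) := by
        have := h2 (y := ((z.1, w) : ℂ × ℂ)) (by rw [dist_zero_right, hn]; linarith)
        rw [hn, Real.norm_of_nonneg (by positivity)] at this
        exact this
      rw [hfg, norm_mul] at h5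
      have h6 : c * r * ‖g (z.1, w)‖ ≤ C * r ^ (k + 1) :=
        (mul_le_mul_of_nonneg_right h4 (norm_nonneg _)).trans h5
      have h7 : C / c * r ^ k = C * r ^ (k + 1) / (c * r) := by
        rw [pow_succ]
        field_simp
      rw [h7, le_div_iff₀ (by positivity)]
      linarith
    exact h3
  have h3 : Tendsto (fun r : ℝ => C / c * r ^ k) (𝓝[>] ‖z‖) (𝓝 (C / c * ‖z‖ ^ k)) := by
    have h4 : Continuous fun r : ℝ => C / c * r ^ k := by fun_prop
    exact (h4.tendsto _).mono_left nhdsWithin_le_nhds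
  rw [norm_pow, norm_norm]
  refine ge_of_tendsto h3 ?_
  have h4 : Set.Ioo ‖z‖ δ ∈ 𝓝[>] ‖z‖ := Ioo_mem_nhdsGT hz
  filter_upwards [h4] with r hr
  exact key r hr.1 hr.2

end Pool.Agent.H899.MK
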