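import Pool.Agent.H899.MK.Ub1
import Pool.Agent.H899.MK.Ar1

/-! Effective divisors on the blow-up of `E²` in a point. -/

set_option autoImplicit false

namespace Pool.Agent.H899.MK

open Filter Topology Asymptotics Complex
open Pool.Agent.R895

/-- The values of a hermitian form, possibly with a linear part. -/
def HQ (Q : ℂ × ℂ → ℝ) : Prop := ∀ w v : ℂ × ℂ, ∃ h : ℂ, ∀ z : ℂ,
  Q (w + z • v) = Q w + 2 * (z * h).re + normSq z * Q v

/-- A lattice vector. -/
def Lt (l : ℂ × ℂ) : Prop := IsEis l.1 ∧ IsEis l.2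

/-- A theta function. -/
structure QP (Q : ℂ × ℂ → ℝ) (f : ℂ × ℂ → ℂ) : Prop where
  holo : Differentiable ℂ f
  per : ∀ l, Lt l → ∀ z, ‖f (z + l)‖ ^ 2 * Real.exp (-(Real.pi * kap * Q (z + l))) =
    ‖f z‖ ^ 2 * Real.exp (-(Real.pi * kap * Q z))

theorem line_zero {Q : ℂ × ℂ → ℝ} {f : ℂ × ℂ → ℂ} (hQ : HQ Q) (hf : QP Q f) (w : ℂ × ℂ)
    {v : ℂ × ℂ} (hv : Lt v) (K : ℕ)
    (hord : (fun z : ℂ => f (w + z • v)) =O[𝓝 0] fun z : ℂ => ‖z‖ ^ K) (hA : Q v < K) :
    ∀ z : ℂ, f (w + z • v) = 0 := by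
  obtain ⟨h, hh⟩ := hQ w v
  have hd : Differentiable ℂ fun z : ℂ => w + z • v := by fun_prop
  refine liou (fun z => f (w + z • v)) (fun z => Real.pi * kap * z * h) (hf.holo.comp hd)
    (by fun_prop) (kap * Q v) K ?_ hord (mul_lt_mul_of_pos_left hA kap_pos)
  intro l hl z
  have hlv : Lt (l • v) := ⟨hl.mul hv.1, hl.mul hv.2⟩
  have h1 := hf.per _ hlv (w + z • v)
  have e1 : w + z • v + l • v = w + (z + l) • v := by rw [add_smul]; abel
  rw [e1, hh, hh] at h1
  have e2 : ∀ y : ℂ, Real.exp (-(Real.pi * kap * (Q w + 2 * (y * h).re + normSq y * Q v))) =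
      Real.exp (-(Real.pi * (kap * Q v) * normSq y) - 2 * (Real.pi * kap * y * h : ℂ).re) *
      Real.exp (-(Real.pi * kap * Q w)) := by
    intro y
    rw [← Real.exp_add]
    congr 1
    have : (Real.pi * kap * y * h : ℂ).re = Real.pi * kap * (y * h).re := by
      rw [← ofReal_mul, mul_assoc, re_ofReal_mul]
    rw [this]
    ring
  rw [e2, e2] at h1
  refine mul_right_cancel₀ (Real.exp_pos (-(Real.pi * kap * Q w))).ne' ?_
  linear_combination h1

theorem cont_of_HQ {Q : ℂ × ℂ → ℝ} (hQ : HQ Q) (w v : ℂ × ℂ) :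
    Continuous fun z : ℂ => Q (w + z • v) := by
  obtain ⟨h, hh⟩ := hQ w v
  simp only [hh]
  have h1 : Continuous fun z : ℂ => (z * h).re :=
    continuous_re.comp (continuous_id.mul continuous_const)
  have h2 : Continuous fun z : ℂ => normSq z := continuous_normSq
  fun_prop

/-- **The inductive step**: a theta function which vanishes on a curve. -/
theorem step {Q : ℂ × ℂ → ℝ} {f : ℂ × ℂ → ℂ} (A : (ℂ × ℂ) ≃ₗ[ℂ] (ℂ × ℂ))
    (hA : ∀ l, Lt l → Lt (A l)) (hA' : ∀ l, Lt l → Lt (A.symm l)) {k : ℕ} (hQ : HQ Q)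
    (hf : QP Q f) (h0 : ∃ z, f z ≠ 0) (hO : f =O[𝓝 0] fun z => ‖z‖ ^ (k + 1))
    (hv : Q (A (1, 0)) < (k + 1 : ℕ)) :
    ∃ g, HQ (fun z => Q z - normSq (A.symm z).2) ∧ QP (fun z => Q z - normSq (A.symm z).2) g ∧
      (∃ z, g z ≠ 0) ∧ g =O[𝓝 0] fun z => ‖z‖ ^ k := by
  have hAc : Continuous A := LinearMap.continuous_of_finiteDimensional (A : (ℂ × ℂ) →ₗ[ℂ] (ℂ × ℂ))
  have hA'c : Continuous A.symm :=
    LinearMap.continuous_of_finiteDimensional (A.symm : (ℂ × ℂ) →ₗ[ℂ] (ℂ × ℂ))
  have hAd : Differentiable ℂ A :=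
    (LinearMap.toContinuousLinearMap (A : (ℂ × ℂ) →ₗ[ℂ] (ℂ × ℂ))).differentiable
  have hA'd : Differentiable ℂ A.symm :=
    (LinearMap.toContinuousLinearMap (A.symm : (ℂ × ℂ) →ₗ[ℂ] (ℂ × ℂ))).differentiable
  have hO' : ∀ B : (ℂ × ℂ) ≃ₗ[ℂ] (ℂ × ℂ), Differentiable ℂ B → ∀ (F : ℂ × ℂ → ℂ) (m : ℕ),
      F =O[𝓝 0] (fun z => ‖z‖ ^ m) → (fun z => F (B z)) =O[𝓝 0] fun z => ‖z‖ ^ m := by
    intro B hB F m hF
    have h2 : Tendsto (fun v => B v) (𝓝 0) (𝓝 0) := by
      have := hB.continuous.tendsto 0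
      rwa [map_zero] at this
    refine (hF.comp_tendsto h2).trans ?_
    have h4 : (fun v => B v) =O[𝓝 0] fun v => v := by
      have h5 := (hB 0).hasFDerivAt.isBigO_sub
      simpa using h5
    exact (h4.norm_norm).pow m
  have h10 : Lt ((1, 0) : ℂ × ℂ) := ⟨IsEis.one, IsEis.zero⟩
  -- the function vanishes on the line
  have hz0 : ∀ x : ℂ, f (x • A (1, 0)) = 0 := by
    intro x
    have h1 := line_zero hQ hf 0 (hA _ h10) (k + 1) (by
      have h1 : Tendsto (fun z : ℂ => (0 : ℂ × ℂ) + z • A (1, 0)) (𝓝 0) (𝓝 0) := by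
        have h2 : Continuous fun z : ℂ => (0 : ℂ × ℂ) + z • A (1, 0) := by fun_prop
        simpa using h2.tendsto 0
      refine (hO.comp_tendsto h1).trans ?_
      refine IsBigO.of_bound (‖A (1, 0)‖ ^ (k + 1)) (Eventually.of_forall fun z => ?_)
      rw [Function.comp_apply, zero_add, norm_smul, mul_pow, norm_mul, mul_comm]
      simp) hv x
    rwa [zero_add] at h1
  have hz1 : ∀ x l : ℂ, IsEis l → f (A (x, l)) = 0 := by
    intro x l hl
    have h1 := hf.per (A (0, l)) (hA _ ⟨IsEis.zero, hl⟩) (x • A (1, 0))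
    rw [hz0, norm_zero, zero_pow two_ne_zero, zero_mul] at h1
    have h2 : x • A (1, 0) + A (0, l) = A (x, l) := by
      rw [← map_smul, ← map_add]
      congr 1
      simp
    rw [h2] at h1
    rcases mul_eq_zero.1 h1 with h3 | h3
    · exact norm_eq_zero.1 (pow_eq_zero_iff two_ne_zero |>.1 h3)
    · exact absurd h3 (Real.exp_pos _).ne'
  obtain ⟨g, hg, hfg⟩ := divide (hf.holo.comp hAd) hz1
  have hfg' : ∀ z, f z = sig (A.symm z).2 * g (A.symm z) := by
    intro z
    have := hfg (A.symm z)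
    simpa using this
  refine ⟨fun z => g (A.symm z), ?_, ⟨hg.comp hA'd, ?_⟩, ?_, ?_⟩
  · intro w v
    obtain ⟨h, hh⟩ := hQ w v
    refine ⟨h - (A.symm v).2 * (starRingEnd ℂ) (A.symm w).2, fun z => ?_⟩
    beta_reduce
    rw [hh, map_add, map_smul, Prod.snd_add, Prod.smul_snd, smul_eq_mul, normSq_add, normSq_mul]
    have e1 : ((A.symm w).2 * (starRingEnd ℂ) (z * (A.symm v).2)).re =
        (z * ((A.symm v).2 * (starRingEnd ℂ) (A.symm w).2)).re := by
      rw [← Complex.conj_re, map_mul, Complex.conj_conj]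
      congr 1
      ring
    rw [e1, mul_sub, sub_re]
    ring
  · intro l hl z
    -- both sides are continuous
    have hQc : ∀ w : ℂ × ℂ, Continuous fun y : ℂ => Q (w + y • A (0, 1)) := fun w =>
      cont_of_HQ hQ w _
    have hl' := hA' l hl
    have key : ∀ z : ℂ × ℂ, ¬IsEis (A.symm z).2 →
        ‖g (A.symm (z + l))‖ ^ 2 *
          Real.exp (-(Real.pi * kap * (Q (z + l) - normSq (A.symm (z + l)).2))) =
        ‖g (A.symm z)‖ ^ 2 * Real.exp (-(Real.pi * kap * (Q z - normSq (A.symm z).2))) := by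
      intro z hz
      have h1 := hf.per l hl z
      have hz' : ¬IsEis (A.symm (z + l)).2 := by
        intro h
        apply hz
        have := h.sub hl'.2
        rwa [map_add, Prod.snd_add, add_sub_cancel_right] at this
      have h2 := sig_norm hl'.2 (A.symm z).2
      rw [hfg', hfg' z, norm_mul, norm_mul, mul_pow, mul_pow] at h1
      have e1 : (A.symm (z + l)).2 = (A.symm z).2 + (A.symm l).2 := by rw [map_add]; rfl
      rw [← e1] at h2
      have e2 : ∀ a c : ℝ, Real.exp (-(Real.pi * kap * a)) =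
          Real.exp (-(Real.pi * kap * c)) * Real.exp (-(Real.pi * kap * (a - c))) := by
        intro a c
        rw [← Real.exp_add]
        congr 1
        ring
      rw [e2 (Q (z + l)) (normSq (A.symm (z + l)).2), e2 (Q z) (normSq (A.symm z).2)] at h1
      have h3 : (‖sig (A.symm z).2‖ ^ 2 * Real.exp (-(Real.pi * kap * normSq (A.symm z).2))) *
          (‖g (A.symm (z + l))‖ ^ 2 *
            Real.exp (-(Real.pi * kap * (Q (z + l) - normSq (A.symm (z + l)).2)))) =
          (‖sig (A.symm z).2‖ ^ 2 * Real.exp (-(Real.pi * kap * normSq (A.symm z).2))) *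
          (‖g (A.symm z)‖ ^ 2 * Real.exp (-(Real.pi * kap * (Q z - normSq (A.symm z).2)))) := by
        calc _ = (‖sig (A.symm (z + l)).2‖ ^ 2 *
              Real.exp (-(Real.pi * kap * normSq (A.symm (z + l)).2))) *
              (‖g (A.symm (z + l))‖ ^ 2 *
              Real.exp (-(Real.pi * kap * (Q (z + l) - normSq (A.symm (z + l)).2)))) := by rw [h2]
          _ = _ := by linear_combination h1
      have h4 : (‖sig (A.symm z).2‖ ^ 2 *
          Real.exp (-(Real.pi * kap * normSq (A.symm z).2))) ≠ 0 := by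
        have := norm_pos_iff.2 (sig_ne hz)
        positivity
      exact mul_left_cancel₀ h4 h3
    -- the approximating points
    obtain ⟨φ, hφ⟩ : ∃ φ : ℂ → ℝ, φ = fun y => ‖g (A.symm (z + y • A (0, 1) + l))‖ ^ 2 *
        Real.exp (-(Real.pi * kap * (Q (z + l + y • A (0, 1)) -
          normSq (A.symm (z + y • A (0, 1) + l)).2))) := ⟨_, rfl⟩
    obtain ⟨ψ, hψ⟩ : ∃ ψ : ℂ → ℝ, ψ = fun y => ‖g (A.symm (z + y • A (0, 1)))‖ ^ 2 *
        Real.exp (-(Real.pi * kap * (Q (z + y • A (0, 1)) -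
          normSq (A.symm (z + y • A (0, 1))).2))) := ⟨_, rfl⟩
    have hφc : Continuous φ := by
      have h1 := hQc (z + l)
      have h2 : Continuous fun y : ℂ => A.symm (z + y • A (0, 1) + l) :=
        hA'c.comp (by fun_prop)
      have h3 : Continuous fun y : ℂ => g (A.symm (z + y • A (0, 1) + l)) :=
        hg.continuous.comp h2
      have h4 : Continuous fun y : ℂ => normSq (A.symm (z + y • A (0, 1) + l)).2 :=
        continuous_normSq.comp (continuous_snd.comp h2)
      rw [hφ]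
      exact (h3.norm.pow 2).mul (Real.continuous_exp.comp
        ((continuous_const.mul (h1.sub h4)).neg))
    have hψc : Continuous ψ := by
      have h1 := hQc z
      have h2 : Continuous fun y : ℂ => A.symm (z + y • A (0, 1)) :=
        hA'c.comp (by fun_prop)
      have h3 : Continuous fun y : ℂ => g (A.symm (z + y • A (0, 1))) :=
        hg.continuous.comp h2
      have h4 : Continuous fun y : ℂ => normSq (A.symm (z + y • A (0, 1))).2 :=
        continuous_normSq.comp (continuous_snd.comp h2)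
      rw [hψ]
      exact (h3.norm.pow 2).mul (Real.continuous_exp.comp
        ((continuous_const.mul (h1.sub h4)).neg))
    have hev : ∀ᶠ y in 𝓝[≠] (0 : ℂ), φ y = ψ y := by
      have h1 : ∀ᶠ y in 𝓝[≠] (0 : ℂ), ¬IsEis ((A.symm z).2 + y) := by
        by_cases hz : IsEis (A.symm z).2
        · have h2 : Metric.ball (0 : ℂ) 1 ∈ 𝓝[≠] (0 : ℂ) :=
            nhdsWithin_le_nhds (Metric.ball_mem_nhds _ one_pos)
          filter_upwards [h2, self_mem_nhdsWithin] with y hy hy0 h3
          have hy1 : ‖y‖ < 1 := by simpa using hy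
          have := isEis_dist h3 hz (by rwa [add_sub_cancel_left])
          exact hy0 (by simpa using this)
        · have h2 : Tendsto (fun y : ℂ => (A.symm z).2 + y) (𝓝 0) (𝓝 (A.symm z).2) := by
            have : Continuous fun y : ℂ => (A.symm z).2 + y := by fun_prop
            have h := this.tendsto 0
            rwa [add_zero] at h
          exact nhdsWithin_le_nhds (h2.eventually (eis_nhds hz))
      filter_upwards [h1] with y hy
      have h2 := key (z + y • A (0, 1)) (by
        rw [map_add, map_smul, A.symm_apply_apply, Prod.snd_add, Prod.smul_snd, smul_eq_mul,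
          mul_one]
        exact hy)
      rw [hφ, hψ]
      beta_reduce
      rw [add_right_comm z l]
      exact h2
    have hlim1 : Tendsto φ (𝓝[≠] 0) (𝓝 (φ 0)) := (hφc.tendsto 0).mono_left nhdsWithin_le_nhds
    have hlim2 : Tendsto φ (𝓝[≠] 0) (𝓝 (ψ 0)) :=
      ((hψc.tendsto 0).mono_left nhdsWithin_le_nhds).congr' (hev.mono fun y hy => hy.symm)
    have h1 := tendsto_nhds_unique hlim1 hlim2
    rw [hφ, hψ] at h1
    beta_reduce at h1
    simpa only [zero_smul, add_zero] using h1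
  · obtain ⟨z, hz⟩ := h0
    refine ⟨z, fun h => hz ?_⟩
    have h' : g (A.symm z) = 0 := h
    rw [hfg', h', mul_zero]
  · exact hO' A.symm hA'd g k (order_drop hg hfg (hO' A hAd f (k + 1) hO))

/-- The shear. -/
def shear (c : ℂ) : (ℂ × ℂ) ≃ₗ[ℂ] (ℂ × ℂ) where
  toFun z := (z.1, c * z.1 + z.2)
  invFun z := (z.1, z.2 - c * z.1)
  map_add' x y := by
    refine Prod.ext rfl ?_
    show c * (x.1 + y.1) + (x.2 + y.2) = (c * x.1 + x.2) + (c * y.1 + y.2)
    ring
  map_smul' a x := by
    refine Prod.ext rfl ?_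
    show c * (a * x.1) + a * x.2 = a * (c * x.1 + x.2)
    ring
  left_inv z := by
    refine Prod.ext rfl ?_
    show c * z.1 + z.2 - c * z.1 = z.2
    ring
  right_inv z := by
    refine Prod.ext rfl ?_
    show c * z.1 + (z.2 - c * z.1) = z.2
    ring

theorem shear_apply (c : ℂ) (z : ℂ × ℂ) : shear c z = (z.1, c * z.1 + z.2) := rfl

theorem shear_symm (c : ℂ) (z : ℂ × ℂ) : (shear c).symm z = (z.1, z.2 - c * z.1) := rfl

theorem nsq_om : normSq om = 1 := by
  have h := normSq_ab 0 1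
  simpa using h

/-- **Effective divisors on the blow-up of `E²`.** -/
theorem eff2 (k : ℕ) : ∀ (Q : ℂ × ℂ → ℝ) (f : ℂ × ℂ → ℂ), HQ Q → QP Q f → (∃ z, f z ≠ 0) →
    (f =O[𝓝 0] fun z => ‖z‖ ^ k) →
    3 * (k : ℝ) ≤ Q (1, 0) + Q (0, 1) + Q (1, 1) + Q (1, -om) := by
  induction k with
  | zero =>
    intro Q f hQ hf h0 _
    by_contra hcon
    push Not at hcon
    have key : ∀ v : ℂ × ℂ, Lt v → Q v < 0 → False := by
      intro v hv hQv
      obtain ⟨w, hw⟩ := h0
      apply hw
      have h1 := line_zero hQ hf w hv 0 (by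
        simp only [pow_zero]
        have hd : Differentiable ℂ fun z : ℂ => w + z • v := by fun_prop
        exact (hf.holo.comp hd).continuous.continuousAt.isBigO_one ℝ) (by simpa using hQv) 0
      simpa using h1
    have h1 := not_lt.1 (key (1, 0) ⟨IsEis.one, IsEis.zero⟩)
    have h2 := not_lt.1 (key (0, 1) ⟨IsEis.zero, IsEis.one⟩)
    have h3 := not_lt.1 (key (1, 1) ⟨IsEis.one, IsEis.one⟩)
    have h4 := not_lt.1 (key (1, -om) ⟨IsEis.one, IsEis.omega.neg⟩)
    rw [Nat.cast_zero, mul_zero] at hcon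
    linarith
  | succ k ih =>
    intro Q f hQ hf h0 hO
    have hz := nsq_om
    have hz1 : normSq (1 + om) = 1 := by
      have h := normSq_ab 1 1
      simpa using h
    have hsh : ∀ c : ℂ, IsEis c → (∀ l, Lt l → Lt (shear c l)) ∧
        ∀ l, Lt l → Lt ((shear c).symm l) := fun c hc =>
      ⟨fun l hl => ⟨hl.1, (hc.mul hl.1).add hl.2⟩, fun l hl => ⟨hl.1, hl.2.sub (hc.mul hl.1)⟩⟩
    have hshear : ∀ c : ℂ, IsEis c → Q (1, c) < (k + 1 : ℕ) →
        3 * (k : ℝ) ≤ (Q (1, 0) - normSq (0 - c * 1)) + (Q (0, 1) - normSq (1 - c * 0)) +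
          (Q (1, 1) - normSq (1 - c * 1)) + (Q (1, -om) - normSq (-om - c * 1)) := by
      intro c hc hlt
      obtain ⟨g, hg1, hg2, hg3, hg4⟩ := step (shear c) (hsh c hc).1 (hsh c hc).2 hQ hf h0 hO (by
        rw [shear_apply]
        simpa using hlt)
      exact ih _ g hg1 hg2 hg3 hg4
    by_cases h1 : Q (1, 0) < (k + 1 : ℕ)
    · have h5 := hshear 0 IsEis.zero h1
      simp only [zero_mul, sub_zero, normSq_zero, normSq_one, normSq_neg, hz] at h5
      push_cast
      linarith
    · by_cases h2 : Q (0, 1) < (k + 1 : ℕ)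
      · obtain ⟨g, hg1, hg2, hg3, hg4⟩ := step (LinearEquiv.prodComm ℂ ℂ ℂ)
          (fun l hl => ⟨hl.2, hl.1⟩) (fun l hl => ⟨hl.2, hl.1⟩) hQ hf h0 hO (by
            simpa using h2)
        have h5 : 3 * (k : ℝ) ≤ (Q (1, 0) - normSq 1) + (Q (0, 1) - normSq 0) +
            (Q (1, 1) - normSq 1) + (Q (1, -om) - normSq 1) := ih _ g hg1 hg2 hg3 hg4
        rw [normSq_zero, normSq_one] at h5
        push_cast
        linarith
      · by_cases h3 : Q (1, 1) < (k + 1 : ℕ)
        · have h5 := hshear 1 IsEis.one h3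
          have e1 : -om - 1 * 1 = -(1 + om) := by ring
          rw [e1] at h5
          simp only [mul_one, mul_zero, zero_sub, sub_zero, sub_self, normSq_zero, normSq_one,
            normSq_neg, hz1] at h5
          push_cast
          linarith
        · by_cases h4 : Q (1, -om) < (k + 1 : ℕ)
          · have h5 := hshear (-om) IsEis.omega.neg h4
            have e1 : 1 - -om * 1 = 1 + om := by ring
            have e2 : -om - -om * 1 = 0 := by ring
            have e3 : 0 - -om * 1 = om := by ring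
            rw [e1, e2, e3] at h5
            simp only [mul_zero, sub_zero, normSq_zero, normSq_one, hz, hz1] at h5
            push_cast
            linarith
          · push Not at h1 h2 h3 h4
            push_cast at *
            linarith

end Pool.Agent.H899.MK
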